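import Pool.Agent.H19.Fc.Defs

/-!
# Module AVG1: Gaussian average of one exponential sum

`avg_one`. `∫⁻ x, F x ∂gam = ∫⁻ x, ofReal (exp(-(π x^2))) * F x` (`lintegral_withDensity_eq_lintegral_mul`), then real integral
(`ofReal_integral_eq_lintegral_ofReal`), and with `y = x t` (`MeasureTheory.Measure.integral_comp_mul_right` or
`integral_comp_mul_right`): `∫ exp(-(π x^2)) ‖Bh N β (x t)‖^2 dx = |t|⁻¹ ∫ exp(-(π y^2/t^2)) ‖Bh N β y‖^2 dy = ∫ w (t^2) y ‖Bh N β y‖^2 dy`
since `√(t^2) = |t|`; now `Pool.H48.Wt.L2_le` with `b = t^2`.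
`gam` is a probability measure: `∫ exp(-(π x^2)) = 1` (`integral_gaussian`).
-/

set_option autoImplicit false

namespace Pool.H19.Fc

open MeasureTheory Set Pool.H19.Wa Pool.H48.Wt

theorem gam_int : Integrable (fun x : ℝ => Real.exp (-(Real.pi * x ^ 2))) := by
  have h1 : Integrable (fun x : ℝ => Real.exp (-Real.pi * x ^ 2)) := integrable_exp_neg_mul_sq Real.pi_pos
  refine h1.congr (Filter.Eventually.of_forall fun x => ?_)
  simp only
  congr 1
  ring

theorem gam_integral : ∫ x : ℝ, Real.exp (-(Real.pi * x ^ 2)) = 1 := by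
  have h1 : ∀ x : ℝ, Real.exp (-(Real.pi * x ^ 2)) = Real.exp (-Real.pi * x ^ 2) := by
    intro x
    congr 1
    ring
  simp_rw [h1]
  rw [integral_gaussian, div_self Real.pi_ne_zero, Real.sqrt_one]

instance : IsProbabilityMeasure gam := by
  constructor
  unfold gam
  rw [withDensity_apply _ MeasurableSet.univ, Measure.restrict_univ,
    ← ofReal_integral_eq_lintegral_ofReal gam_int (Filter.Eventually.of_forall fun x => (Real.exp_pos _).le),
    gam_integral, ENNReal.ofReal_one]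

theorem lintegral_gam (F : ℝ → ENNReal) (hF : Measurable F) :
    ∫⁻ x, F x ∂gam = ∫⁻ x, ENNReal.ofReal (Real.exp (-(Real.pi * x ^ 2))) * F x := by
  unfold gam
  rw [lintegral_withDensity_eq_lintegral_mul _ (by fun_prop) hF]
  rfl

theorem avg_one (N : ℕ) (β : ℕ → ℝ) (D : ℝ) (hD : 0 < D) (hβ : Cells N β D) (t : ℝ) (ht : t ≠ 0) :
    ∫⁻ x, ENNReal.ofReal (‖Bh N β (x * t)‖ ^ 2) ∂gam ≤ ENNReal.ofReal (N * (3 + 4 / (|t| * D))) := by
  have hc : Continuous (fun x : ℝ => ‖Bh N β (x * t)‖ ^ 2) :=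
    ((continuous_Bh N β).comp (by fun_prop)).norm.pow 2
  rw [lintegral_gam _ hc.measurable.ennreal_ofReal]
  have ht2 : 0 < t ^ 2 := by positivity
  have htabs : 0 < |t| := abs_pos.mpr ht
  have hsq : Real.sqrt (t ^ 2) = |t| := Real.sqrt_sq_eq_abs t
  have hi : Integrable (fun x : ℝ => Real.exp (-(Real.pi * x ^ 2)) * ‖Bh N β (x * t)‖ ^ 2) := by
    refine (gam_int.mul_const ((N : ℝ) ^ 2)).mono' ?_ (Filter.Eventually.of_forall fun x => ?_)
    · exact (Continuous.mul (by fun_prop) hc).aestronglyMeasurable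
    · rw [Real.norm_of_nonneg (mul_nonneg (Real.exp_pos _).le (by positivity))]
      exact mul_le_mul_of_nonneg_left (pow_le_pow_left₀ (norm_nonneg _) (norm_Bh_le N β _) 2)
        (Real.exp_pos _).le
  have e1 : ∀ x : ℝ, ENNReal.ofReal (Real.exp (-(Real.pi * x ^ 2))) * ENNReal.ofReal (‖Bh N β (x * t)‖ ^ 2) =
      ENNReal.ofReal (Real.exp (-(Real.pi * x ^ 2)) * ‖Bh N β (x * t)‖ ^ 2) := fun x =>
    (ENNReal.ofReal_mul (Real.exp_pos _).le).symm
  simp_rw [e1]
  rw [← ofReal_integral_eq_lintegral_ofReal hi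
    (Filter.Eventually.of_forall fun x => mul_nonneg (Real.exp_pos _).le (by positivity))]
  apply ENNReal.ofReal_le_ofReal
  have e2 : ∀ x : ℝ, Real.exp (-(Real.pi * x ^ 2)) * ‖Bh N β (x * t)‖ ^ 2 =
      |t| * (fun y : ℝ => w (t ^ 2) y * ‖Bh N β y‖ ^ 2) (x * t) := by
    intro x
    simp only [w]
    rw [hsq]
    have h1 : Real.pi * (x * t) ^ 2 / t ^ 2 = Real.pi * x ^ 2 := by field_simp
    rw [h1]
    field_simp
  simp_rw [e2]
  rw [integral_const_mul]
  have e3 := Measure.integral_comp_mul_right (fun y : ℝ => w (t ^ 2) y * ‖Bh N β y‖ ^ 2) t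
  rw [e3, smul_eq_mul, abs_inv, ← mul_assoc, mul_inv_cancel₀ htabs.ne', one_mul]
  have e4 := L2_le N β D hD hβ ht2
  rw [hsq] at e4
  exact e4

end Pool.H19.Fc
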