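import Pool.Agent.H19.Fc.Avg1

/-!
# Module AVGF: factorisation and the average over all coefficients

`Fs_eq`: `∏_(i : Fin (m+1)) ∑_(n < N i) h i n = ∑_(n ∈ piFinset) ∏ h i (n i)` (`Finset.prod_univ_sum`), with
`h 0 n = e (t * β 0 n)`, `h i.succ n = e (lam i * t * β i.succ n)` (`Fin.cons`), `Fin.prod_univ_succ`, `e_add`, `e_sum`.
`lint_pi`: for measurable `g i : ℝ → ℝ≥0∞`: `∫⁻ lam, ∏ i, g i (lam i) ∂Gam m = ∏ i, ∫⁻ x, g i x ∂gam` (induction on `m` with
`measurePreserving_piFinSuccAbove` at `0` and `lintegral_prod_mul`; or from independence; only `≤` is needed).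
`avg_F`: `‖Fs‖^2 = ‖B_0(t)‖^2 ∏ ‖B_i(lam_i t)‖^2`, `ENNReal.ofReal_prod_of_nonneg`, `lint_pi`, `avg_one`.
-/

set_option autoImplicit false

namespace Pool.H19.Fc

open MeasureTheory Set Pool.H19.Wa Pool.H48.Wt

theorem Fs_eq {m : ℕ} (N : Fin (m + 1) → ℕ) (β : Fin (m + 1) → ℕ → ℝ) (lam : Fin m → ℝ) (t : ℝ) :
    Fs (bx N) (vv β lam) t = Bh (N 0) (β 0) t * ∏ i : Fin m, Bh (N i.succ) (β i.succ) (lam i * t) := by
  set h : (i : Fin (m + 1)) → ℕ → ℂ := fun i =>
    Fin.cases (motive := fun _ => ℕ → ℂ) (fun n => e (t * β 0 n)) (fun i n => e (lam i * t * β i.succ n)) i with hh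
  have h0 : ∀ n, h 0 n = e (t * β 0 n) := fun n => rfl
  have hs : ∀ (i : Fin m) n, h i.succ n = e (lam i * t * β i.succ n) := fun i n => rfl
  have h1 : ∏ i : Fin (m + 1), ∑ n ∈ Finset.range (N i), h i n =
      ∑ n ∈ Fintype.piFinset (fun i => Finset.range (N i)), ∏ i, h i (n i) :=
    Finset.prod_univ_sum (fun i => Finset.range (N i)) (fun i n => h i n)
  have h2 : ∏ i : Fin (m + 1), ∑ n ∈ Finset.range (N i), h i n =
      Bh (N 0) (β 0) t * ∏ i : Fin m, Bh (N i.succ) (β i.succ) (lam i * t) := by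
    rw [Fin.prod_univ_succ]
    rfl
  rw [← h2, h1]
  unfold Fs bx
  refine Finset.sum_congr rfl fun n _ => ?_
  rw [Fin.prod_univ_succ, h0]
  simp only [hs]
  rw [← e_sum, ← e_add]
  congr 1
  unfold vv
  rw [mul_add, Finset.mul_sum]
  congr 1
  refine Finset.sum_congr rfl fun i _ => ?_
  ring

theorem lint_pi (m : ℕ) (g : Fin m → ℝ → ENNReal) (hg : ∀ i, Measurable (g i)) :
    ∫⁻ lam, ∏ i, g i (lam i) ∂Gam m = ∏ i, ∫⁻ x, g i x ∂gam := by
  induction m with
  | zero =>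
    unfold Gam
    simp
  | succ m ih =>
    have hmp := measurePreserving_piFinSuccAbove (fun _ : Fin (m + 1) => gam) 0
    have h1 : ∫⁻ lam, ∏ i, g i (lam i) ∂Gam (m + 1) =
        ∫⁻ p : ℝ × (Fin m → ℝ), g 0 p.1 * ∏ i : Fin m, g i.succ (p.2 i) ∂(gam.prod (Gam m)) := by
      have h2 := hmp.lintegral_comp_emb (MeasurableEquiv.measurableEmbedding _)
        (fun p : ℝ × (Fin m → ℝ) => g 0 p.1 * ∏ i : Fin m, g i.succ (p.2 i))
      unfold Gam
      refine Eq.trans ?_ h2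
      refine lintegral_congr fun lam => ?_
      rw [Fin.prod_univ_succ]
      rfl
    rw [h1]
    have hm : Measurable (fun x : Fin m → ℝ => ∏ i : Fin m, g i.succ (x i)) := by
      apply Finset.measurable_fun_prod
      intro i _
      exact (hg i.succ).comp (measurable_pi_apply i)
    have : SFinite (Gam m) := by unfold Gam; infer_instance
    rw [lintegral_prod_mul (hg 0).aemeasurable hm.aemeasurable, ih (fun i => g i.succ) (fun i => hg i.succ),
      Fin.prod_univ_succ]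

theorem avg_F {m : ℕ} (N : Fin (m + 1) → ℕ) (β : Fin (m + 1) → ℕ → ℝ) (D : Fin (m + 1) → ℝ)
    (hD : ∀ i, 0 < D i) (hβ : ∀ i, Cells (N i) (β i) (D i)) (t : ℝ) (ht : t ≠ 0) :
    ∫⁻ lam, ENNReal.ofReal (‖Fs (bx N) (vv β lam) t‖ ^ 2) ∂Gam m ≤
      ENNReal.ofReal (‖Bh (N 0) (β 0) t‖ ^ 2 *
        ∏ i : Fin m, ((N i.succ : ℝ) * (3 + 4 / (|t| * D i.succ)))) := by
  have h1 : ∀ lam : Fin m → ℝ, ENNReal.ofReal (‖Fs (bx N) (vv β lam) t‖ ^ 2) =
      ENNReal.ofReal (‖Bh (N 0) (β 0) t‖ ^ 2) *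
        ∏ i : Fin m, ENNReal.ofReal (‖Bh (N i.succ) (β i.succ) (lam i * t)‖ ^ 2) := by
    intro lam
    rw [Fs_eq, norm_mul, norm_prod, mul_pow, ← Finset.prod_pow, ENNReal.ofReal_mul (by positivity),
      ENNReal.ofReal_prod_of_nonneg (fun i _ => by positivity)]
  simp_rw [h1]
  have hmeas : ∀ i : Fin m, Measurable (fun x : ℝ =>
      ENNReal.ofReal (‖Bh (N i.succ) (β i.succ) (x * t)‖ ^ 2)) := fun i =>
    ((((continuous_Bh (N i.succ) (β i.succ)).comp (by fun_prop)).norm.pow 2).measurable).ennreal_ofReal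
  rw [lintegral_const_mul]
  · rw [lint_pi m (fun i x => ENNReal.ofReal (‖Bh (N i.succ) (β i.succ) (x * t)‖ ^ 2)) hmeas,
      ENNReal.ofReal_mul (by positivity)]
    refine mul_le_mul' le_rfl ?_
    rw [ENNReal.ofReal_prod_of_nonneg (fun i _ => by
      have := hD i.succ
      have := abs_nonneg t
      positivity)]
    exact Finset.prod_le_prod' fun i _ => avg_one _ _ _ (hD i.succ) (hβ i.succ) t ht
  · apply Finset.measurable_fun_prod
    intro i _
    exact (hmeas i).comp (measurable_pi_apply i)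

end Pool.H19.Fc
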