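import Pool.Agent.H19.Fc.Ker

/-!
# Module RHOBD: the pointwise bound of the symbol against the averages

Let `z = |t| D0 > 0`, so `π t^2/b0 = π A^2 z^2` for `b0 = 1/(A D0)^2`. `rho^2 ≤ exp(-(π t^2/b))^2 * min(1, π A^2 z^2)^(2m)`
(`rho_le`, `rho_le'`) and `exp(..)^2 ≤ exp(..)`. As `D i ≥ c0 D0`, `3 + 4/(|t| D i) ≤ 3 + 4/(c0 z)`.
If `z ≥ 1` the product is `≤ (3 + 4/c0)^m`. If `z < 1`: `3 + 4/(c0 z) ≤ (3 + 4/c0)/z` and
`(π A^2 z^2)^(2m) ((3+4/c0)/z)^m = (π A^2)^(2m) (3+4/c0)^m z^(3m) ≤ (π A^2)^(2m) (3+4/c0)^m`.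
So `C = (1 + (π A^2)^(2m)) (3 + 4/c0)^m`.
-/

set_option autoImplicit false

namespace Pool.H19.Fc

open MeasureTheory Set Pool.H19.Wa Pool.H48.Wt

theorem rho_bd (m : ℕ) (A c0 : ℝ) (hA : 1 ≤ A) (hc0 : 0 < c0) :
    ∃ C : ℝ, 0 < C ∧ ∀ (b D0 : ℝ) (D : Fin m → ℝ), 0 < b → 0 < D0 → (∀ i, c0 * D0 ≤ D i) →
      ∀ t : ℝ, t ≠ 0 →
        rho m b (1 / (A * D0) ^ 2) t ^ 2 * ∏ i : Fin m, (3 + 4 / (|t| * D i)) ≤
          C * Real.exp (-(Real.pi * t ^ 2 / b)) := by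
  have hpi := Real.pi_pos
  have hA0 : 0 < A := by linarith
  obtain ⟨K, hK⟩ : ∃ K : ℝ, K = 3 + 4 / c0 := ⟨_, rfl⟩
  have hKpos : 0 < K := by rw [hK]; positivity
  refine ⟨(1 + (Real.pi * A ^ 2) ^ (2 * m)) * K ^ m, by positivity, ?_⟩
  intro b D0 D hb hD0 hD t ht
  have ht' : 0 < |t| := abs_pos.mpr ht
  obtain ⟨z, hz⟩ : ∃ z : ℝ, z = |t| * D0 := ⟨_, rfl⟩
  have hz0 : 0 < z := by rw [hz]; positivity
  have hb0 : 0 < 1 / (A * D0) ^ 2 := by positivity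
  have hS : Real.pi * t ^ 2 / (1 / (A * D0) ^ 2) = Real.pi * A ^ 2 * z ^ 2 := by
    rw [hz, mul_pow (|t|) D0 2, sq_abs]; field_simp
  obtain ⟨E, hE⟩ : ∃ E : ℝ, E = Real.exp (-(Real.pi * t ^ 2 / b)) := ⟨_, rfl⟩
  have hE0 : 0 < E := by rw [hE]; exact Real.exp_pos _
  have hE1 : E ≤ 1 := by
    rw [hE]; apply Real.exp_le_one_iff.mpr
    have : 0 ≤ Real.pi * t ^ 2 / b := by positivity
    linarith
  have hr0 := rho_nonneg m hb hb0 t
  have hr1 := rho_le m hb hb0 t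
  have hr2 := rho_le' m hb hb0 t
  rw [hS] at hr2
  rw [← hE] at hr1 hr2 ⊢
  have hDz : ∀ i, c0 * z ≤ |t| * D i := by
    intro i
    have h1 := mul_le_mul_of_nonneg_left (hD i) ht'.le
    rw [hz]; linarith
  have hcz : 0 < c0 * z := by positivity
  have hf : ∀ i, 3 + 4 / (|t| * D i) ≤ 3 + 4 / (c0 * z) := by
    intro i
    have h1 : 4 / (|t| * D i) ≤ 4 / (c0 * z) := div_le_div_of_nonneg_left (by norm_num) hcz (hDz i)
    linarith
  have hf0 : ∀ i, 0 ≤ 3 + 4 / (|t| * D i) := by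
    intro i
    have h1 : 0 < |t| * D i := lt_of_lt_of_le hcz (hDz i)
    positivity
  have hprod : ∏ i : Fin m, (3 + 4 / (|t| * D i)) ≤ (3 + 4 / (c0 * z)) ^ m := by
    calc _ ≤ ∏ i : Fin m, (3 + 4 / (c0 * z)) :=
          Finset.prod_le_prod (fun i _ => hf0 i) (fun i _ => hf i)
      _ = _ := by simp
  have hprod0 : 0 ≤ ∏ i : Fin m, (3 + 4 / (|t| * D i)) := Finset.prod_nonneg (fun i _ => hf0 i)
  have hEE : E ^ 2 ≤ E := by nlinarith
  have hP0 : 0 < (Real.pi * A ^ 2) ^ (2 * m) := by positivity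
  have hKm : 0 < K ^ m := by positivity
  rcases le_or_gt 1 z with h | h
  · have h1 : rho m b (1 / (A * D0) ^ 2) t ^ 2 ≤ E := by
      calc _ ≤ E ^ 2 := pow_le_pow_left₀ hr0 hr1 2
        _ ≤ E := hEE
    have h2 : (3 + 4 / (c0 * z)) ^ m ≤ K ^ m := by
      apply pow_le_pow_left₀ (by positivity)
      rw [hK]
      have : 4 / (c0 * z) ≤ 4 / c0 := by
        apply div_le_div_of_nonneg_left (by norm_num) hc0
        nlinarith
      linarith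
    calc _ ≤ E * K ^ m := mul_le_mul h1 (hprod.trans h2) hprod0 hE0.le
      _ ≤ (1 + (Real.pi * A ^ 2) ^ (2 * m)) * K ^ m * E := by
          have : 0 ≤ (Real.pi * A ^ 2) ^ (2 * m) * K ^ m * E := by positivity
          nlinarith
  · have h1 : rho m b (1 / (A * D0) ^ 2) t ^ 2 ≤ E * (Real.pi * A ^ 2 * z ^ 2) ^ (2 * m) := by
      calc _ ≤ (E * (Real.pi * A ^ 2 * z ^ 2) ^ m) ^ 2 := pow_le_pow_left₀ hr0 hr2 2
        _ = E ^ 2 * (Real.pi * A ^ 2 * z ^ 2) ^ (2 * m) := by rw [mul_pow, ← pow_mul, mul_comm m 2]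
        _ ≤ _ := mul_le_mul_of_nonneg_right hEE (by positivity)
    have h2 : (3 + 4 / (c0 * z)) ^ m ≤ (K / z) ^ m := by
      apply pow_le_pow_left₀ (by positivity)
      rw [hK]
      have h3 : (3 : ℝ) ≤ 3 / z := by
        rw [le_div_iff₀ hz0]; nlinarith
      have h4 : 4 / (c0 * z) = 4 / c0 / z := by rw [div_div]
      rw [add_div, h4]; linarith
    have h3 : (Real.pi * A ^ 2 * z ^ 2) ^ (2 * m) * (K / z) ^ m =
        (Real.pi * A ^ 2) ^ (2 * m) * K ^ m * z ^ (3 * m) := by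
      have h5 : (z ^ 2) ^ (2 * m) = z ^ (3 * m) * z ^ m := by
        rw [← pow_mul, ← pow_add]; congr 1; ring
      rw [mul_pow, div_pow, h5]
      have hzm : z ^ m ≠ 0 := by positivity
      field_simp
    have h4 : z ^ (3 * m) ≤ 1 := pow_le_one₀ hz0.le h.le
    calc _ ≤ (E * (Real.pi * A ^ 2 * z ^ 2) ^ (2 * m)) * (K / z) ^ m :=
          mul_le_mul h1 (hprod.trans h2) hprod0 (by positivity)
      _ = E * ((Real.pi * A ^ 2) ^ (2 * m) * K ^ m * z ^ (3 * m)) := by rw [mul_assoc, h3]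
      _ ≤ E * ((Real.pi * A ^ 2) ^ (2 * m) * K ^ m * 1) := by gcongr
      _ ≤ (1 + (Real.pi * A ^ 2) ^ (2 * m)) * K ^ m * E := by
          have : 0 ≤ K ^ m * E := by positivity
          nlinarith

end Pool.H19.Fc
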