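import Pool.Agent.H19.Fc.Planch
import Pool.Agent.H19.Fc.AvgF
import Pool.Agent.H19.Fc.RhoBd

/-!
# Module AVGH: the averaged mean square of H

For every `lam` apply `planch` (`s = bx N`, `v = vv β lam`, `q = m`, `b0 = 1/(A D_0)^2`). Then Tonelli (`lintegral_lintegral_swap`; the
integrand `(lam, t) ↦ ofReal (rho t ^2 * ‖Fs (bx N) (vv β lam) t‖^2)` is continuous in both variables):
`∫⁻_t ofReal (rho^2) ∫⁻_lam ofReal ‖Fs‖^2`. For `t ≠ 0` (almost every `t`) use `avg_F` and `rho_bd`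
(`∏ (N (3+..)) = ∏ N * ∏ (3+..)`, `Finset.prod_mul_distrib`): the integrand is at most
`ofReal (C0 ∏_i N i.succ * exp(-(π t^2/b)) ‖B_0(t)‖^2)`, and `exp(-(π t^2/b)) = √b w b t`; by `L2_le` (`Pool.H48.Wt`)
`∫ w b t ‖B_0‖^2 ≤ N_0 (3 + 4/(√b D_0)) ≤ 7 N_0`. So `C = 7 C0`, `Fin.prod_univ_succ`.
-/

set_option autoImplicit false

namespace Pool.H19.Fc

open MeasureTheory Set Pool.H19.Wa Pool.H48.Wt

theorem avg_H (m : ℕ) (A c0 : ℝ) (hA : 1 ≤ A) (hc0 : 0 < c0) :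
    ∃ C : ℝ, 0 < C ∧ ∀ (N : Fin (m + 1) → ℕ) (β : Fin (m + 1) → ℕ → ℝ) (D : Fin (m + 1) → ℝ) (b X : ℝ),
      (∀ i, 0 < D i) → (∀ i, Cells (N i) (β i) (D i)) → (∀ i : Fin m, c0 * D 0 ≤ D i.succ) → 0 < b → 0 < X →
      1 ≤ Real.sqrt b * D 0 →
      ∫⁻ lam, (∫⁻ τ : ℝ, ENNReal.ofReal (Hs m b (1 / (A * D 0) ^ 2) (bx N) (vv β lam) τ ^ 2 *
          Real.exp (-(Real.pi * τ ^ 2 / X ^ 2)))) ∂Gam m ≤
        ENNReal.ofReal (C * Real.sqrt b * ∏ i : Fin (m + 1), (N i : ℝ)) := by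
  obtain ⟨C0, hC0, hρ⟩ := rho_bd m A c0 hA hc0
  refine ⟨7 * C0, by positivity, ?_⟩
  intro N β D b X hD hβ hDD hb hX hbD
  have hsf : SigmaFinite gam := by
    unfold gam
    exact SigmaFinite.withDensity_ofReal (fun x => Real.exp (-(Real.pi * x ^ 2)))
  have hsG : SFinite (Gam m) := by
    unfold Gam
    infer_instance
  have hA0 : 0 < A := by linarith
  have hb0 : 0 < 1 / (A * D 0) ^ 2 := by
    have := hD 0
    positivity
  set b0 : ℝ := 1 / (A * D 0) ^ 2 with hb0def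
  -- measurability
  have hcont : Continuous (fun p : (Fin m → ℝ) × ℝ =>
      rho m b b0 p.2 ^ 2 * ‖Fs (bx N) (vv β p.1) p.2‖ ^ 2) := by
    refine (((continuous_rho m b b0).comp continuous_snd).pow 2).mul (Continuous.pow ?_ 2)
    refine Continuous.norm ?_
    unfold Fs
    refine continuous_finsetSum _ fun n _ => ?_
    refine continuous_e.comp (continuous_snd.mul ?_)
    unfold vv
    fun_prop
  have hmeas : AEMeasurable (Function.uncurry fun (lam : Fin m → ℝ) (t : ℝ) =>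
      ENNReal.ofReal (rho m b b0 t ^ 2 * ‖Fs (bx N) (vv β lam) t‖ ^ 2))
      ((Gam m).prod volume) :=
    (ENNReal.measurable_ofReal.comp hcont.measurable).aemeasurable
  set PN : ℝ := ∏ i : Fin m, (N i.succ : ℝ) with hPN
  have hPN0 : 0 ≤ PN := Finset.prod_nonneg fun i _ => Nat.cast_nonneg _
  have hint := (integrable_w_Bh (N 0) (β 0) hb).const_mul (C0 * PN * Real.sqrt b)
  calc ∫⁻ lam, (∫⁻ τ : ℝ, ENNReal.ofReal (Hs m b b0 (bx N) (vv β lam) τ ^ 2 *
          Real.exp (-(Real.pi * τ ^ 2 / X ^ 2)))) ∂Gam m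
      ≤ ∫⁻ lam, (∫⁻ t : ℝ, ENNReal.ofReal (rho m b b0 t ^ 2 *
          ‖Fs (bx N) (vv β lam) t‖ ^ 2)) ∂Gam m :=
        lintegral_mono fun lam => planch (bx N) (vv β lam) m hb hb0 hX
    _ = ∫⁻ t : ℝ, (∫⁻ lam, ENNReal.ofReal (rho m b b0 t ^ 2 *
          ‖Fs (bx N) (vv β lam) t‖ ^ 2) ∂Gam m) := lintegral_lintegral_swap hmeas
    _ ≤ ∫⁻ t : ℝ, ENNReal.ofReal ((C0 * PN * Real.sqrt b) *
          (w b t * ‖Bh (N 0) (β 0) t‖ ^ 2)) := by
        refine lintegral_mono_ae ?_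
        have hne : ∀ᵐ t : ℝ, t ≠ 0 := by
          rw [ae_iff]
          simp
        filter_upwards [hne] with t ht
        have e1 : ∀ lam : Fin m → ℝ, ENNReal.ofReal (rho m b b0 t ^ 2 *
            ‖Fs (bx N) (vv β lam) t‖ ^ 2) = ENNReal.ofReal (rho m b b0 t ^ 2) *
            ENNReal.ofReal (‖Fs (bx N) (vv β lam) t‖ ^ 2) := fun lam =>
          ENNReal.ofReal_mul (by positivity)
        rw [lintegral_congr e1, lintegral_const_mul' _ _ ENNReal.ofReal_ne_top]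
        refine (mul_le_mul_right (avg_F N β D hD hβ t ht) _).trans ?_
        rw [← ENNReal.ofReal_mul (by positivity)]
        refine ENNReal.ofReal_le_ofReal ?_
        have h1 := hρ b (D 0) (fun i => D i.succ) hb (hD 0) hDD t ht
        rw [← hb0def] at h1
        rw [Finset.prod_mul_distrib, ← hPN]
        have h2 : rho m b b0 t ^ 2 * (‖Bh (N 0) (β 0) t‖ ^ 2 *
            (PN * ∏ i : Fin m, (3 + 4 / (|t| * D i.succ)))) =
            (rho m b b0 t ^ 2 * ∏ i : Fin m, (3 + 4 / (|t| * D i.succ))) *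
              (PN * ‖Bh (N 0) (β 0) t‖ ^ 2) := by ring
        rw [h2]
        refine (mul_le_mul_of_nonneg_right h1 (by positivity)).trans (le_of_eq ?_)
        have h3 : Real.sqrt b ≠ 0 := (Real.sqrt_pos.mpr hb).ne'
        unfold w
        field_simp
    _ = ENNReal.ofReal (∫ t : ℝ, (C0 * PN * Real.sqrt b) *
          (w b t * ‖Bh (N 0) (β 0) t‖ ^ 2)) := by
        rw [ofReal_integral_eq_lintegral_ofReal hint]
        refine Filter.Eventually.of_forall fun t => ?_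
        have := w_nonneg b t
        show 0 ≤ (C0 * PN * Real.sqrt b) * (w b t * ‖Bh (N 0) (β 0) t‖ ^ 2)
        positivity
    _ ≤ ENNReal.ofReal (7 * C0 * Real.sqrt b * ∏ i : Fin (m + 1), (N i : ℝ)) := by
        refine ENNReal.ofReal_le_ofReal ?_
        rw [integral_const_mul, Fin.prod_univ_succ, ← hPN]
        have h1 := L2_le (N 0) (β 0) (D 0) (hD 0) (hβ 0) hb
        have h2 : (3 : ℝ) + 4 / (Real.sqrt b * D 0) ≤ 7 := by
          have h3 : 4 / (Real.sqrt b * D 0) ≤ 4 := by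
            rw [div_le_iff₀ (by linarith)]
            linarith
          linarith
        have h3 : ((N 0 : ℕ) : ℝ) * (3 + 4 / (Real.sqrt b * D 0)) ≤ (N 0 : ℝ) * 7 :=
          mul_le_mul_of_nonneg_left h2 (Nat.cast_nonneg _)
        calc (C0 * PN * Real.sqrt b) * ∫ t : ℝ, w b t * ‖Bh (N 0) (β 0) t‖ ^ 2
            ≤ (C0 * PN * Real.sqrt b) * ((N 0 : ℝ) * 7) :=
              mul_le_mul_of_nonneg_left (h1.trans h3) (by positivity)
          _ = 7 * C0 * Real.sqrt b * ((N 0 : ℝ) * PN) := by ring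

end Pool.H19.Fc
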