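import Pool.Agent.H19.Fc.Defs

/-!
# Module MEAS: measurability of missed sets

Countable intersection over `x` of closed conditions `r ≤ |f x p.1 - p.2|` (`measurableSet_le`, `Measurable.abs`). `meas_vol`:
`measurable_measure_prodMk_left`. `continuous_val`: `val k u x` is continuous in `lam`. The index type of `val` is countable.
`Dp_mono`: the missed set of `f` is contained in that of `f'`.
-/

set_option autoImplicit false

namespace Pool.H19.Fc

open MeasureTheory Set Pool.H19.Wa Pool.H48.Wt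

theorem meas_Mi {ι : Type*} [Countable ι] {n : ℕ} (f : ι → (Fin n → ℝ) → ℝ) (hf : ∀ x, Measurable (f x))
    (r : ℝ) : MeasurableSet {p : (Fin n → ℝ) × ℝ | p.2 ∈ Mi (fun x => f x p.1) r} := by
  have h : {p : (Fin n → ℝ) × ℝ | p.2 ∈ Mi (fun x => f x p.1) r}
      = ⋂ x, {p : (Fin n → ℝ) × ℝ | r ≤ |f x p.1 - p.2|} := by
    ext p; simp [Mi]
  rw [h]
  refine MeasurableSet.iInter fun x => measurableSet_le measurable_const ?_
  exact (((hf x).comp measurable_fst).sub measurable_snd).abs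

theorem meas_sec {ι : Type*} [Countable ι] (g : ι → ℝ) (r : ℝ) : MeasurableSet (Mi g r) := by
  have h : Mi g r = ⋂ x, {τ : ℝ | r ≤ |g x - τ|} := by
    ext p; simp [Mi]
  rw [h]
  exact MeasurableSet.iInter fun x => measurableSet_le measurable_const
    ((measurable_const.sub measurable_id).abs)

theorem meas_vol {ι : Type*} [Countable ι] {n : ℕ} (f : ι → (Fin n → ℝ) → ℝ) (hf : ∀ x, Measurable (f x))
    (r : ℝ) {I : Set ℝ} (hI : MeasurableSet I) :
    Measurable (fun lam : Fin n → ℝ => volume (Mi (fun x => f x lam) r ∩ I)) := by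
  have h := (meas_Mi f hf r).inter (measurable_snd hI)
  have h2 := measurable_measure_prodMk_left (ν := (volume : Measure ℝ)) h
  exact h2

/-- one new coefficient, the others fixed -/
theorem meas_vol_one {ι : Type*} [Countable ι] (k : ℕ) (g : ι → ℝ) (r : ℝ) {I : Set ℝ} (hI : MeasurableSet I) :
    Measurable (fun μ : ℝ => volume (Mi (fun p : ℕ × ι => μ * (p.1 : ℝ) ^ k + g p.2) r ∩ I)) := by
  have h0 : MeasurableSet {p : ℝ × ℝ | p.2 ∈ Mi (fun q : ℕ × ι => p.1 * (q.1 : ℝ) ^ k + g q.2) r} := by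
    have h : {p : ℝ × ℝ | p.2 ∈ Mi (fun q : ℕ × ι => p.1 * (q.1 : ℝ) ^ k + g q.2) r}
        = ⋂ q : ℕ × ι, {p : ℝ × ℝ | r ≤ |p.1 * (q.1 : ℝ) ^ k + g q.2 - p.2|} := by
      ext p; simp [Mi]
    rw [h]
    refine MeasurableSet.iInter fun q => measurableSet_le measurable_const ?_
    exact (((measurable_fst.mul_const _).add_const _).sub measurable_snd).abs
  have h := h0.inter (measurable_snd hI)
  exact measurable_measure_prodMk_left (ν := (volume : Measure ℝ)) h

theorem measurable_val (k : ℕ) {m : ℕ} (u : Fin (m + 1) → ℕ) (x : (i : Fin (m + 1)) → Fin (u i) → ℕ) :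
    Measurable (val k u x) := by
  unfold val
  refine measurable_const.add ?_
  refine Finset.measurable_fun_sum _ fun i _ => ?_
  exact (measurable_pi_apply i).mul_const _

theorem Dp_mono {ι ι' : Type*} {n : ℕ} (f : ι → (Fin n → ℝ) → ℝ) (f' : ι' → (Fin n → ℝ) → ℝ)
    (h : ∀ lam x', ∃ x, f x lam = f' x' lam) {L η c β : ℝ} {s : ℕ} (hd : Dp n f' L η c s β) :
    Dp n f L η c s β := by
  unfold Dp at hd ⊢
  filter_upwards [hd] with lam hlam
  obtain ⟨C, hC⟩ := hlam
  refine ⟨C, fun j => (measure_mono ?_).trans (hC j)⟩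
  refine inter_subset_inter_left _ ?_
  intro τ hτ x'
  obtain ⟨x, hx⟩ := h lam x'
  have h1 : η * 2 ^ (-(c * (j : ℝ))) ≤ |f x lam - τ| := hτ x
  rw [hx] at h1
  exact h1

end Pool.H19.Fc
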