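import Pool.Agent.H19.Fc.BaseInt
import Pool.Agent.H19.Fc.Meas
import Pool.Agent.H19.Wb.Abs

/-!
# Module BASEDP: the base property

`Pool.H19.Wb.ae_bound` for the measure `volume.restrict (Bx m L)` and
`A j lam = volume (Mi (fun x => val k u x lam) (η 2^(-cj)) ∩ Icc (2^j/2^s) (2^j))` (measurable by `meas_vol`, `measurable_val`; finite),
`θ = 1 - d + ε`, `θ' = 1 - β`, `d = m - c - ∑ θ_i`, `ε = (d - β)/2`, with `base_int`.
-/

set_option autoImplicit false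

namespace Pool.H19.Fc

open MeasureTheory Set Pool.H19.Wa Pool.H48.Wt

theorem base_Dp (k m s : ℕ) (hk : 2 ≤ k) (hm : 1 ≤ m) (u : Fin (m + 1) → ℕ) (hu : ∀ i, 1 ≤ u i)
    (hu0 : ∀ i, u i ≤ u 0) (L η c β : ℝ) (hL : 1 ≤ L) (hη : 0 < η) (hc : 0 ≤ c)
    (hβ : β < (m : ℝ) - c - ∑ i, (1 - 1 / (k : ℝ)) ^ (u i)) :
    Dp m (val k u) L η c s β := by
  obtain ⟨C, j0, hint⟩ := base_int k m s hk hm u hu hu0 L η c
    ((((m : ℝ) - c - ∑ i, (1 - 1 / (k : ℝ)) ^ (u i)) - β) / 2) hL hη hc (by linarith)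
  have h := Pool.H19.Wb.ae_bound ((volume : Measure (Fin m → ℝ)).restrict (Bx m L))
    (fun (j : ℕ) (lam : Fin m → ℝ) =>
      volume (Mi (fun x => val k u x lam) (η * (2 : ℝ) ^ (-(c * j))) ∩
        Icc ((2 : ℝ) ^ j / 2 ^ s) ((2 : ℝ) ^ j)))
    (fun j => meas_vol _ (measurable_val k u) _ measurableSet_Icc) C _ (1 - β) j0
    (fun j hj => hint j hj) (by linarith)
    (fun j lam => lt_of_le_of_lt (measure_mono inter_subset_right)
      (by rw [Real.volume_Icc]; exact ENNReal.ofReal_lt_top))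
  unfold Dp
  filter_upwards [h] with lam hlam
  obtain ⟨C', _, hC'⟩ := hlam
  exact ⟨C', hC'⟩

end Pool.H19.Fc
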