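import Pool.Agent.H19.Fc.Defs

/-!
# Module PTS: the well spaced points at scale 2^j

Let `θ_i = (1-1/k)^(u i) ∈ (0,1)` (`k ≥ 2`, `u i ≥ 1`). `Pool.H48.Wt.greedy k (u i)` gives `K` with gaps `≤ K (1+t)^(θ_i)` in
`Pw k (u i)`; `Pool.H48.Wt.points (Pw k (u i)) 1 K θ_i θ_i κ_i` (`k := 1`, `x := δ := θ_i`, `P := 2^j`) gives `K' ≥ 1` and for
each `j` points with `β n ∈ Pw k (u i)` and the cell property as long as `(n+1) D ≤ κ_i 2^j`, `D = K' 2^(jθ_i)`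
(`((2^j : ℕ) : ℝ)^θ = 2^(jθ)`). Put `κ_0 = 2`, `κ_i = κ = 1/(2^(s+1) m L)` for `i ≥ 1`, `N_i = ⌊κ_i 2^j/D_i⌋`. Then
`(n+1) D_i ≤ N_i D_i ≤ κ_i 2^j` for `n < N_i`, and `N_i D_i ≥ κ_i 2^j - D_i ≥ (κ_i/2) 2^j`, resp. `≥ (3/2) 2^j` for `i = 0`, and `N_i > 0`,
once `D_i ≤ (κ_i/4) 2^j`, which holds for large `j` because `θ_i < 1`.
-/

set_option autoImplicit false

namespace Pool.H19.Fc

open MeasureTheory Set Filter Topology Pool.H19.Wa Pool.H48.Wt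

theorem theta_bd (k u : ℕ) (hk : 2 ≤ k) (hu : 1 ≤ u) :
    0 < (1 - 1 / (k : ℝ)) ^ u ∧ (1 - 1 / (k : ℝ)) ^ u < 1 := by
  have hk0 : (0 : ℝ) < k := by exact_mod_cast (by omega : 0 < k)
  have hk2 : (2 : ℝ) ≤ k := by exact_mod_cast hk
  have h1 : 1 / (k : ℝ) ≤ 1 / 2 := one_div_le_one_div_of_le (by norm_num) hk2
  have h2 : 0 < 1 / (k : ℝ) := by positivity
  exact ⟨pow_pos (by linarith) u, pow_lt_one₀ (by linarith) (by linarith) (by omega)⟩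

theorem pts_event (θ a : ℝ) (hθ : θ < 1) : ∃ j0 : ℕ, ∀ j : ℕ, j0 ≤ j →
    a * (2 : ℝ) ^ ((j : ℝ) * θ) ≤ (2 : ℝ) ^ j := by
  have h1 : Tendsto (fun j : ℕ => ((2 : ℝ) ^ (1 - θ)) ^ j) atTop atTop :=
    tendsto_pow_atTop_atTop_of_one_lt (Real.one_lt_rpow (by norm_num) (by linarith))
  obtain ⟨j0, hj0⟩ := eventually_atTop.mp (h1.eventually_ge_atTop a)
  refine ⟨j0, fun j hj => ?_⟩
  have h2 := hj0 j hj
  have h3 : (0 : ℝ) < (2 : ℝ) ^ ((j : ℝ) * θ) := by positivity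
  calc a * (2 : ℝ) ^ ((j : ℝ) * θ) ≤ ((2 : ℝ) ^ (1 - θ)) ^ j * (2 : ℝ) ^ ((j : ℝ) * θ) :=
        mul_le_mul_of_nonneg_right h2 h3.le
    _ = (2 : ℝ) ^ j := by
        rw [← Real.rpow_natCast ((2 : ℝ) ^ (1 - θ)), ← Real.rpow_mul (by norm_num),
          ← Real.rpow_add (by norm_num), ← Real.rpow_natCast 2 j]
        congr 1
        ring

/-- one group -/
theorem pts_one (k u : ℕ) (hk : 2 ≤ k) (hu : 1 ≤ u) (κ : ℝ) (hκ : 0 < κ) :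
    ∃ K : ℝ, 1 ≤ K ∧ ∃ j0 : ℕ, ∀ j : ℕ, j0 ≤ j → ∃ (N : ℕ) (β : ℕ → ℝ),
      Cells N β (K * (2 : ℝ) ^ ((j : ℝ) * (1 - 1 / (k : ℝ)) ^ u)) ∧ (∀ n < N, β n ∈ Pw k u) ∧ 0 < N ∧
      3 / 4 * κ * (2 : ℝ) ^ j ≤ N * (K * (2 : ℝ) ^ ((j : ℝ) * (1 - 1 / (k : ℝ)) ^ u)) ∧
      N * (K * (2 : ℝ) ^ ((j : ℝ) * (1 - 1 / (k : ℝ)) ^ u)) ≤ κ * (2 : ℝ) ^ j := by
  obtain ⟨hθ0, hθ1⟩ := theta_bd k u hk hu
  set θ : ℝ := (1 - 1 / (k : ℝ)) ^ u with hθ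
  obtain ⟨K1, hK1, hg⟩ := greedy k u (by omega)
  obtain ⟨K, hK, hp⟩ := points (Pw k u) 1 K1 θ θ κ hK1 hθ0.le (by push_cast; linarith) hκ hg
  have hK0 : 0 < K := by linarith
  obtain ⟨j0, hj0⟩ := pts_event θ (4 * K / κ) hθ1
  refine ⟨K, hK, j0, fun j hj => ?_⟩
  obtain ⟨β, hβ⟩ := hp (2 ^ j) Nat.one_le_two_pow
  have hcast : (((2 ^ j : ℕ) : ℝ)) ^ θ = (2 : ℝ) ^ ((j : ℝ) * θ) := by
    push_cast
    rw [← Real.rpow_natCast 2 j, ← Real.rpow_mul (by norm_num)]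
  have hcast1 : (((2 ^ j : ℕ) : ℝ)) ^ 1 = (2 : ℝ) ^ j := by
    push_cast
    ring
  rw [hcast, hcast1] at hβ
  set X : ℝ := (2 : ℝ) ^ j with hX
  have hX0 : 0 < X := by positivity
  set D : ℝ := K * (2 : ℝ) ^ ((j : ℝ) * θ) with hD
  have hD0 : 0 < D := by positivity
  have hDX : D ≤ κ / 4 * X := by
    have h1 := hj0 j hj
    have h2 : 4 * K / κ * (2 : ℝ) ^ ((j : ℝ) * θ) = 4 / κ * D := by
      rw [hD]
      ring
    rw [h2] at h1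
    have h3 : κ / 4 * (4 / κ * D) = D := by field_simp
    rw [← h3]
    exact mul_le_mul_of_nonneg_left h1 (by positivity)
  set N : ℕ := ⌊κ * X / D⌋₊ with hN
  have hN1 : (N : ℝ) * D ≤ κ * X := by
    have := Nat.floor_le (by positivity : 0 ≤ κ * X / D)
    rw [← hN, le_div_iff₀ hD0] at this
    exact this
  have hN2 : κ * X < ((N : ℝ) + 1) * D := by
    have := Nat.lt_floor_add_one (κ * X / D)
    rw [← hN, div_lt_iff₀ hD0] at this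
    exact this
  have hcond : ∀ n < N, ((n : ℝ) + 1) * D ≤ κ * X := by
    intro n hn
    have h1 : ((n : ℝ) + 1) ≤ N := by exact_mod_cast hn
    exact (mul_le_mul_of_nonneg_right h1 hD0.le).trans hN1
  have hN3 : 3 / 4 * κ * X ≤ N * D := by nlinarith
  refine ⟨N, β, fun n hn => (hβ n (hcond n hn)).2, fun n hn => (hβ n (hcond n hn)).1, ?_, hN3, hN1⟩
  by_contra hcon
  have h0 : N = 0 := by omega
  rw [h0] at hN3
  push_cast at hN3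
  have : 0 < 3 / 4 * κ * X := by positivity
  linarith

theorem pts (k m s : ℕ) (hk : 2 ≤ k) (hm : 1 ≤ m) (u : Fin (m + 1) → ℕ) (hu : ∀ i, 1 ≤ u i) (L : ℝ)
    (hL : 1 ≤ L) :
    ∃ K : Fin (m + 1) → ℝ, (∀ i, 1 ≤ K i) ∧ ∃ j0 : ℕ, ∀ j : ℕ, j0 ≤ j →
      ∃ (N : Fin (m + 1) → ℕ) (β : Fin (m + 1) → ℕ → ℝ),
        (∀ i, Cells (N i) (β i) (K i * (2 : ℝ) ^ ((j : ℝ) * (1 - 1 / (k : ℝ)) ^ (u i)))) ∧
        (∀ i, ∀ n < N i, β i n ∈ Pw k (u i)) ∧ (∀ i, 0 < N i) ∧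
        3 / 2 * (2 : ℝ) ^ j ≤ N 0 * (K 0 * (2 : ℝ) ^ ((j : ℝ) * (1 - 1 / (k : ℝ)) ^ (u 0))) ∧
        N 0 * (K 0 * (2 : ℝ) ^ ((j : ℝ) * (1 - 1 / (k : ℝ)) ^ (u 0))) ≤ 2 * (2 : ℝ) ^ j ∧
        (∀ i : Fin m,
          1 / (2 ^ (s + 1) * (m : ℝ) * L) / 2 * (2 : ℝ) ^ j ≤
            N i.succ * (K i.succ * (2 : ℝ) ^ ((j : ℝ) * (1 - 1 / (k : ℝ)) ^ (u i.succ))) ∧
          N i.succ * (K i.succ * (2 : ℝ) ^ ((j : ℝ) * (1 - 1 / (k : ℝ)) ^ (u i.succ))) ≤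
            1 / (2 ^ (s + 1) * (m : ℝ) * L) * (2 : ℝ) ^ j) := by
  have hm0 : (0 : ℝ) < m := by exact_mod_cast (by omega : 0 < m)
  have hL0 : 0 < L := by linarith
  set κ : ℝ := 1 / (2 ^ (s + 1) * (m : ℝ) * L) with hκ
  have hκ0 : 0 < κ := by positivity
  set κ' : Fin (m + 1) → ℝ := Fin.cons 2 (fun _ => κ) with hκ'
  have hκ'0 : κ' 0 = 2 := rfl
  have hκ's : ∀ i : Fin m, κ' i.succ = κ := fun i => rfl
  have hκ'pos : ∀ i, 0 < κ' i := by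
    intro i
    refine Fin.cases ?_ (fun i => ?_) i
    · rw [hκ'0]; norm_num
    · rw [hκ's]; exact hκ0
  have hone := fun i => pts_one k (u i) hk (hu i) (κ' i) (hκ'pos i)
  choose K hK j0 hj0 using hone
  refine ⟨K, hK, Finset.univ.sup j0, fun j hj => ?_⟩
  have hji : ∀ i, j0 i ≤ j := fun i => (Finset.le_sup (Finset.mem_univ i)).trans hj
  choose N β h1 h2 h3 h4 h5 using fun i => hj0 i j (hji i)
  refine ⟨N, β, h1, h2, h3, ?_, ?_, fun i => ⟨?_, ?_⟩⟩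
  · have := h4 0
    rw [hκ'0] at this
    linarith
  · have := h5 0
    rw [hκ'0] at this
    exact this
  · have := h4 i.succ
    rw [hκ's] at this
    have h6 : 0 < κ * (2 : ℝ) ^ j := by positivity
    nlinarith
  · have := h5 i.succ
    rw [hκ's] at this
    exact this

end Pool.H19.Fc
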