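import Pool.Agent.H19.Fc.Scale
import Pool.Agent.H19.Fc.Pts

/-!
# Module BASEINT: the mean measure of the missed set for the base family

`K, j0` from `pts`, `D_i = K i 2^(jθ_i)`, `c0 = 1/K 0` (`D_i ≥ 2^(jθ_i) ≥ 2^(jθ_0) = D_0/K 0` since `u i ≤ u 0` gives
`θ_i ≥ θ_0`), `C, R` from `scale m hm L c0`. For `j` large apply `scale` with `X = 2^j`, `Y = 2^j/2^s`, `b = 2^(2j(c+ε))` (so `√b = 2^(j(c+ε))`,
`b ≥ 1`), `r = η 2^(-cj)` (so `b r^2 = η^2 2^(2jε)`). Conditions: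
* window: for `lam ∈ Bx`, `n ∈ bx N`: `0 ≤ β_i(n_i) ≤ N_i D_i ≤ κ 2^j`, so `0 ≤ ∑ lam_i β_i ≤ m L κ 2^j = 2^j/2^(s+1)`, hence
  `2^j/2^(s+1) ≤ τ - ∑ ≤ 2^j`; and `R D_0 ≤ 2^j/2^(s+1)`, `2^j ≤ (3/2) 2^j - R D_0 ≤ N_0 D_0 - R D_0` for `j` large (`θ_0 < 1`).
* smallness: `√b N_0 exp(-π b r^2) ≤ 1/(4 D_0)`: `4 √b N_0 D_0 ≤ 8 2^(j(c+ε)) 2^j` and `exp(-π η^2 2^(2jε))` is smaller for `j` large.
The missed set of `val` is contained in the missed set of the `vv` (`β i n ∈ Pw k (u i)`: choose the `x i`), by `lintegral_mono`.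
Bound: `C √b N_0 D_0^2/∏ N_i = C √b (N_0 D_0) D_0 ∏ D_i/∏ (N_i D_i) ≤ C 2^(j(c+ε)) 2 2^j ∏_(all i) K_i 2^(jθ_i)/((κ/2) 2^j)^m`
`= C' 2^(j(1 - (m - c - ∑ θ_i) + ε))`.
-/

set_option autoImplicit false

namespace Pool.H19.Fc

open MeasureTheory Set Filter Topology Pool.H19.Wa Pool.H48.Wt

theorem bi_event1 (θ a : ℝ) (hθ : θ < 1) : ∃ j0 : ℕ, ∀ j : ℕ, j0 ≤ j →
    a * (2 : ℝ) ^ ((j : ℝ) * θ) ≤ (2 : ℝ) ^ j := by
  have h1 : Tendsto (fun j : ℕ => ((2 : ℝ) ^ (1 - θ)) ^ j) atTop atTop :=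
    tendsto_pow_atTop_atTop_of_one_lt (Real.one_lt_rpow (by norm_num) (by linarith))
  obtain ⟨j0, hj0⟩ := eventually_atTop.mp (h1.eventually_ge_atTop a)
  refine ⟨j0, fun j hj => ?_⟩
  have h2 := hj0 j hj
  have h3 : (0 : ℝ) < (2 : ℝ) ^ ((j : ℝ) * θ) := by positivity
  calc a * (2 : ℝ) ^ ((j : ℝ) * θ) ≤ ((2 : ℝ) ^ (1 - θ)) ^ j * (2 : ℝ) ^ ((j : ℝ) * θ) :=
        mul_le_mul_of_nonneg_right h2 h3.le
    _ = (2 : ℝ) ^ j := by
        rw [← Real.rpow_natCast ((2 : ℝ) ^ (1 - θ)), ← Real.rpow_mul (by norm_num),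
          ← Real.rpow_add (by norm_num), ← Real.rpow_natCast 2 j]
        congr 1
        ring

theorem bi_event2 (η c ε : ℝ) (hη : 0 < η) (hε : 0 < ε) : ∃ j0 : ℕ, ∀ j : ℕ, j0 ≤ j →
    8 * (2 : ℝ) ^ ((j : ℝ) * (c + ε)) * (2 : ℝ) ^ j * Real.exp (-(Real.pi * η ^ 2 * (2 : ℝ) ^ (2 * (j : ℝ) * ε))) ≤ 1 := by
  have h1 : Tendsto (fun j : ℕ => (2 : ℝ) ^ (2 * (j : ℝ) * ε)) atTop atTop := by
    have h2 : ∀ j : ℕ, (2 : ℝ) ^ (2 * (j : ℝ) * ε) = ((2 : ℝ) ^ (2 * ε)) ^ j := by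
      intro j
      rw [← Real.rpow_natCast ((2 : ℝ) ^ (2 * ε)), ← Real.rpow_mul (by norm_num)]
      congr 1
      ring
    simp_rw [h2]
    exact tendsto_pow_atTop_atTop_of_one_lt (Real.one_lt_rpow (by norm_num) (by positivity))
  have h3 := (tendsto_rpow_mul_exp_neg_mul_atTop_nhds_zero ((1 + c + ε) / (2 * ε)) (Real.pi * η ^ 2)
    (by positivity)).comp h1
  obtain ⟨j0, hj0⟩ := eventually_atTop.mp (h3.eventually (ge_mem_nhds (by norm_num : (0 : ℝ) < 1 / 8)))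
  refine ⟨j0, fun j hj => ?_⟩
  have h4 := hj0 j hj
  simp only [Function.comp_apply] at h4
  have h5 : ((2 : ℝ) ^ (2 * (j : ℝ) * ε)) ^ ((1 + c + ε) / (2 * ε)) =
      (2 : ℝ) ^ ((j : ℝ) * (c + ε)) * (2 : ℝ) ^ j := by
    rw [← Real.rpow_mul (by norm_num), ← Real.rpow_natCast 2 j, ← Real.rpow_add (by norm_num)]
    congr 1
    field_simp
    ring
  rw [h5] at h4
  have h6 : -(Real.pi * η ^ 2) * (2 : ℝ) ^ (2 * (j : ℝ) * ε) =
      -(Real.pi * η ^ 2 * (2 : ℝ) ^ (2 * (j : ℝ) * ε)) := by ring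
  rw [h6] at h4
  calc 8 * (2 : ℝ) ^ ((j : ℝ) * (c + ε)) * (2 : ℝ) ^ j * Real.exp (-(Real.pi * η ^ 2 * (2 : ℝ) ^ (2 * (j : ℝ) * ε)))
      = 8 * ((2 : ℝ) ^ ((j : ℝ) * (c + ε)) * (2 : ℝ) ^ j *
          Real.exp (-(Real.pi * η ^ 2 * (2 : ℝ) ^ (2 * (j : ℝ) * ε)))) := by ring
    _ ≤ 8 * (1 / 8) := mul_le_mul_of_nonneg_left h4 (by norm_num)
    _ = 1 := by norm_num

/-- the shift by the coefficient groups -/
theorem bi_shift {m : ℕ} (hm : 1 ≤ m) (s : ℕ) (L X : ℝ) (hL : 1 ≤ L) (hX : 0 < X)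
    (N : Fin (m + 1) → ℕ) (β : Fin (m + 1) → ℕ → ℝ) (D : Fin (m + 1) → ℝ) (hD : ∀ i, 0 < D i)
    (hβ : ∀ i, Cells (N i) (β i) (D i))
    (hN : ∀ i : Fin m, N i.succ * D i.succ ≤ 1 / (2 ^ (s + 1) * (m : ℝ) * L) * X)
    (lam : Fin m → ℝ) (hlam : lam ∈ Bx m L) (n : Fin (m + 1) → ℕ) (hn : n ∈ bx N) :
    0 ≤ ∑ i : Fin m, lam i * β i.succ (n i.succ) ∧
      ∑ i : Fin m, lam i * β i.succ (n i.succ) ≤ X / 2 ^ (s + 1) := by
  have hm0 : (0 : ℝ) < m := by exact_mod_cast (by omega : 0 < m)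
  have hL0 : 0 < L := by linarith
  have hn' : ∀ i, n i < N i := by
    intro i
    have := (Fintype.mem_piFinset.mp hn) i
    simpa using this
  have hb : ∀ i : Fin m, 0 ≤ β i.succ (n i.succ) ∧
      β i.succ (n i.succ) ≤ 1 / (2 ^ (s + 1) * (m : ℝ) * L) * X := by
    intro i
    obtain ⟨h1, h2⟩ := hβ i.succ (n i.succ) (hn' i.succ)
    have h3 : 0 ≤ (n i.succ : ℝ) * D i.succ := mul_nonneg (Nat.cast_nonneg _) (hD _).le
    have h4 : ((n i.succ : ℝ) + 1) ≤ N i.succ := by exact_mod_cast hn' i.succ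
    have h5 : ((n i.succ : ℝ) + 1) * D i.succ ≤ N i.succ * D i.succ :=
      mul_le_mul_of_nonneg_right h4 (hD _).le
    exact ⟨by linarith, by linarith [hN i]⟩
  have hl : ∀ i : Fin m, 0 ≤ lam i ∧ lam i ≤ L := by
    intro i
    have h1 := hlam i (mem_univ i)
    exact ⟨le_trans (by positivity) h1.1, h1.2⟩
  constructor
  · exact Finset.sum_nonneg fun i _ => mul_nonneg (hl i).1 (hb i).1
  · calc ∑ i : Fin m, lam i * β i.succ (n i.succ)
        ≤ ∑ _i : Fin m, L * (1 / (2 ^ (s + 1) * (m : ℝ) * L) * X) :=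
          Finset.sum_le_sum fun i _ => mul_le_mul (hl i).2 (hb i).2 (hb i).1 hL0.le
      _ = X / 2 ^ (s + 1) := by
          rw [Finset.sum_const, Finset.card_univ, Fintype.card_fin, nsmul_eq_mul]
          field_simp

/-- the missed set of the family is contained in the missed set of the points -/
theorem bi_sub (k : ℕ) {m : ℕ} (u : Fin (m + 1) → ℕ) (N : Fin (m + 1) → ℕ)
    (β : Fin (m + 1) → ℕ → ℝ) (hP : ∀ i, ∀ n < N i, β i n ∈ Pw k (u i)) (lam : Fin m → ℝ) (r : ℝ) :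
    Mi (fun x => val k u x lam) r ⊆ {τ : ℝ | ∀ n ∈ bx N, r ≤ |vv β lam n - τ|} := by
  intro τ hτ n hn
  have hn' : ∀ i, n i < N i := by
    intro i
    have := (Fintype.mem_piFinset.mp hn) i
    simpa using this
  have hx : ∀ i, ∃ y : Fin (u i) → ℕ, β i (n i) = ∑ j, (y j : ℝ) ^ k := fun i => hP i (n i) (hn' i)
  choose x hx using hx
  have h1 := hτ x
  have h2 : val k u x lam = vv β lam n := by
    unfold val vv
    rw [hx 0]
    congr 1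
    refine Finset.sum_congr rfl fun i _ => ?_
    rw [hx i.succ]
  simp only [h2] at h1
  exact h1

theorem base_int (k m s : ℕ) (hk : 2 ≤ k) (hm : 1 ≤ m) (u : Fin (m + 1) → ℕ) (hu : ∀ i, 1 ≤ u i)
    (hu0 : ∀ i, u i ≤ u 0) (L η c ε : ℝ) (hL : 1 ≤ L) (hη : 0 < η) (hc : 0 ≤ c) (hε : 0 < ε) :
    ∃ C : ℝ, ∃ j0 : ℕ, ∀ j : ℕ, j0 ≤ j →
      ∫⁻ lam in Bx m L, volume (Mi (fun x => val k u x lam) (η * (2 : ℝ) ^ (-(c * j))) ∩
          Icc ((2 : ℝ) ^ j / 2 ^ s) ((2 : ℝ) ^ j)) ≤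
        ENNReal.ofReal (C * (2 : ℝ) ^ ((j : ℝ) *
          (1 - ((m : ℝ) - c - ∑ i, (1 - 1 / (k : ℝ)) ^ (u i)) + ε))) := by
  obtain ⟨K, hK1, j1, hpts⟩ := pts k m s hk hm u hu L hL
  have hK0 : ∀ i, 0 < K i := fun i => lt_of_lt_of_le one_pos (hK1 i)
  obtain ⟨C1, R, hC1, hR, hsc⟩ := scale m hm L (1 / K 0) hL (by have := hK0 0; positivity)
  set θ : Fin (m + 1) → ℝ := fun i => (1 - 1 / (k : ℝ)) ^ (u i) with hθ
  have hθ0 : ∀ i, 0 < θ i ∧ θ i < 1 := fun i => theta_bd k (u i) hk (hu i)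
  have hbase : 0 ≤ 1 - 1 / (k : ℝ) ∧ 1 - 1 / (k : ℝ) ≤ 1 := by
    have hk0 : (0 : ℝ) < k := by exact_mod_cast (by omega : 0 < k)
    have h1 : 1 / (k : ℝ) ≤ 1 := by
      rw [div_le_one hk0]
      exact_mod_cast (by omega : 1 ≤ k)
    have h2 : 0 < 1 / (k : ℝ) := by positivity
    constructor <;> linarith
  have hθle : ∀ i, θ 0 ≤ θ i := fun i => pow_le_pow_of_le_one hbase.1 hbase.2 (hu0 i)
  obtain ⟨j2, hj2⟩ := bi_event1 (θ 0) (R * K 0 * 2 ^ (s + 1)) (hθ0 0).2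
  obtain ⟨j3, hj3⟩ := bi_event2 η c ε hη hε
  set κ : ℝ := 1 / (2 ^ (s + 1) * (m : ℝ) * L) with hκ
  have hm0 : (0 : ℝ) < m := by exact_mod_cast (by omega : 0 < m)
  have hL0 : 0 < L := by linarith
  have hκ0 : 0 < κ := by positivity
  refine ⟨C1 * (2 * (∏ i, K i) * (2 / κ) ^ m), max j1 (max j2 j3), fun j hj => ?_⟩
  have hjj1 : j1 ≤ j := (le_max_left _ _).trans hj
  have hjj2 : j2 ≤ j := ((le_max_left _ _).trans (le_max_right _ _)).trans hj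
  have hjj3 : j3 ≤ j := ((le_max_right _ _).trans (le_max_right _ _)).trans hj
  obtain ⟨N, β, hcell, hPw, hNpos, hN1, hN2, hN3⟩ := hpts j hjj1
  set X : ℝ := (2 : ℝ) ^ j with hX
  have hX0 : 0 < X := by positivity
  set D : Fin (m + 1) → ℝ := fun i => K i * (2 : ℝ) ^ ((j : ℝ) * θ i) with hD
  have hD0 : ∀ i, 0 < D i := fun i => mul_pos (hK0 i) (by positivity)
  have hj0 : (0 : ℝ) ≤ (j : ℝ) := Nat.cast_nonneg j
  have hRD : R * D 0 * 2 ^ (s + 1) ≤ X := by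
    have := hj2 j hjj2
    calc R * D 0 * 2 ^ (s + 1) = R * K 0 * 2 ^ (s + 1) * (2 : ℝ) ^ ((j : ℝ) * θ 0) := by
          simp only [hD]
          ring
      _ ≤ X := this
  have h2s : (0 : ℝ) < 2 ^ (s + 1) := by positivity
  have hRD' : R * D 0 ≤ X / 2 ^ (s + 1) := by
    rw [le_div_iff₀ h2s]
    exact hRD
  have hRD2 : R * D 0 ≤ X / 2 := by
    refine hRD'.trans ?_
    apply div_le_div_of_nonneg_left hX0.le (by norm_num)
    calc (2 : ℝ) = 2 ^ 1 := by norm_num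
      _ ≤ 2 ^ (s + 1) := pow_le_pow_right₀ (by norm_num) (by omega)
  -- the parameters
  set b : ℝ := (2 : ℝ) ^ (2 * (j : ℝ) * (c + ε)) with hb
  have hsqrt : Real.sqrt b = (2 : ℝ) ^ ((j : ℝ) * (c + ε)) := by
    have h1 : b = ((2 : ℝ) ^ ((j : ℝ) * (c + ε))) ^ 2 := by
      rw [hb, ← Real.rpow_natCast, ← Real.rpow_mul (by norm_num)]
      congr 1
      push_cast
      ring
    rw [h1, Real.sqrt_sq (by positivity)]
  have hb1 : 1 ≤ b := Real.one_le_rpow (by norm_num) (by positivity)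
  set r : ℝ := η * (2 : ℝ) ^ (-(c * j)) with hr
  have hr0 : 0 < r := by positivity
  have hbr : Real.pi * b * r ^ 2 = Real.pi * η ^ 2 * (2 : ℝ) ^ (2 * (j : ℝ) * ε) := by
    have h1 : b * ((2 : ℝ) ^ (-(c * j))) ^ 2 = (2 : ℝ) ^ (2 * (j : ℝ) * ε) := by
      rw [hb, ← Real.rpow_natCast ((2 : ℝ) ^ (-(c * j))), ← Real.rpow_mul (by norm_num),
        ← Real.rpow_add (by norm_num)]
      congr 1
      push_cast
      ring
    rw [hr, mul_pow, ← h1]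
    ring
  have hmain := hsc N β D b X (X / 2 ^ s) r hD0 hNpos hcell
    (fun i => by
      have h1 : 1 / K 0 * D 0 = (2 : ℝ) ^ ((j : ℝ) * θ 0) := by
        simp only [hD]
        have := (hK0 0).ne'
        field_simp
      rw [h1]
      simp only [hD]
      calc (2 : ℝ) ^ ((j : ℝ) * θ 0) ≤ (2 : ℝ) ^ ((j : ℝ) * θ i.succ) :=
            Real.rpow_le_rpow_of_exponent_le (by norm_num)
              (mul_le_mul_of_nonneg_left (hθle i.succ) hj0)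
        _ = 1 * (2 : ℝ) ^ ((j : ℝ) * θ i.succ) := (one_mul _).symm
        _ ≤ _ := mul_le_mul_of_nonneg_right (hK1 i.succ) (by positivity))
    hb1
    (by
      simp only [hD]
      calc (1 : ℝ) = 1 * 1 := by norm_num
        _ ≤ K 0 * (2 : ℝ) ^ ((j : ℝ) * θ 0) := mul_le_mul (hK1 0)
            (Real.one_le_rpow (by norm_num) (mul_nonneg hj0 (hθ0 0).1.le)) (by norm_num) (hK0 0).le)
    hX0 (by positivity) hr0
    (fun lam hlam n hn τ hτ => by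
      obtain ⟨h1, h2⟩ := bi_shift hm s L X hL hX0 N β D hD0 hcell (fun i => (hN3 i).2) lam hlam n hn
      have h3 : X / 2 ^ s = X / 2 ^ (s + 1) + X / 2 ^ (s + 1) := by
        rw [pow_succ]
        field_simp
        ring
      constructor
      · linarith [hτ.1]
      · have h4 : 3 / 2 * X ≤ N 0 * D 0 := hN1
        linarith [hτ.2])
    (by
      rw [hbr, hsqrt]
      have h1 := hj3 j hjj3
      have h2 : (N 0 : ℝ) * D 0 ≤ 2 * X := hN2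
      have h3 : 0 < D 0 := hD0 0
      rw [le_div_iff₀ (by positivity)]
      set E : ℝ := Real.exp (-(Real.pi * η ^ 2 * (2 : ℝ) ^ (2 * (j : ℝ) * ε))) with hE
      have hE0 : 0 < E := Real.exp_pos _
      have hp : 0 < (2 : ℝ) ^ ((j : ℝ) * (c + ε)) := by positivity
      calc (2 : ℝ) ^ ((j : ℝ) * (c + ε)) * (N 0 : ℝ) * E * (4 * D 0)
          = 4 * (2 : ℝ) ^ ((j : ℝ) * (c + ε)) * E * ((N 0 : ℝ) * D 0) := by ring
        _ ≤ 4 * (2 : ℝ) ^ ((j : ℝ) * (c + ε)) * E * (2 * X) :=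
            mul_le_mul_of_nonneg_left h2 (by positivity)
        _ = 8 * (2 : ℝ) ^ ((j : ℝ) * (c + ε)) * X * E := by ring
        _ ≤ 1 := h1)
  -- compare the sets
  refine (setLIntegral_mono' (measurableSet_Bx m L) fun lam _ =>
    measure_mono (inter_subset_inter_left _ (bi_sub k u N β hPw lam r))).trans ?_
  refine hmain.trans (ENNReal.ofReal_le_ofReal ?_)
  -- the numbers
  rw [hsqrt]
  have hNi : ∀ i : Fin m, κ / 2 * X / D i.succ ≤ N i.succ := by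
    intro i
    rw [div_le_iff₀ (hD0 _)]
    exact (hN3 i).1
  have hprod : ∏ i : Fin m, (κ / 2 * X / D i.succ) ≤ ∏ i : Fin m, (N i.succ : ℝ) :=
    Finset.prod_le_prod (fun i _ => by have := hD0 i.succ; positivity) fun i _ => hNi i
  have hprod0 : 0 < ∏ i : Fin m, (κ / 2 * X / D i.succ) :=
    Finset.prod_pos fun i _ => by have := hD0 i.succ; positivity
  have hprodeq : ∏ i : Fin m, (κ / 2 * X / D i.succ) = (κ / 2) ^ m * X ^ m / ∏ i : Fin m, D i.succ := by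
    rw [Finset.prod_div_distrib, Finset.prod_const, Finset.card_univ, Fintype.card_fin, mul_pow]
  have hPD : 0 < ∏ i : Fin m, D i.succ := Finset.prod_pos fun i _ => hD0 _
  have hDall : D 0 * ∏ i : Fin m, D i.succ = (∏ i, K i) * (2 : ℝ) ^ ((j : ℝ) * ∑ i, θ i) := by
    rw [← Fin.prod_univ_succ (fun i => D i)]
    simp only [hD]
    rw [Finset.prod_mul_distrib]
    congr 1
    rw [Finset.mul_sum, ← Real.rpow_sum_of_pos (by norm_num)]
  have hXr : X = (2 : ℝ) ^ ((j : ℝ) * 1) := by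
    rw [mul_one, Real.rpow_natCast]
  have hXm : (X ^ m)⁻¹ = (2 : ℝ) ^ ((j : ℝ) * (-(m : ℝ))) := by
    rw [hXr, ← Real.rpow_natCast, ← Real.rpow_mul (by norm_num), ← Real.rpow_neg (by norm_num)]
    congr 1
    ring
  have hp : 0 < (2 : ℝ) ^ ((j : ℝ) * (c + ε)) := by positivity
  calc C1 * (2 : ℝ) ^ ((j : ℝ) * (c + ε)) * (N 0 : ℝ) * D 0 ^ 2 / ∏ i : Fin m, (N i.succ : ℝ)
      ≤ C1 * (2 : ℝ) ^ ((j : ℝ) * (c + ε)) * (N 0 : ℝ) * D 0 ^ 2 /
          ∏ i : Fin m, (κ / 2 * X / D i.succ) := by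
        apply div_le_div_of_nonneg_left _ hprod0 hprod
        have := hD0 0
        positivity
    _ = C1 * (2 : ℝ) ^ ((j : ℝ) * (c + ε)) * ((N 0 : ℝ) * D 0) * (D 0 * ∏ i : Fin m, D i.succ) *
          ((2 / κ) ^ m * (X ^ m)⁻¹) := by
        rw [hprodeq]
        have h1 : X ^ m ≠ 0 := by positivity
        have h3 : (2 / κ) ^ m = ((κ / 2) ^ m)⁻¹ := by rw [← inv_pow, inv_div]
        have h4 : (κ / 2) ^ m ≠ 0 := by positivity
        rw [h3]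
        generalize (κ / 2) ^ m = a at h4 ⊢
        field_simp
    _ ≤ C1 * (2 : ℝ) ^ ((j : ℝ) * (c + ε)) * (2 * X) * (D 0 * ∏ i : Fin m, D i.succ) *
          ((2 / κ) ^ m * (X ^ m)⁻¹) := by
        have h2 : (N 0 : ℝ) * D 0 ≤ 2 * X := hN2
        have h3 := hD0 0
        gcongr
    _ = C1 * (2 * (∏ i, K i) * (2 / κ) ^ m) * ((2 : ℝ) ^ ((j : ℝ) * (c + ε)) * X *
          (2 : ℝ) ^ ((j : ℝ) * ∑ i, θ i) * (X ^ m)⁻¹) := by
        rw [hDall]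
        ring
    _ = _ := by
        congr 1
        rw [hXm]
        conv_lhs => rw [hXr]
        rw [← Real.rpow_add (by norm_num), ← Real.rpow_add (by norm_num), ← Real.rpow_add (by norm_num)]
        congr 1
        ring

end Pool.H19.Fc
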