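import Pool.Agent.H19.Fc.Defs

/-!
# Module BOXMEAS: Lebesgue measure on the box against the Gaussian measure

`volume.restrict (Bx m L) = Measure.pi (fun _ => volume.restrict (Icc L⁻¹ L))` (`Measure.restrict_pi_pi`, `volume_pi`), and
`volume.restrict (Icc L⁻¹ L) ≤ ofReal (exp (π L^2)) • gam` since `exp(-(π x^2)) ≥ exp(-(π L^2))` for `0 ≤ x ≤ L`.
One way: induction on `m` with `measurePreserving_piFinSuccAbove` at `0` and `lintegral_prod` (Tonelli). Another: `Gam m` is
`volume.withDensity (fun x => ∏ i, ofReal (exp (-(π (x i)^2))))` (`Measure.pi` of `withDensity` measures; e.g. `pi_eq` on boxes) and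
compare densities on the box: `exp(π m L^2) ∏ exp(-(π x_i^2)) ≥ 1`.
-/

set_option autoImplicit false

namespace Pool.H19.Fc

open MeasureTheory Set Pool.H19.Wa Pool.H48.Wt

theorem measurableSet_Bx (n : ℕ) (L : ℝ) : MeasurableSet (Bx n L) := by
  unfold Bx
  exact MeasurableSet.univ_pi fun _ => measurableSet_Icc

private theorem bm_pi {μ ν : Measure ℝ} [SigmaFinite μ] [SigmaFinite ν] {c : ENNReal}
    (h : μ ≤ c • ν) : ∀ (m : ℕ) (f : (Fin m → ℝ) → ENNReal), Measurable f →
      ∫⁻ x, f x ∂(Measure.pi fun _ : Fin m => μ) ≤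
        c ^ m * ∫⁻ x, f x ∂(Measure.pi fun _ : Fin m => ν) := by
  intro m
  induction m with
  | zero =>
    intro f _
    rw [Measure.pi_of_empty, Measure.pi_of_empty, pow_zero, one_mul]
  | succ m ih =>
    intro f hf
    have key : ∀ (ρ : Measure ℝ) [SigmaFinite ρ], ∫⁻ x, f x ∂(Measure.pi fun _ : Fin (m + 1) => ρ) =
        ∫⁻ a, ∫⁻ y, f ((MeasurableEquiv.piFinSuccAbove (fun _ : Fin (m + 1) => ℝ) 0).symm (a, y))
          ∂(Measure.pi fun _ : Fin m => ρ) ∂ρ := by
      intro ρ _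
      have hmp := measurePreserving_piFinSuccAbove (fun _ : Fin (m + 1) => ρ) 0
      have h1 : ∫⁻ x, f x ∂(Measure.pi fun _ : Fin (m + 1) => ρ) =
          ∫⁻ z, f ((MeasurableEquiv.piFinSuccAbove (fun _ : Fin (m + 1) => ℝ) 0).symm z)
            ∂(ρ.prod (Measure.pi fun _ : Fin m => ρ)) := by
        rw [← hmp.lintegral_comp_emb (MeasurableEquiv.measurableEmbedding _)]
        refine lintegral_congr fun x => ?_
        rw [MeasurableEquiv.symm_apply_apply]
      rw [h1, lintegral_prod]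
      exact (hf.comp (MeasurableEquiv.measurable _)).aemeasurable
    rw [key μ, key ν]
    have hm : Measurable fun a : ℝ => ∫⁻ y, f ((MeasurableEquiv.piFinSuccAbove
        (fun _ : Fin (m + 1) => ℝ) 0).symm (a, y)) ∂(Measure.pi fun _ : Fin m => ν) :=
      (hf.comp (MeasurableEquiv.measurable _)).lintegral_prod_right'
    calc ∫⁻ a, ∫⁻ y, f ((MeasurableEquiv.piFinSuccAbove (fun _ : Fin (m + 1) => ℝ) 0).symm (a, y))
          ∂(Measure.pi fun _ : Fin m => μ) ∂μ
        ≤ ∫⁻ a, c ^ m * ∫⁻ y, f ((MeasurableEquiv.piFinSuccAbove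
            (fun _ : Fin (m + 1) => ℝ) 0).symm (a, y)) ∂(Measure.pi fun _ : Fin m => ν) ∂μ := by
          refine lintegral_mono fun a => ?_
          refine ih (fun y => f ((MeasurableEquiv.piFinSuccAbove
            (fun _ : Fin (m + 1) => ℝ) 0).symm (a, y))) ?_
          exact hf.comp ((MeasurableEquiv.measurable _).comp measurable_prodMk_left)
      _ ≤ ∫⁻ a, c ^ m * ∫⁻ y, f ((MeasurableEquiv.piFinSuccAbove
            (fun _ : Fin (m + 1) => ℝ) 0).symm (a, y)) ∂(Measure.pi fun _ : Fin m => ν) ∂(c • ν) :=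
          lintegral_mono' h le_rfl
      _ = c ^ (m + 1) * ∫⁻ a, ∫⁻ y, f ((MeasurableEquiv.piFinSuccAbove
            (fun _ : Fin (m + 1) => ℝ) 0).symm (a, y)) ∂(Measure.pi fun _ : Fin m => ν) ∂ν := by
          rw [lintegral_smul_measure, lintegral_const_mul _ hm, smul_eq_mul, ← mul_assoc, pow_succ,
            mul_comm c]

theorem box_le (m : ℕ) (L : ℝ) (hL : 1 ≤ L) (f : (Fin m → ℝ) → ENNReal) (hf : Measurable f) :
    ∫⁻ lam in Bx m L, f lam ≤ ENNReal.ofReal (Real.exp (Real.pi * m * L ^ 2)) * ∫⁻ lam, f lam ∂Gam m := by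
  have h1 : (volume : Measure (Fin m → ℝ)).restrict (Bx m L) =
      Measure.pi fun _ : Fin m => (volume : Measure ℝ).restrict (Icc L⁻¹ L) := by
    unfold Bx
    rw [volume_pi]
    exact Measure.restrict_pi_pi (fun _ : Fin m => (volume : Measure ℝ)) (fun _ => Icc L⁻¹ L)
  have hsf : SigmaFinite gam := by
    unfold gam
    exact SigmaFinite.withDensity_ofReal _
  have h2 : (volume : Measure ℝ).restrict (Icc L⁻¹ L) ≤
      ENNReal.ofReal (Real.exp (Real.pi * L ^ 2)) • gam := by
    rw [Measure.le_iff]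
    intro s hs
    rw [Measure.restrict_apply hs, Measure.smul_apply, smul_eq_mul]
    unfold gam
    rw [withDensity_apply _ hs, ← lintegral_const_mul]
    · calc volume (s ∩ Icc L⁻¹ L) = ∫⁻ x in s ∩ Icc L⁻¹ L, 1 := by
            rw [lintegral_one, Measure.restrict_apply_univ]
        _ ≤ ∫⁻ x in s ∩ Icc L⁻¹ L, ENNReal.ofReal (Real.exp (Real.pi * L ^ 2)) *
            ENNReal.ofReal (Real.exp (-(Real.pi * x ^ 2))) := by
            refine setLIntegral_mono' (hs.inter measurableSet_Icc) fun x hx => ?_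
            rw [← ENNReal.ofReal_mul (Real.exp_pos _).le, ← Real.exp_add, ← ENNReal.ofReal_one]
            refine ENNReal.ofReal_le_ofReal (Real.one_le_exp ?_)
            have h3 : 0 ≤ x := (inv_nonneg.2 (by linarith)).trans hx.2.1
            have h4 : x ^ 2 ≤ L ^ 2 := pow_le_pow_left₀ h3 hx.2.2 2
            have := Real.pi_pos
            nlinarith
        _ ≤ ∫⁻ x in s, ENNReal.ofReal (Real.exp (Real.pi * L ^ 2)) *
            ENNReal.ofReal (Real.exp (-(Real.pi * x ^ 2))) :=
            lintegral_mono_set inter_subset_left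
    · fun_prop
  rw [h1]
  refine (bm_pi h2 m f hf).trans (le_of_eq ?_)
  unfold Gam
  congr 1
  rw [← ENNReal.ofReal_pow (Real.exp_pos _).le, ← Real.exp_nat_mul]
  congr 2
  ring

end Pool.H19.Fc
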