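import Pool.Agent.H19.Fc.Ker

/-!
# Module CELL: the coarse sum over well distributed points

`cell_sum`. Let `g z = √b' G b' (z - y) = √b' exp(-(π b' (z-y)^2))`. For each cell `I_n = [nD, (n+1)D)`:
`|D g(β_n) - ∫_(I_n) g| ≤ ∫_(I_n) |g(β_n) - g(z)| dz ≤ D ∫_(I_n) |g'|`, and `∫_ℝ |g'| = 2 √b'` (`g' z = -2π b' √b' (z-y) exp(..)`;
or: `g` is monotone on `(-∞, y]` and antitone on `[y, ∞)`, values in `[0, √b']`). Sum over `n < N`.
`gauss_tail`: for `S > 0`: `∫_(|z - y| ≥ S) g ≤ exp(-(π b' S^2))`, or any bound tending to `0` as `√b' S → ∞` is enough below; stated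
as: if `R0 ≤ √b' S` then the integral over an interval `[p, p']` with `p ≤ y - S`, `y + S ≤ p'` is at least `1 - ε`.
`cell_lower`. With `b_j = bj b b0 j`, `b0 = 1/(A D)^2`, `j ≥ 1`, `b ≥ b0`: `b0/(q+1) ≤ b_j ≤ b0` (`1/b_j = 1/b + j/b0`), so
`√b_j ≤ 1/(A D)` and `√b_j ≥ 1/(A D √(q+1))`. Fine minus `Ker` is the coarse part:
`√b G b u - Ker q b b0 u = ∑_(1 ≤ j ≤ q) (-1)^(j+1) C(q,j) √b_j G b_j u` (`bj_zero`). By `cell_sum` and `gauss_tail`
`|D ∑_n √b_j G b_j (β_n - y) - 1| ≤ 2/A + ε` for `R D ≤ y ≤ N D - R D`, `R = R0 A √(q+1)`. As `∑_(1≤j≤q) (-1)^(j+1) C(q,j) = 1` and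
`∑ C(q,j) ≤ 2^q`: `D ∑_n (..) ≥ 1 - 2^q (2/A + ε) ≥ 1/2` for `A = 2^(q+3)`, `ε = 1/2^(q+2)`.
-/

set_option autoImplicit false

namespace Pool.H19.Fc

open MeasureTheory Set Filter Topology Pool.H19.Wa Pool.H48.Wt

/-- the Gaussian density -/
theorem cs_deriv (b' y : ℝ) (z : ℝ) : HasDerivAt (fun z : ℝ => Real.sqrt b' * G b' (z - y))
    (Real.sqrt b' * (-(Real.pi * b' * (2 * (z - y))) * G b' (z - y))) z := by
  unfold G
  have h1 : HasDerivAt (fun z : ℝ => -(Real.pi * b' * (z - y) ^ 2)) (-(Real.pi * b' * (2 * (z - y)))) z := by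
    have h2 : HasDerivAt (fun z : ℝ => (z - y) ^ 2) (2 * (z - y)) z := by
      have h3 := ((hasDerivAt_id z).sub_const y).pow 2
      have h4 : ((2 : ℕ) : ℝ) * (id z - y) ^ (2 - 1) * 1 = 2 * (z - y) := by
        simp
      rw [h4] at h3
      exact h3
    exact (h2.const_mul (Real.pi * b')).neg
  have h4 := (h1.exp).const_mul (Real.sqrt b')
  have h5 : Real.sqrt b' * (Real.exp (-(Real.pi * b' * (z - y) ^ 2)) * -(Real.pi * b' * (2 * (z - y)))) =
      Real.sqrt b' * (-(Real.pi * b' * (2 * (z - y))) * Real.exp (-(Real.pi * b' * (z - y) ^ 2))) := by ring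
  rw [h5] at h4
  exact h4

/-- total variation on an interval -/
theorem cs_var (b' y : ℝ) (hb' : 0 < b') (p p' : ℝ) (hp : p ≤ p') :
    ∫ z in p..p', |Real.sqrt b' * (-(Real.pi * b' * (2 * (z - y))) * G b' (z - y))| ≤ 2 * Real.sqrt b' := by
  have hsb : 0 < Real.sqrt b' := Real.sqrt_pos.mpr hb'
  have hcont : Continuous (fun z : ℝ => Real.sqrt b' * (-(Real.pi * b' * (2 * (z - y))) * G b' (z - y))) := by
    unfold G
    fun_prop
  have hG : ∀ z, 0 < G b' (z - y) ∧ G b' (z - y) ≤ 1 := by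
    intro z
    unfold G
    refine ⟨Real.exp_pos _, Real.exp_le_one_iff.mpr ?_⟩
    have : 0 ≤ Real.pi * b' * (z - y) ^ 2 := by positivity
    linarith
  -- on the left of y
  have hleft : ∀ q q' : ℝ, q ≤ q' → q' ≤ y →
      ∫ z in q..q', |Real.sqrt b' * (-(Real.pi * b' * (2 * (z - y))) * G b' (z - y))| ≤ Real.sqrt b' := by
    intro q q' h1 h2
    have e1 : ∫ z in q..q', |Real.sqrt b' * (-(Real.pi * b' * (2 * (z - y))) * G b' (z - y))| =
        ∫ z in q..q', Real.sqrt b' * (-(Real.pi * b' * (2 * (z - y))) * G b' (z - y)) := by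
      apply intervalIntegral.integral_congr
      intro z hz
      rw [uIcc_of_le h1] at hz
      simp only
      rw [abs_of_nonneg]
      have h3 : 0 ≤ -(Real.pi * b' * (2 * (z - y))) := by
        have h4 : 0 ≤ Real.pi * b' * (2 * (y - z)) := by
          have : 0 ≤ y - z := by linarith [hz.2]
          positivity
        linarith
      exact mul_nonneg hsb.le (mul_nonneg h3 (hG z).1.le)
    rw [e1, intervalIntegral.integral_eq_sub_of_hasDerivAt (fun z _ => cs_deriv b' y z)
      (hcont.intervalIntegrable _ _)]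
    have h5 := hG q'
    have h6 := hG q
    nlinarith
  have hright : ∀ q q' : ℝ, q ≤ q' → y ≤ q →
      ∫ z in q..q', |Real.sqrt b' * (-(Real.pi * b' * (2 * (z - y))) * G b' (z - y))| ≤ Real.sqrt b' := by
    intro q q' h1 h2
    have e1 : ∫ z in q..q', |Real.sqrt b' * (-(Real.pi * b' * (2 * (z - y))) * G b' (z - y))| =
        ∫ z in q..q', -(Real.sqrt b' * (-(Real.pi * b' * (2 * (z - y))) * G b' (z - y))) := by
      apply intervalIntegral.integral_congr
      intro z hz
      rw [uIcc_of_le h1] at hz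
      simp only
      rw [abs_of_nonpos]
      have h3 : 0 ≤ Real.pi * b' * (2 * (z - y)) := by
        have : 0 ≤ z - y := by linarith [hz.1]
        positivity
      have h4 := (hG z).1
      have h5 : 0 ≤ Real.sqrt b' * ((Real.pi * b' * (2 * (z - y))) * G b' (z - y)) := by positivity
      linarith
    rw [e1, intervalIntegral.integral_neg,
      intervalIntegral.integral_eq_sub_of_hasDerivAt (fun z _ => cs_deriv b' y z)
      (hcont.intervalIntegrable _ _)]
    have h5 := hG q'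
    have h6 := hG q
    nlinarith
  have hii : ∀ q q' : ℝ, IntervalIntegrable
      (fun z => |Real.sqrt b' * (-(Real.pi * b' * (2 * (z - y))) * G b' (z - y))|) volume q q' :=
    fun q q' => hcont.abs.intervalIntegrable _ _
  by_cases h1 : p' ≤ y
  · have := hleft p p' hp h1
    linarith
  · by_cases h2 : y ≤ p
    · have := hright p p' hp h2
      linarith
    · push Not at h1 h2
      rw [← intervalIntegral.integral_add_adjacent_intervals (hii p y) (hii y p')]
      have h3 := hleft p y h2.le le_rfl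
      have h4 := hright y p' h1.le le_rfl
      linarith

theorem cell_sum (N : ℕ) (β : ℕ → ℝ) (D b' y : ℝ) (hD : 0 < D) (hb' : 0 < b') (hβ : Cells N β D) :
    |D * ∑ n ∈ Finset.range N, Real.sqrt b' * G b' (β n - y) -
      ∫ z in (0 : ℝ)..(N * D), Real.sqrt b' * G b' (z - y)| ≤ 2 * D * Real.sqrt b' := by
  set g : ℝ → ℝ := fun z => Real.sqrt b' * G b' (z - y) with hg
  set g' : ℝ → ℝ := fun z => Real.sqrt b' * (-(Real.pi * b' * (2 * (z - y))) * G b' (z - y)) with hg'
  have hcg : Continuous g := by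
    simp only [hg]
    unfold G
    fun_prop
  have hcg' : Continuous g' := by
    simp only [hg']
    unfold G
    fun_prop
  have hii : ∀ q q' : ℝ, IntervalIntegrable g volume q q' := fun q q' => hcg.intervalIntegrable _ _
  have hii' : ∀ q q' : ℝ, IntervalIntegrable (fun z => |g' z|) volume q q' :=
    fun q q' => hcg'.abs.intervalIntegrable _ _
  -- one cell
  have hcell : ∀ n < N, |D * g (β n) - ∫ z in ((n : ℝ) * D)..(((n : ℝ) + 1) * D), g z| ≤
      D * ∫ z in ((n : ℝ) * D)..(((n : ℝ) + 1) * D), |g' z| := by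
    intro n hn
    obtain ⟨h1, h2⟩ := hβ n hn
    set p : ℝ := (n : ℝ) * D with hp
    set p' : ℝ := ((n : ℝ) + 1) * D with hp'
    have hpp : p' - p = D := by rw [hp, hp']; ring
    have hple : p ≤ p' := by linarith
    have e1 : D * g (β n) - ∫ z in p..p', g z = ∫ z in p..p', (g (β n) - g z) := by
      rw [intervalIntegral.integral_sub (by simp) (hii p p'), intervalIntegral.integral_const, hpp,
        smul_eq_mul]
    rw [e1]
    have hb : ∀ z ∈ Set.uIoc p p', ‖g (β n) - g z‖ ≤ ∫ z in p..p', |g' z| := by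
      intro z hz
      rw [uIoc_of_le hple] at hz
      have e2 : g (β n) - g z = ∫ x in z..(β n), g' x := by
        rw [intervalIntegral.integral_eq_sub_of_hasDerivAt (fun x _ => cs_deriv b' y x)
          (hcg'.intervalIntegrable _ _)]
      rw [e2]
      refine (intervalIntegral.norm_integral_le_abs_integral_norm).trans ?_
      have hn0 : ∀ x, 0 ≤ ‖g' x‖ := fun x => norm_nonneg _
      have e3 : |∫ x in z..(β n), ‖g' x‖| = ∫ x in Set.uIoc z (β n), ‖g' x‖ := by
        rw [intervalIntegral.abs_integral_eq_abs_integral_uIoc, abs_of_nonneg]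
        exact integral_nonneg hn0
      rw [e3, intervalIntegral.integral_of_le hple]
      have hsub : Set.uIoc z (β n) ⊆ Ioc p p' := by
        intro x hx
        rw [Set.mem_uIoc] at hx
        rcases hx with hx | hx
        · exact ⟨by linarith [hx.1, hz.1], by linarith [hx.2]⟩
        · exact ⟨by linarith [hx.1], by linarith [hx.2, hz.2]⟩
      exact setIntegral_mono_set ((hcg'.abs.integrableOn_Icc).mono_set Ioc_subset_Icc_self)
        (Filter.Eventually.of_forall hn0) (Filter.Eventually.of_forall hsub)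
    have := intervalIntegral.norm_integral_le_of_norm_le_const hb
    rw [hpp, abs_of_pos hD] at this
    rw [← Real.norm_eq_abs]
    linarith
  -- sum over the cells
  have hsum : ∀ M : ℕ, M ≤ N → |D * ∑ n ∈ Finset.range M, g (β n) - ∫ z in (0 : ℝ)..(M * D), g z| ≤
      D * ∫ z in (0 : ℝ)..(M * D), |g' z| := by
    intro M
    induction M with
    | zero => intro _; simp
    | succ M ih =>
      intro hM
      have h1 := ih (by omega)
      have h2 := hcell M (by omega)
      rw [Finset.sum_range_succ]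
      push_cast
      have e1 : ∫ z in (0 : ℝ)..(((M : ℝ) + 1) * D), g z =
          (∫ z in (0 : ℝ)..((M : ℝ) * D), g z) + ∫ z in ((M : ℝ) * D)..(((M : ℝ) + 1) * D), g z :=
        (intervalIntegral.integral_add_adjacent_intervals (hii _ _) (hii _ _)).symm
      have e2 : ∫ z in (0 : ℝ)..(((M : ℝ) + 1) * D), |g' z| =
          (∫ z in (0 : ℝ)..((M : ℝ) * D), |g' z|) + ∫ z in ((M : ℝ) * D)..(((M : ℝ) + 1) * D), |g' z| :=
        (intervalIntegral.integral_add_adjacent_intervals (hii' _ _) (hii' _ _)).symm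
      rw [e1, e2]
      have e3 : D * (∑ n ∈ Finset.range M, g (β n) + g (β M)) -
          ((∫ z in (0 : ℝ)..((M : ℝ) * D), g z) + ∫ z in ((M : ℝ) * D)..(((M : ℝ) + 1) * D), g z) =
          (D * ∑ n ∈ Finset.range M, g (β n) - ∫ z in (0 : ℝ)..((M : ℝ) * D), g z) +
          (D * g (β M) - ∫ z in ((M : ℝ) * D)..(((M : ℝ) + 1) * D), g z) := by ring
      rw [e3]
      refine (abs_add_le _ _).trans ?_
      linarith
  have h1 := hsum N le_rfl
  have h2 := cs_var b' y hb' 0 (N * D) (by positivity)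
  have h3 : D * ∫ z in (0 : ℝ)..(N * D), |g' z| ≤ D * (2 * Real.sqrt b') :=
    mul_le_mul_of_nonneg_left h2 hD.le
  calc _ ≤ D * ∫ z in (0 : ℝ)..(N * D), |g' z| := h1
    _ ≤ D * (2 * Real.sqrt b') := h3
    _ = _ := by ring

theorem gt_int : Integrable (fun x : ℝ => Real.exp (-Real.pi * x ^ 2)) :=
  integrable_exp_neg_mul_sq Real.pi_pos

theorem gt_one : ∫ x : ℝ, Real.exp (-Real.pi * x ^ 2) = 1 := by
  rw [integral_gaussian, div_self Real.pi_ne_zero, Real.sqrt_one]

theorem gauss_tail (ε : ℝ) (hε : 0 < ε) : ∃ R0 : ℝ, 0 < R0 ∧ ∀ (b' y p p' S : ℝ), 0 < b' → 0 < S →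
    R0 ≤ Real.sqrt b' * S → p ≤ y - S → y + S ≤ p' →
    1 - ε ≤ ∫ z in p..p', Real.sqrt b' * G b' (z - y) ∧ ∫ z in p..p', Real.sqrt b' * G b' (z - y) ≤ 1 := by
  have hlim := intervalIntegral_tendsto_integral gt_int tendsto_neg_atTop_atBot
    (tendsto_id : Tendsto (id : ℝ → ℝ) atTop atTop)
  rw [gt_one] at hlim
  obtain ⟨R1, hR1⟩ := eventually_atTop.mp (hlim.eventually (le_mem_nhds (by linarith : 1 - ε < 1)))
  refine ⟨max R1 1, lt_of_lt_of_le one_pos (le_max_right _ _), ?_⟩
  intro b' y p p' S hb' hS hR hp hp'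
  have hsb : 0 < Real.sqrt b' := Real.sqrt_pos.mpr hb'
  have hpp : p ≤ p' := by linarith
  set a : ℝ := Real.sqrt b' * (p - y) with ha
  set a' : ℝ := Real.sqrt b' * (p' - y) with ha'
  have hsub : ∫ z in p..p', Real.sqrt b' * G b' (z - y) = ∫ x in a..a', Real.exp (-Real.pi * x ^ 2) := by
    have e1 : ∀ z : ℝ, Real.sqrt b' * G b' (z - y) =
        Real.sqrt b' * (fun x : ℝ => Real.exp (-Real.pi * x ^ 2)) (Real.sqrt b' * z - Real.sqrt b' * y) := by
      intro z
      unfold G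
      simp only
      congr 2
      have : Real.sqrt b' * z - Real.sqrt b' * y = Real.sqrt b' * (z - y) := by ring
      rw [this, mul_pow, Real.sq_sqrt hb'.le]
      ring
    have e2 : ∫ z in p..p', Real.sqrt b' * G b' (z - y) = ∫ z in p..p',
        Real.sqrt b' * (fun x : ℝ => Real.exp (-Real.pi * x ^ 2)) (Real.sqrt b' * z - Real.sqrt b' * y) :=
      intervalIntegral.integral_congr fun z _ => e1 z
    rw [e2, intervalIntegral.integral_const_mul]
    have e3 := intervalIntegral.integral_comp_mul_sub (a := p) (b := p')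
      (fun x : ℝ => Real.exp (-Real.pi * x ^ 2)) hsb.ne' (Real.sqrt b' * y)
    rw [e3, smul_eq_mul, ← mul_assoc, mul_inv_cancel₀ hsb.ne', one_mul]
    congr 1
    · rw [ha]; ring
    · rw [ha']; ring
  rw [hsub]
  have haR : a ≤ -(max R1 1) := by
    rw [ha]
    have : Real.sqrt b' * (p - y) ≤ Real.sqrt b' * (-S) := mul_le_mul_of_nonneg_left (by linarith) hsb.le
    linarith
  have haR' : max R1 1 ≤ a' := by
    rw [ha']
    have : Real.sqrt b' * S ≤ Real.sqrt b' * (p' - y) := mul_le_mul_of_nonneg_left (by linarith) hsb.le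
    linarith
  have hM1 : (1 : ℝ) ≤ max R1 1 := le_max_right _ _
  have haa : a ≤ a' := by linarith
  have hnn : ∀ x : ℝ, 0 ≤ Real.exp (-Real.pi * x ^ 2) := fun x => (Real.exp_pos _).le
  constructor
  · have h1 := hR1 (max R1 1) (le_max_left _ _)
    simp only [id] at h1
    refine h1.trans ?_
    rw [intervalIntegral.integral_of_le (by linarith), intervalIntegral.integral_of_le haa]
    exact setIntegral_mono_set gt_int.integrableOn (Eventually.of_forall hnn)
      (Eventually.of_forall (Ioc_subset_Ioc haR haR'))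
  · rw [intervalIntegral.integral_of_le haa, ← gt_one]
    exact setIntegral_le_integral gt_int (Eventually.of_forall hnn)

/-- the alternating sum -/
theorem cl_binom (q : ℕ) (hq : 1 ≤ q) :
    ∑ j ∈ Finset.range q, (-1 : ℝ) ^ j * (q.choose (j + 1) : ℝ) = 1 := by
  have h1 : ∑ j ∈ Finset.range (q + 1), (-1 : ℝ) ^ j * (q.choose j : ℝ) = 0 := by
    have h2 := Int.alternating_sum_range_choose_of_ne (n := q) (by omega)
    have h3 : ((∑ m ∈ Finset.range (q + 1), ((-1) ^ m * (q.choose m : ℤ)) : ℤ) : ℝ) = 0 := by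
      rw [h2]; simp
    push_cast at h3
    exact h3
  rw [Finset.sum_range_succ'] at h1
  simp only [pow_zero, Nat.choose_zero_right, Nat.cast_one, mul_one] at h1
  have h4 : ∑ j ∈ Finset.range q, (-1 : ℝ) ^ (j + 1) * (q.choose (j + 1) : ℝ) =
      -∑ j ∈ Finset.range q, (-1 : ℝ) ^ j * (q.choose (j + 1) : ℝ) := by
    rw [← Finset.sum_neg_distrib]
    refine Finset.sum_congr rfl fun j _ => ?_
    rw [pow_succ]
    ring
  rw [h4] at h1
  linarith

theorem cl_sum_le (q : ℕ) : ∑ j ∈ Finset.range q, (q.choose (j + 1) : ℝ) ≤ 2 ^ q := by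
  have h1 := Nat.sum_range_choose q
  have h2 : ∑ j ∈ Finset.range (q + 1), (q.choose j : ℝ) = 2 ^ q := by exact_mod_cast h1
  rw [Finset.sum_range_succ'] at h2
  have : (0 : ℝ) ≤ (q.choose 0 : ℝ) := Nat.cast_nonneg _
  linarith

theorem cell_lower (q : ℕ) (hq : 1 ≤ q) :
    ∃ A R : ℝ, 1 ≤ A ∧ 1 ≤ R ∧ ∀ (N : ℕ) (β : ℕ → ℝ) (D b : ℝ), 0 < D → Cells N β D →
      1 / (A * D) ^ 2 ≤ b → ∀ y : ℝ, R * D ≤ y → y ≤ N * D - R * D →
      1 / (2 * D) ≤ ∑ n ∈ Finset.range N,
        (Real.sqrt b * G b (β n - y) - Ker q b (1 / (A * D) ^ 2) (β n - y)) := by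
  set ε : ℝ := 1 / 2 ^ (q + 2) with hε
  have hε0 : 0 < ε := by positivity
  obtain ⟨R0, hR0, hg⟩ := gauss_tail ε hε0
  set A : ℝ := 2 ^ (q + 3) with hA
  have hA1 : 1 ≤ A := one_le_pow₀ (by norm_num)
  have hA0 : 0 < A := by linarith
  set Q : ℝ := Real.sqrt ((q : ℝ) + 1) with hQ
  have hQ0 : 0 < Q := Real.sqrt_pos.mpr (by positivity)
  set R : ℝ := max 1 (R0 * A * Q) with hR
  refine ⟨A, R, hA1, le_max_left _ _, fun N β D b hD hβ hb y hy1 hy2 => ?_⟩
  have hR1 : R0 * A * Q ≤ R := le_max_right _ _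
  have hR0' : 1 ≤ R := le_max_left _ _
  set b0 : ℝ := 1 / (A * D) ^ 2 with hb0
  have hb00 : 0 < b0 := by positivity
  have hbpos : 0 < b := lt_of_lt_of_le hb00 hb
  -- the coarse part
  have hsplit : ∀ w : ℝ, Real.sqrt b * G b w - Ker q b b0 w = ∑ j ∈ Finset.range q,
      (-1 : ℝ) ^ j * (q.choose (j + 1) : ℝ) * (Real.sqrt (bj b b0 (j + 1)) * G (bj b b0 (j + 1)) w) := by
    intro w
    unfold Ker
    rw [Finset.sum_range_succ']
    simp only [pow_zero, Nat.choose_zero_right, Nat.cast_one, one_mul]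
    rw [bj_zero hbpos]
    have : ∑ j ∈ Finset.range q, (-1 : ℝ) ^ (j + 1) * (q.choose (j + 1) : ℝ) *
        (Real.sqrt (bj b b0 (j + 1)) * G (bj b b0 (j + 1)) w) = -∑ j ∈ Finset.range q,
        (-1 : ℝ) ^ j * (q.choose (j + 1) : ℝ) *
          (Real.sqrt (bj b b0 (j + 1)) * G (bj b b0 (j + 1)) w) := by
      rw [← Finset.sum_neg_distrib]
      refine Finset.sum_congr rfl fun j _ => ?_
      rw [pow_succ]
      ring
    rw [this]
    ring
  simp_rw [hsplit]
  rw [Finset.sum_comm]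
  -- one coarse Gaussian
  have hone : ∀ j ∈ Finset.range q,
      |D * ∑ n ∈ Finset.range N, Real.sqrt (bj b b0 (j + 1)) * G (bj b b0 (j + 1)) (β n - y) - 1| ≤
        2 / A + ε := by
    intro j hj
    have hjq : j < q := Finset.mem_range.mp hj
    set b' : ℝ := bj b b0 (j + 1) with hb'
    have hb'0 : 0 < b' := bj_pos hbpos hb00 _
    have hinv : 1 / b' = 1 / b + ((j + 1 : ℕ) : ℝ) / b0 := by
      rw [hb', bj, one_div, inv_inv]
    have hbinv : 1 / b ≤ 1 / b0 := one_div_le_one_div_of_le hb00 hb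
    have hbinv0 : 0 < 1 / b := by positivity
    have h1 : 1 / b0 ≤ 1 / b' := by
      rw [hinv]
      push_cast
      have h2 : 0 ≤ (j : ℝ) / b0 := by positivity
      have h3 : ((j : ℝ) + 1) / b0 = (j : ℝ) / b0 + 1 / b0 := by ring
      linarith
    have h2 : 1 / b' ≤ ((q : ℝ) + 1) / b0 := by
      rw [hinv]
      have h3 : ((j + 1 : ℕ) : ℝ) ≤ q := by exact_mod_cast hjq
      have h4 : ((j + 1 : ℕ) : ℝ) / b0 ≤ (q : ℝ) / b0 := div_le_div_of_nonneg_right h3 hb00.le
      have h5 : ((q : ℝ) + 1) / b0 = (q : ℝ) / b0 + 1 / b0 := by ring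
      linarith
    have hle : b' ≤ b0 := by
      rw [one_div_le_one_div hb00 hb'0] at h1
      exact h1
    have hge : b0 ≤ ((q : ℝ) + 1) * b' := by
      rw [div_le_div_iff₀ hb'0 hb00] at h2
      linarith
    have hsb0 : Real.sqrt b0 = 1 / (A * D) := by
      rw [hb0, Real.sqrt_div (by norm_num), Real.sqrt_one, Real.sqrt_sq (by positivity)]
    have hs1 : Real.sqrt b' ≤ 1 / (A * D) := by
      rw [← hsb0]
      exact Real.sqrt_le_sqrt hle
    have hs2 : 1 / (A * D) ≤ Q * Real.sqrt b' := by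
      rw [← hsb0, hQ, ← Real.sqrt_mul (by positivity)]
      exact Real.sqrt_le_sqrt hge
    have hcs := cell_sum N β D b' y hD hb'0 hβ
    have hsb' : 0 < Real.sqrt b' := Real.sqrt_pos.mpr hb'0
    obtain ⟨ht1, ht2⟩ := hg b' y 0 (N * D) (R * D) hb'0 (by positivity) (by
      have h3 : R0 * A * Q * D * Real.sqrt b' ≤ R * D * Real.sqrt b' := by gcongr
      have h4 : R0 ≤ R0 * A * Q * D * Real.sqrt b' := by
        have h5 : R0 * A * D * (1 / (A * D)) ≤ R0 * A * D * (Q * Real.sqrt b') :=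
          mul_le_mul_of_nonneg_left hs2 (by positivity)
        have h6 : R0 * A * D * (1 / (A * D)) = R0 := by field_simp
        rw [h6] at h5
        linarith
      linarith) (by linarith) (by linarith)
    have h3 : 2 * D * Real.sqrt b' ≤ 2 / A := by
      calc 2 * D * Real.sqrt b' ≤ 2 * D * (1 / (A * D)) := by gcongr
        _ = 2 / A := by field_simp
    rw [abs_le] at hcs ⊢
    constructor <;> linarith [hcs.1, hcs.2]
  -- put together
  have hkey : |D * ∑ j ∈ Finset.range q, ∑ n ∈ Finset.range N,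
      (-1 : ℝ) ^ j * (q.choose (j + 1) : ℝ) * (Real.sqrt (bj b b0 (j + 1)) * G (bj b b0 (j + 1)) (β n - y)) - 1| ≤
        2 ^ q * (2 / A + ε) := by
    have e1 : D * ∑ j ∈ Finset.range q, ∑ n ∈ Finset.range N,
        (-1 : ℝ) ^ j * (q.choose (j + 1) : ℝ) *
          (Real.sqrt (bj b b0 (j + 1)) * G (bj b b0 (j + 1)) (β n - y)) - 1 =
        ∑ j ∈ Finset.range q, (-1 : ℝ) ^ j * (q.choose (j + 1) : ℝ) *
          (D * ∑ n ∈ Finset.range N, Real.sqrt (bj b b0 (j + 1)) * G (bj b b0 (j + 1)) (β n - y) - 1) := by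
      have e2 := cl_binom q hq
      have e3 : ∑ j ∈ Finset.range q, (-1 : ℝ) ^ j * (q.choose (j + 1) : ℝ) *
          (D * ∑ n ∈ Finset.range N, Real.sqrt (bj b b0 (j + 1)) * G (bj b b0 (j + 1)) (β n - y) - 1) =
          ∑ j ∈ Finset.range q, D * ∑ n ∈ Finset.range N, (-1 : ℝ) ^ j * (q.choose (j + 1) : ℝ) *
            (Real.sqrt (bj b b0 (j + 1)) * G (bj b b0 (j + 1)) (β n - y)) -
          ∑ j ∈ Finset.range q, (-1 : ℝ) ^ j * (q.choose (j + 1) : ℝ) := by
        rw [← Finset.sum_sub_distrib]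
        refine Finset.sum_congr rfl fun j _ => ?_
        have e4 : ∑ n ∈ Finset.range N, (-1 : ℝ) ^ j * (q.choose (j + 1) : ℝ) *
            (Real.sqrt (bj b b0 (j + 1)) * G (bj b b0 (j + 1)) (β n - y)) =
            (-1 : ℝ) ^ j * (q.choose (j + 1) : ℝ) * ∑ n ∈ Finset.range N,
              Real.sqrt (bj b b0 (j + 1)) * G (bj b b0 (j + 1)) (β n - y) :=
          (Finset.mul_sum _ _ _).symm
        rw [e4]
        generalize ∑ n ∈ Finset.range N, Real.sqrt (bj b b0 (j + 1)) * G (bj b b0 (j + 1)) (β n - y) = S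
        ring
      rw [e3, e2, Finset.mul_sum]
    rw [e1]
    refine (Finset.abs_sum_le_sum_abs _ _).trans ?_
    calc _ ≤ ∑ j ∈ Finset.range q, (q.choose (j + 1) : ℝ) * (2 / A + ε) := by
          refine Finset.sum_le_sum fun j hj => ?_
          rw [abs_mul, abs_mul, abs_pow, abs_neg, abs_one, one_pow, one_mul,
            abs_of_nonneg (Nat.cast_nonneg _)]
          exact mul_le_mul_of_nonneg_left (hone j hj) (Nat.cast_nonneg _)
      _ = (∑ j ∈ Finset.range q, (q.choose (j + 1) : ℝ)) * (2 / A + ε) := by rw [Finset.sum_mul]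
      _ ≤ _ := mul_le_mul_of_nonneg_right (cl_sum_le q) (by positivity)
  have hval : (2 : ℝ) ^ q * (2 / A + ε) = 1 / 2 := by
    rw [hA, hε]
    have : (2 : ℝ) ^ q ≠ 0 := by positivity
    rw [pow_add, pow_add]
    field_simp
    norm_num
  rw [hval, abs_le] at hkey
  rw [div_le_iff₀ (by positivity)]
  linarith [hkey.1]

end Pool.H19.Fc
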