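import Pool.Agent.H48.Wt.Bh
import Pool.Agent.H48.Wt.Gap

/-!
# Waring's problem with few generic coefficients: definitions and plan (helper19, MP_efcac8_nt)

THEOREM (general). `k >= 2`, `m >= 1`, `t >= 0`, `u_0 >= u_i >= 1` (`i = 1..m`), `θ_i = (1-1/k)^(u_i)`, `c >= 0`,
`1 + c < 2^t (m - c - ∑ θ_i)`. For almost every `lam` in `R^(m+t)` with positive coordinates, for every `η > 0` every
large real `τ` has natural numbers with
`|∑_j x_(0j)^k + ∑_(i=1..m) lam_i ∑_j x_(ij)^k + ∑_(j=1..t) lam_(m+j) w_j^k - τ| < η τ^(-c)`.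
THEOREM (main case `m = 1`, `t = 2`, `u_0 = k`, `u_1 = k-1`, every `k >= 3`): `2k+1` genuine k-th powers, three generic
coefficients.

PROOF. `X = 2^j`, all coefficients in `[1/L, L]`.
(A) Points. Sums of `u` k-th powers have gaps `O(X^θ)` (`Pool.H48.Wt.greedy`, `points` used with `k := 1`, `P := 2^j`), so there
are points `β_i(n) ∈ [n D_i, (n+1) D_i)`, `n < N_i`, `D_i = K X^(θ_i)`, `N_i D_i ≤ κ_i X`.
`F(t) = ∑_n e(t v_n) = B_0(t) ∏ B_i(lam_i t)`, `B_i = Bh (N i) (β i)`.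
(B) `avg_one`, `avg_F`: average over a Gaussian `lam`: `E ‖B_i(lam t)‖^2 ≤ N_i (3 + 4/(|t| D_i))`.
(C) Kernel `Ker q b b0` with symbol `rho = exp(-π t^2/b) (1 - exp(-π t^2/b0))^q`, `q = m`, `b0 = 1/(A D_0)^2`:
`rho^2 ∏ (3 + 4/(|t| D_i)) ≤ C exp(-π t^2/b)` for all `t ≠ 0` (`rho_bd`).
(D) `H(τ) = ∑_n Ker (v_n - τ) = ∫ rho F e(-tτ) dt`; `planch`: `∫ H(τ)^2 exp(-π τ^2/X^2) dτ ≤ ∫ rho^2 |F|^2`; so
`E ∫ H^2 exp(..) ≤ C √b ∏ N_i` (`avg_H`).
(E) A missed `τ` (all `|v_n - τ| ≥ r`): the fine part of `H` (`j = 0` in `Ker`) is negligible, the coarse part is at least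
`∏_(i≥1) N_i / (2 D_0)` (`cell_lower`), so `|H(τ)| ≥ ∏_(i≥1) N_i / (4 D_0)` (`missed_lower`).
(F) `scale`, `base_int`, `base_Dp`: `E meas(missed τ in [X/2^s, X]) ≤ C X^(1-d+ε)`, `d = m - c - ∑ θ_i`.
(G) `sq`, `step_int`, `step_Dp`: one more variable `w` with generic coefficient `μ`: a missed `τ` gives the missed `τ` and
`τ - μ W^k` for the family without `w`; `∫ dμ` of the measure is `≤ |E|^2/W^k`: the exponent is doubled.
(H) `hit`: if the exponent is larger than `1 + c` every large `τ` is hit (a missed `τ` gives a whole interval).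
-/

set_option autoImplicit false

namespace Pool.H19.Fc

open MeasureTheory Set Pool.H19.Wa Pool.H48.Wt

noncomputable section

/-- symbol of the kernel -/
def rho (q : ℕ) (b b0 t : ℝ) : ℝ :=
  Real.exp (-(Real.pi * t ^ 2 / b)) * (1 - Real.exp (-(Real.pi * t ^ 2 / b0))) ^ q

/-- `1/b_j = 1/b + j/b0` -/
def bj (b b0 : ℝ) (j : ℕ) : ℝ := (1 / b + j / b0)⁻¹

/-- the kernel -/
def Ker (q : ℕ) (b b0 u : ℝ) : ℝ :=
  ∑ j ∈ Finset.range (q + 1), (-1 : ℝ) ^ j * (q.choose j : ℝ) * (Real.sqrt (bj b b0 j) * G (bj b b0 j) u)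

/-- exponential sum over a finite family of reals -/
def Fs {ι : Type*} (s : Finset ι) (v : ι → ℝ) (t : ℝ) : ℂ := ∑ n ∈ s, e (t * v n)

/-- kernel sum over a finite family of reals -/
def Hs {ι : Type*} (q : ℕ) (b b0 : ℝ) (s : Finset ι) (v : ι → ℝ) (τ : ℝ) : ℝ :=
  ∑ n ∈ s, Ker q b b0 (v n - τ)

/-- the index box -/
def bx {m : ℕ} (N : Fin (m + 1) → ℕ) : Finset (Fin (m + 1) → ℕ) :=
  Fintype.piFinset (fun i => Finset.range (N i))

/-- the values -/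
def vv {m : ℕ} (β : Fin (m + 1) → ℕ → ℝ) (lam : Fin m → ℝ) (n : Fin (m + 1) → ℕ) : ℝ :=
  β 0 (n 0) + ∑ i : Fin m, lam i * β i.succ (n i.succ)

/-- the Gaussian measure with density `exp(-π x^2)` -/
def gam : Measure ℝ := volume.withDensity (fun x => ENNReal.ofReal (Real.exp (-(Real.pi * x ^ 2))))

/-- its power -/
def Gam (m : ℕ) : Measure (Fin m → ℝ) := Measure.pi (fun _ : Fin m => gam)

/-- the box of coefficients -/
def Bx (n : ℕ) (L : ℝ) : Set (Fin n → ℝ) := Set.pi univ (fun _ => Icc L⁻¹ L)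

/-- the reals at distance at least `r` from all values of `f` -/
def Mi {ι : Type*} (f : ι → ℝ) (r : ℝ) : Set ℝ := {τ | ∀ x, r ≤ |f x - τ|}

/-- the base family -/
def val (k : ℕ) {m : ℕ} (u : Fin (m + 1) → ℕ) (x : (i : Fin (m + 1)) → Fin (u i) → ℕ)
    (lam : Fin m → ℝ) : ℝ :=
  ∑ j, (x 0 j : ℝ) ^ k + ∑ i : Fin m, lam i * ∑ j, (x i.succ j : ℝ) ^ k

/-- the missed set at scale `2^j` (window `[2^j/2^s, 2^j]`, radius `η 2^(-cj)`) has measure `O(2^(j(1-β)))` -/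
def Dp {ι : Type*} (n : ℕ) (f : ι → (Fin n → ℝ) → ℝ) (L η c : ℝ) (s : ℕ) (β : ℝ) : Prop :=
  ∀ᵐ lam ∂((volume : Measure (Fin n → ℝ)).restrict (Bx n L)), ∃ C : ℝ, ∀ j : ℕ,
    volume (Mi (fun x => f x lam) (η * (2 : ℝ) ^ (-(c * j))) ∩ Icc ((2 : ℝ) ^ j / 2 ^ s) ((2 : ℝ) ^ j)) ≤
      ENNReal.ofReal (C * (2 : ℝ) ^ ((j : ℝ) * (1 - β)))

/-- cells: one point in each `[n D, (n+1) D)`, `n < N` -/
def Cells (N : ℕ) (β : ℕ → ℝ) (D : ℝ) : Prop := ∀ n < N, (n : ℝ) * D ≤ β n ∧ β n < ((n : ℝ) + 1) * D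

end

end Pool.H19.Fc
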