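import Pool.Agent.H19.Wc.Dim2

/-!
# Hausdorff dimension of a limsup set from volumes of neighbourhoods
-/

set_option autoImplicit false

namespace Pool.H19.Fc

open MeasureTheory Set Filter Pool.H19.Wa Pool.H19.Wc

/-- cubes of a grid inside a set of small volume -/
theorem count3 {s : ℕ} (L : ℕ) (hL : 1 ≤ L) (F : Finset (Fin s → ℕ)) (S : Set (Fin s → ℝ))
    (hS : ∀ q ∈ F, cube L q ⊆ S) (B : ℝ) (hB0 : 0 ≤ B) (hB : volume S ≤ ENNReal.ofReal B) :
    (F.card : ℝ) * ((1 : ℝ) / L) ^ s ≤ B := by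
  classical
  have hL0 : (0 : ℝ) < L := by exact_mod_cast hL
  let oc : (Fin s → ℕ) → Set (Fin s → ℝ) := fun q =>
    Set.pi univ (fun i => Ioo ((q i : ℝ) / L) (((q i : ℝ) + 1) / L))
  have hoc : ∀ q, oc q ⊆ cube L q := by
    intro q al hal i
    have := hal i (mem_univ i)
    exact ⟨this.1.le, this.2.le⟩
  have hmeas : ∀ q ∈ F, volume (oc q) = ENNReal.ofReal (((1 : ℝ) / L) ^ s) := by
    intro q hq
    simp only [oc]
    rw [volume_pi_pi]
    have h1 : ∀ i : Fin s, volume (Ioo ((q i : ℝ) / L) (((q i : ℝ) + 1) / L)) =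
        ENNReal.ofReal ((1 : ℝ) / L) := by
      intro i
      rw [Real.volume_Ioo]
      congr 1
      ring
    simp only [h1, Finset.prod_const, Finset.card_univ, Fintype.card_fin]
    rw [← ENNReal.ofReal_pow (by positivity)]
  have hdisj : PairwiseDisjoint (↑F : Set (Fin s → ℕ)) oc := by
    intro q _ q' _ hne
    rw [Function.onFun, Set.disjoint_left]
    intro al h1 h2
    apply hne
    funext i
    have e1 := h1 i (mem_univ i)
    have e2 := h2 i (mem_univ i)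
    have a1 : (q i : ℝ) < (q' i : ℝ) + 1 := by
      have := e1.1.trans e2.2
      rwa [div_lt_div_iff_of_pos_right hL0] at this
    have a2 : (q' i : ℝ) < (q i : ℝ) + 1 := by
      have := e2.1.trans e1.2
      rwa [div_lt_div_iff_of_pos_right hL0] at this
    have b1 : q i < q' i + 1 := by exact_mod_cast a1
    have b2 : q' i < q i + 1 := by exact_mod_cast a2
    omega
  have hsum : volume (⋃ q ∈ F, oc q) = ∑ q ∈ F, volume (oc q) := by
    apply measure_biUnion_finset hdisj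
    intro q _
    exact MeasurableSet.univ_pi (fun i => measurableSet_Ioo)
  have hle : volume (⋃ q ∈ F, oc q) ≤ ENNReal.ofReal B := by
    refine (measure_mono ?_).trans hB
    apply iUnion₂_subset
    intro q hq
    exact (hoc q).trans (hS q hq)
  rw [hsum, Finset.sum_congr rfl hmeas, Finset.sum_const, nsmul_eq_mul,
    ← ENNReal.ofReal_natCast, ← ENNReal.ofReal_mul (by positivity)] at hle
  exact (ENNReal.ofReal_le_ofReal_iff hB0).mp hle

/-- one scale -/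
theorem cover3 {n : ℕ} (B B' : Set (Fin n → ℝ)) (A κ C0 v w d : ℝ) (j : ℕ) (hκ : 0 < κ)
    (hC0 : 0 ≤ C0) (hw : 0 < w) (hd : (n : ℝ) - v / w < d) (hd' : d ≤ n)
    (hBA : ∀ a ∈ B, ∀ i, 0 ≤ a i ∧ a i ≤ A)
    (hfat : ∀ a ∈ B, ∀ a', (∀ i, |a i - a' i| ≤ κ * (2 : ℝ) ^ (-((j : ℝ) * w))) → a' ∈ B')
    (hvol : volume B' ≤ ENNReal.ofReal (C0 * (2 : ℝ) ^ (-((j : ℝ) * v)))) :
    ∃ (L' : ℕ) (F : Finset (Fin n → ℕ)), 1 ≤ L' ∧ B ⊆ ⋃ q ∈ F, cube L' q ∧
      (1 : ℝ) / L' ≤ (κ + C0 * (1 / κ + 1) ^ ((n : ℝ) - d) + 1) *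
        (2 : ℝ) ^ (-((j : ℝ) * min (v - ((n : ℝ) - d) * w) w)) ∧
      (F.card : ℝ) * ((1 : ℝ) / L') ^ d ≤ (κ + C0 * (1 / κ + 1) ^ ((n : ℝ) - d) + 1) *
        (2 : ℝ) ^ (-((j : ℝ) * min (v - ((n : ℝ) - d) * w) w)) := by
  classical
  obtain ⟨θ, hθ⟩ : ∃ θ : ℝ, θ = v - ((n : ℝ) - d) * w := ⟨_, rfl⟩
  obtain ⟨K, hK⟩ : ∃ K : ℝ, K = 1 / κ + 1 := ⟨_, rfl⟩
  obtain ⟨κ', hκ'⟩ : ∃ κ' : ℝ, κ' = min θ w := ⟨_, rfl⟩
  rw [← hθ, ← hK, ← hκ']
  have hθ0 : 0 < θ := by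
    have h1 : (n : ℝ) - d < v / w := by linarith
    rw [lt_div_iff₀ hw] at h1
    rw [hθ]
    linarith
  have hK0 : 0 < K := by rw [hK]; positivity
  set y : ℝ := (2 : ℝ) ^ ((j : ℝ) * w) with hy
  have hy1 : 1 ≤ y := Real.one_le_rpow (by norm_num) (by positivity)
  have hy0 : 0 < y := by linarith
  set L' : ℕ := ⌈y / κ⌉₊ with hL'
  have hLge : y / κ ≤ L' := Nat.le_ceil _
  have hL1 : 1 ≤ L' := by
    rw [hL', Nat.one_le_ceil_iff]
    positivity
  have hL0 : (0 : ℝ) < L' := by exact_mod_cast hL1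
  have hLle : (L' : ℝ) ≤ K * y := by
    have h1 : (L' : ℝ) < y / κ + 1 := Nat.ceil_lt_add_one (by positivity)
    have h2 : K * y = y / κ + y := by rw [hK]; ring
    rw [h2]
    linarith
  have hLinv : (1 : ℝ) / L' ≤ κ * (2 : ℝ) ^ (-((j : ℝ) * w)) := by
    rw [Real.rpow_neg (by norm_num), ← hy]
    rw [div_le_iff₀ hL0]
    rw [div_le_iff₀ hκ] at hLge
    have h3 : κ * y⁻¹ * L' = (L' * κ) / y := by field_simp
    rw [h3, le_div_iff₀ hy0]
    linarith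
  let F : Finset (Fin n → ℕ) :=
    (Fintype.piFinset (fun _ : Fin n => Finset.range (⌊A * L'⌋₊ + 1))).filter
      (fun q => (cube L' q ∩ B).Nonempty)
  have hFS : ∀ q ∈ F, cube L' q ⊆ B' := by
    intro q hq a' ha'
    obtain ⟨a, h1, h2⟩ := (Finset.mem_filter.mp hq).2
    refine hfat a h2 a' fun i => le_trans ?_ hLinv
    have e1 := h1 i
    have e2 := ha' i
    have h3 : ((q i : ℝ) + 1) / L' = (q i : ℝ) / L' + 1 / L' := by ring
    rw [abs_le]
    constructor <;> linarith [e1.1, e1.2, e2.1, e2.2]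
  have hcount := count3 L' hL1 F B' hFS _ (by positivity) hvol
  refine ⟨L', F, hL1, ?_, ?_, ?_⟩
  · intro al hal
    have hmem : al ∈ cube L' (fun i => ⌊al i * L'⌋₊) := by
      intro i
      have hi := hBA al hal i
      have hfl := Nat.floor_le (show 0 ≤ al i * L' from mul_nonneg hi.1 hL0.le)
      have hfl2 := Nat.lt_floor_add_one (al i * L')
      constructor
      · rw [div_le_iff₀ hL0]
        exact hfl
      · rw [le_div_iff₀ hL0]
        exact hfl2.le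
    simp only [mem_iUnion, exists_prop]
    refine ⟨fun i => ⌊al i * L'⌋₊, ?_, hmem⟩
    refine Finset.mem_filter.mpr ⟨Fintype.mem_piFinset.mpr (fun i => Finset.mem_range.mpr ?_), ?_⟩
    · have hi := hBA al hal i
      exact Nat.lt_succ_of_le (Nat.floor_le_floor (mul_le_mul_of_nonneg_right hi.2 hL0.le))
    · exact ⟨al, hmem, hal⟩
  · refine hLinv.trans ?_
    have h1 : (2 : ℝ) ^ (-((j : ℝ) * w)) ≤ (2 : ℝ) ^ (-((j : ℝ) * κ')) := by
      apply Real.rpow_le_rpow_of_exponent_le (by norm_num)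
      have h2 : κ' ≤ w := by rw [hκ']; exact min_le_right _ _
      have h3 : (0 : ℝ) ≤ j := Nat.cast_nonneg _
      nlinarith
    have h4 : 0 ≤ C0 * K ^ ((n : ℝ) - d) := by positivity
    calc κ * (2 : ℝ) ^ (-((j : ℝ) * w)) ≤ κ * (2 : ℝ) ^ (-((j : ℝ) * κ')) :=
          mul_le_mul_of_nonneg_left h1 hκ.le
      _ ≤ _ := mul_le_mul_of_nonneg_right (by linarith) (by positivity)
  · have hLpow : ((1 : ℝ) / L') ^ d = ((1 : ℝ) / L') ^ n * (L' : ℝ) ^ ((n : ℝ) - d) := by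
      rw [one_div, Real.inv_rpow hL0.le, inv_pow, ← Real.rpow_natCast (L' : ℝ) n,
        ← Real.rpow_neg hL0.le, ← Real.rpow_neg hL0.le, ← Real.rpow_add hL0]
      congr 1
      ring
    have hLsd : (L' : ℝ) ^ ((n : ℝ) - d) ≤ K ^ ((n : ℝ) - d) *
        (2 : ℝ) ^ ((j : ℝ) * w * ((n : ℝ) - d)) := by
      calc (L' : ℝ) ^ ((n : ℝ) - d) ≤ (K * y) ^ ((n : ℝ) - d) :=
            Real.rpow_le_rpow hL0.le hLle (by linarith)
        _ = _ := by
            rw [Real.mul_rpow hK0.le hy0.le, hy, ← Real.rpow_mul (by norm_num)]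
    have h1 : (2 : ℝ) ^ (-((j : ℝ) * θ)) ≤ (2 : ℝ) ^ (-((j : ℝ) * κ')) := by
      apply Real.rpow_le_rpow_of_exponent_le (by norm_num)
      have h2 : κ' ≤ θ := by rw [hκ']; exact min_le_left _ _
      have h3 : (0 : ℝ) ≤ j := Nat.cast_nonneg _
      nlinarith
    calc (F.card : ℝ) * ((1 : ℝ) / L') ^ d
        = ((F.card : ℝ) * ((1 : ℝ) / L') ^ n) * (L' : ℝ) ^ ((n : ℝ) - d) := by rw [hLpow]; ring
      _ ≤ (C0 * (2 : ℝ) ^ (-((j : ℝ) * v))) * (K ^ ((n : ℝ) - d) *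
            (2 : ℝ) ^ ((j : ℝ) * w * ((n : ℝ) - d))) := by
          apply mul_le_mul hcount hLsd (by positivity) (by positivity)
      _ = C0 * K ^ ((n : ℝ) - d) * (2 : ℝ) ^ (-((j : ℝ) * θ)) := by
          have h5 : (2 : ℝ) ^ (-((j : ℝ) * θ)) = (2 : ℝ) ^ (-((j : ℝ) * v)) *
              (2 : ℝ) ^ ((j : ℝ) * w * ((n : ℝ) - d)) := by
            rw [← Real.rpow_add (by norm_num)]
            congr 1
            rw [hθ]
            ring
          rw [h5]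
          ring
      _ ≤ C0 * K ^ ((n : ℝ) - d) * (2 : ℝ) ^ (-((j : ℝ) * κ')) :=
          mul_le_mul_of_nonneg_left h1 (by positivity)
      _ ≤ _ := mul_le_mul_of_nonneg_right (by linarith) (by positivity)

/-- the dimension of the limsup set -/
theorem dim_abs {n : ℕ} (B B' : ℕ → Set (Fin n → ℝ)) (A κ C0 v w : ℝ) (j0 : ℕ) (hκ : 0 < κ)
    (hC0 : 0 ≤ C0) (hv : 0 < v) (hw : 0 < w) (hvn : v < n * w)
    (hBA : ∀ j, ∀ a ∈ B j, ∀ i, 0 ≤ a i ∧ a i ≤ A)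
    (hfat : ∀ j, j0 ≤ j → ∀ a ∈ B j, ∀ a', (∀ i, |a i - a' i| ≤ κ * (2 : ℝ) ^ (-((j : ℝ) * w))) → a' ∈ B' j)
    (hvol : ∀ j : ℕ, j0 ≤ j → volume (B' j) ≤ ENNReal.ofReal (C0 * (2 : ℝ) ^ (-((j : ℝ) * v)))) :
    dimH {a | ∃ᶠ j : ℕ in atTop, a ∈ B j} ≤ ENNReal.ofReal ((n : ℝ) - v / w) := by
  have hdpos : 0 < (n : ℝ) - v / w := by
    have : v / w < n := by rwa [div_lt_iff₀ hw]
    linarith
  have hdn : (n : ℝ) - v / w < n := by
    have : 0 < v / w := by positivity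
    linarith
  have hall : ∀ d : ℝ, (n : ℝ) - v / w < d → d ≤ n →
      dimH {a | ∃ᶠ j : ℕ in atTop, a ∈ B j} ≤ ENNReal.ofReal d := by
    intro d h1 h2
    have hθ0 : 0 < v - ((n : ℝ) - d) * w := by
      have h3 : (n : ℝ) - d < v / w := by linarith
      rw [lt_div_iff₀ hw] at h3
      linarith
    have hz := meas_zero2 B d (by linarith) (κ + C0 * (1 / κ + 1) ^ ((n : ℝ) - d) + 1)
      (min (v - ((n : ℝ) - d) * w) w) (by positivity) (lt_min hθ0 hw) j0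
      (fun j hj => cover3 (B j) (B' j) A κ C0 v w d j hκ hC0 hw h1 h2 (hBA j) (hfat j hj) (hvol j hj))
    have hdd : ((d.toNNReal : NNReal) : ℝ) = d := Real.coe_toNNReal d (by linarith)
    have h4 : Measure.hausdorffMeasure ((d.toNNReal : NNReal) : ℝ)
        {a | ∃ᶠ j : ℕ in atTop, a ∈ B j} ≠ ⊤ := by
      rw [hdd, hz]
      exact ENNReal.zero_ne_top
    exact dimH_le_of_hausdorffMeasure_ne_top h4
  have htend : Tendsto (fun d : ℝ => ENNReal.ofReal d)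
      (nhdsWithin ((n : ℝ) - v / w) (Ioi ((n : ℝ) - v / w)))
      (nhds (ENNReal.ofReal ((n : ℝ) - v / w))) :=
    (ENNReal.continuous_ofReal.tendsto _).mono_left nhdsWithin_le_nhds
  refine ge_of_tendsto htend ?_
  have hmem : Ioc ((n : ℝ) - v / w) (n : ℝ) ∈ nhdsWithin ((n : ℝ) - v / w) (Ioi ((n : ℝ) - v / w)) :=
    Ioc_mem_nhdsGT hdn
  filter_upwards [hmem] with d hd
  exact hall d hd.1 hd.2

end Pool.H19.Fc
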