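import Pool.Agent.H19.Fc.Meas

/-!
# Module HIT: if the exponent exceeds 1 + c every large target is hit

For almost every `lam ∈ Bx n L` the statement inside `Dp n f L (1/(i+1)) c 1 β` holds for every `i : ℕ` (`ae_all_iff`). Fix such `lam`
and `η > 0`; choose `i` with `1/(i+1) ≤ η/2`. Let `C` be the constant for `i`. For `τ` large choose `j` with `2^j/2 ≤ τ ≤ 2^j` and suppose
`|f x lam - τ| ≥ η τ^(-c)` for all `x`. As `τ ≤ 2^j`, `τ^(-c) ≥ δ := 2^(-cj)`. For `|τ' - τ| ≤ (η/2) δ`: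
`|f x lam - τ'| ≥ η δ - (η/2) δ ≥ (1/(i+1)) δ`, so `τ' ∈ Mi (..) ((1/(i+1)) 2^(-cj))`. The window `Icc (2^j/2) (2^j)` has length `2^j/2` and contains
`τ`, so it contains an interval of length `min ((η/2) δ) (2^j/4)` with endpoint `τ`; hence
`min ((η/2) 2^(-cj)) (2^j/4) ≤ C 2^(j(1-β))`, false for `j` large since `1 - β < -c ≤ 0`.
-/

set_option autoImplicit false

namespace Pool.H19.Fc

open MeasureTheory Set Pool.H19.Wa Pool.H48.Wt

theorem hit {ι : Type*} (n : ℕ) (f : ι → (Fin n → ℝ) → ℝ) (L c β : ℝ) (hc : 0 ≤ c) (hβ : 1 + c < β)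
    (h : ∀ η : ℝ, 0 < η → Dp n f L η c 1 β) :
    ∀ᵐ lam ∂((volume : Measure (Fin n → ℝ)).restrict (Bx n L)), ∀ η : ℝ, 0 < η → ∃ T : ℝ, ∀ τ : ℝ, T ≤ τ →
      ∃ x, |f x lam - τ| < η * τ ^ (-c) := by
  have h1 : ∀ᵐ lam ∂((volume : Measure (Fin n → ℝ)).restrict (Bx n L)), ∀ i : ℕ, ∃ C : ℝ,
      ∀ j : ℕ, volume (Mi (fun x => f x lam) ((1 / ((i : ℝ) + 1)) * (2 : ℝ) ^ (-(c * j))) ∩
        Icc ((2 : ℝ) ^ j / 2 ^ 1) ((2 : ℝ) ^ j)) ≤
        ENNReal.ofReal (C * (2 : ℝ) ^ ((j : ℝ) * (1 - β))) := by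
    rw [ae_all_iff]
    intro i
    exact h (1 / ((i : ℝ) + 1)) (by positivity)
  filter_upwards [h1] with lam hlam
  intro η hη
  obtain ⟨i, hi⟩ := exists_nat_one_div_lt (half_pos hη)
  obtain ⟨C, hC⟩ := hlam i
  -- the choice of the scale
  have hr1 : (1 : ℝ) < 2 ^ (β - 1 - c) := Real.one_lt_rpow (by norm_num) (by linarith)
  have ht1 : Filter.Tendsto (fun j : ℕ => ((2 : ℝ) ^ (β - 1 - c)) ^ j) Filter.atTop
      Filter.atTop := tendsto_pow_atTop_atTop_of_one_lt hr1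
  have ht2 : Filter.Tendsto (fun j : ℕ => (2 : ℝ) ^ j) Filter.atTop Filter.atTop :=
    tendsto_pow_atTop_atTop_of_one_lt (by norm_num)
  obtain ⟨J1, hJ1⟩ := Filter.eventually_atTop.1
    (ht1.eventually_gt_atTop (2 * C / η))
  obtain ⟨J2, hJ2⟩ := Filter.eventually_atTop.1
    (ht2.eventually_gt_atTop (4 * |C|))
  refine ⟨2 ^ (max J1 J2), fun τ hτ => ?_⟩
  by_contra hcon
  push Not at hcon
  have hτ1 : 1 ≤ τ := le_trans (one_le_pow₀ (by norm_num)) hτ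
  obtain ⟨j0, hj0, hj0'⟩ := exists_nat_pow_near hτ1 (show (1 : ℝ) < 2 by norm_num)
  set j := j0 + 1 with hj
  have hτj : τ ≤ 2 ^ j := hj0'.le
  have hτj2 : (2 : ℝ) ^ j / 2 ≤ τ := by
    rw [hj, pow_succ]
    linarith
  have hJ : max J1 J2 ≤ j := by
    have h2 : (2 : ℝ) ^ (max J1 J2) ≤ 2 ^ j := hτ.trans hτj
    exact (pow_le_pow_iff_right₀ (by norm_num)).1 h2
  have hg1 := hJ1 j ((le_max_left _ _).trans hJ)
  have hg2 := hJ2 j ((le_max_right _ _).trans hJ)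
  set δ : ℝ := (2 : ℝ) ^ (-(c * j)) with hδ
  have hδ0 : 0 < δ := Real.rpow_pos_of_pos (by norm_num) _
  have hδ1 : δ ≤ 1 := Real.rpow_le_one_of_one_le_of_nonpos (by norm_num)
    (by have : 0 ≤ c * j := by positivity
        linarith)
  have hP : (2 : ℝ) ^ ((j : ℝ) * (1 - β)) * ((2 : ℝ) ^ (β - 1 - c)) ^ j = δ := by
    rw [hδ, ← Real.rpow_natCast ((2 : ℝ) ^ (β - 1 - c)), ← Real.rpow_mul (by norm_num),
      ← Real.rpow_add (by norm_num)]
    congr 1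
    ring
  set Pj : ℝ := (2 : ℝ) ^ ((j : ℝ) * (1 - β)) with hPj
  have hPj0 : 0 < Pj := Real.rpow_pos_of_pos (by norm_num) _
  have hPj1 : Pj ≤ 1 := Real.rpow_le_one_of_one_le_of_nonpos (by norm_num)
    (mul_nonpos_of_nonneg_of_nonpos (by positivity) (by linarith))
  have hlt1 : C * Pj < η / 2 * δ := by
    rw [div_lt_iff₀ hη] at hg1
    have h3 : C < η / 2 * ((2 : ℝ) ^ (β - 1 - c)) ^ j := by linarith
    calc C * Pj < η / 2 * ((2 : ℝ) ^ (β - 1 - c)) ^ j * Pj :=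
          mul_lt_mul_of_pos_right h3 hPj0
      _ = η / 2 * (Pj * ((2 : ℝ) ^ (β - 1 - c)) ^ j) := by ring
      _ = η / 2 * δ := by rw [hP]
  have hlt2 : C * Pj < 2 ^ j / 4 := by
    have h3 : C * Pj ≤ |C| * 1 :=
      mul_le_mul (le_abs_self C) hPj1 hPj0.le (abs_nonneg _)
    linarith
  set l : ℝ := min (η / 2 * δ) ((2 : ℝ) ^ j / 4) with hl
  have hl0 : 0 < l := lt_min (by positivity) (by positivity)
  have hlt : C * Pj < l := lt_min hlt1 hlt2
  -- the missed points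
  have hmiss : ∀ τ' : ℝ, |τ' - τ| ≤ l →
      τ' ∈ Mi (fun x => f x lam) ((1 / ((i : ℝ) + 1)) * δ) := by
    intro τ' hτ' x
    have h3 : η * δ ≤ |f x lam - τ| := by
      refine le_trans ?_ (hcon x)
      refine mul_le_mul_of_nonneg_left ?_ hη.le
      have h4 : ((2 : ℝ) ^ j) ^ (-c) ≤ τ ^ (-c) :=
        Real.rpow_le_rpow_of_nonpos (by linarith) hτj (by linarith)
      refine le_trans (le_of_eq ?_) h4
      rw [hδ, ← Real.rpow_natCast (2 : ℝ) j, ← Real.rpow_mul (by norm_num)]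
      congr 1
      ring
    have h5 : |f x lam - τ| ≤ |f x lam - τ'| + |τ' - τ| := abs_sub_le _ _ _
    have h6 : l ≤ η / 2 * δ := min_le_left _ _
    have h7 : 1 / ((i : ℝ) + 1) * δ ≤ η / 2 * δ := mul_le_mul_of_nonneg_right hi.le hδ0.le
    show 1 / ((i : ℝ) + 1) * δ ≤ |f x lam - τ'|
    linarith
  have hl4 : l ≤ (2 : ℝ) ^ j / 4 := min_le_right _ _
  have hvol : ENNReal.ofReal l ≤ ENNReal.ofReal (C * Pj) := by
    refine le_trans ?_ (hC j)
    rcases le_total τ (3 * (2 : ℝ) ^ j / 4) with hc1 | hc1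
    · have h3 : ENNReal.ofReal l = volume (Icc τ (τ + l)) := by
        rw [Real.volume_Icc, add_sub_cancel_left]
      rw [h3]
      refine measure_mono fun τ' hτ' => ⟨hmiss τ' ?_, ?_, ?_⟩
      · rw [abs_of_nonneg (by linarith [hτ'.1])]
        linarith [hτ'.2]
      · rw [pow_one]
        linarith [hτ'.1]
      · linarith [hτ'.2]
    · have h3 : ENNReal.ofReal l = volume (Icc (τ - l) τ) := by
        rw [Real.volume_Icc, sub_sub_cancel]
      rw [h3]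
      refine measure_mono fun τ' hτ' => ⟨hmiss τ' ?_, ?_, ?_⟩
      · rw [abs_of_nonpos (by linarith [hτ'.2])]
        linarith [hτ'.1]
      · rw [pow_one]
        linarith [hτ'.1]
      · linarith [hτ'.2]
  rcases (ENNReal.ofReal_le_ofReal_iff').1 hvol with h8 | h8
  · linarith
  · linarith

end Pool.H19.Fc
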