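import Mathlib

/-!
# Module NUM: the numerical inequality of the main case

Let `n = k - 1 ≥ 2`. The left side is `(n/(n+1))^n (2 - 1/(n+1)) = (2n+1)/((n+1) (1+1/n)^n)`, so the claim is
`(1 + 1/n)^n > (4/3) (2n+1)/(n+1)`. For `n = 2, 3`: `9/4 > 20/9`, `64/27 > 7/3`. For `n ≥ 4`: `log (1+1/n) ≥ 2/(2n+1)`
(e.g. from `log((1+x)/(1-x)) ≥ 2x`, `x = 1/(2n+1)`: `Real.hasSum_log_sub_log_of_abs_lt_one` or
`Real.le_log_of_...`/monotonicity of `log(1+x) - 2x/(2+x)`), so `(1+1/n)^n ≥ exp(2n/(2n+1)) = e exp(-1/(2n+1)) ≥ e 2n/(2n+1)`, and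
`2.718 * 6 n (n+1) > 4 (2n+1)^2` for `n ≥ 4` (`0.308 (n^2+n) > 4`).
(Any other proof is fine, e.g. the binomial expansion `(1+1/n)^n ≥ 2 + (1/2)(1-1/n) + (1/6)(1-1/n)(1-2/n) + (1/24)(...)`.)
-/

set_option autoImplicit false

namespace Pool.H19.Fc

theorem num (k : ℕ) (hk : 3 ≤ k) : (1 - 1 / (k : ℝ)) ^ k + (1 - 1 / (k : ℝ)) ^ (k - 1) < 3 / 4 := by
  rcases Nat.lt_or_ge k 5 with h5 | h5
  · interval_cases k <;> norm_num
  · obtain ⟨n, rfl⟩ : ∃ n, k = n + 1 := ⟨k - 1, by omega⟩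
    have hn : 4 ≤ n := by omega
    have hnR : (4 : ℝ) ≤ n := by exact_mod_cast hn
    have hn0 : (0 : ℝ) < n := by linarith
    have h1 : 2 / (2 * (n : ℝ) + 1) ≤ Real.log (1 + 1 / n) := by
      have h := Real.le_log_one_add_of_nonneg (x := 1 / (n : ℝ)) (by positivity)
      have e : 2 * (1 / (n : ℝ)) / (1 / n + 2) = 2 / (2 * n + 1) := by
        field_simp
        ring
      rwa [e] at h
    have h2 : Real.exp 1 * (2 * n / (2 * n + 1)) ≤ (1 + 1 / (n : ℝ)) ^ n := by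
      have h3 : (1 + 1 / (n : ℝ)) ^ n = Real.exp (n * Real.log (1 + 1 / n)) := by
        rw [mul_comm, Real.exp_mul, Real.exp_log (by positivity), Real.rpow_natCast]
      rw [h3]
      have h4 : 1 + -(1 / (2 * (n : ℝ) + 1)) ≤ n * Real.log (1 + 1 / n) := by
        have h6 := mul_le_mul_of_nonneg_left h1 hn0.le
        have e : 1 + -(1 / (2 * (n : ℝ) + 1)) = n * (2 / (2 * n + 1)) := by
          field_simp
          ring
        rw [e]
        exact h6
      have h7 : Real.exp 1 * (2 * n / (2 * n + 1)) ≤ Real.exp (1 + -(1 / (2 * (n : ℝ) + 1))) := by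
        rw [Real.exp_add]
        apply mul_le_mul_of_nonneg_left _ (Real.exp_pos 1).le
        have h8 := Real.add_one_le_exp (-(1 / (2 * (n : ℝ) + 1)))
        have e : 2 * (n : ℝ) / (2 * n + 1) = -(1 / (2 * (n : ℝ) + 1)) + 1 := by
          field_simp
          ring
        rw [e]
        exact h8
      exact h7.trans (Real.exp_le_exp.2 h4)
    have hcast : ((n + 1 : ℕ) : ℝ) = n + 1 := by push_cast; ring
    have e1 : (1 : ℝ) - 1 / ((n + 1 : ℕ) : ℝ) = (1 + 1 / (n : ℝ))⁻¹ := by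
      rw [hcast]
      field_simp
      ring
    rw [e1]
    have e2 : n + 1 - 1 = n := by omega
    rw [e2, pow_succ, inv_pow]
    set E := (1 + 1 / (n : ℝ)) ^ n with hE
    have hE0 : 0 < E := by positivity
    have he : (2.7182 : ℝ) < Real.exp 1 := by
      have := Real.exp_one_gt_d9
      linarith
    have h9 : 2.7182 * (2 * n / (2 * n + 1)) < E := by
      refine lt_of_lt_of_le ?_ h2
      exact mul_lt_mul_of_pos_right he (by positivity)
    have e3 : (1 + 1 / (n : ℝ))⁻¹ = n / (n + 1) := by field_simp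
    rw [e3]
    have e4 : E⁻¹ * ((n : ℝ) / (n + 1)) + E⁻¹ = (2 * n + 1) / ((n + 1) * E) := by
      field_simp
      ring
    rw [e4, div_lt_div_iff₀ (by positivity) (by norm_num)]
    have h10 : (2 * (n : ℝ) + 1) * 4 ≤ 3 * ((n + 1) * (2.7182 * (2 * n / (2 * n + 1)))) := by
      have e5 : 3 * (((n : ℝ) + 1) * (2.7182 * (2 * n / (2 * n + 1)))) =
          (3 * (n + 1) * (2.7182 * (2 * n))) / (2 * n + 1) := by
        field_simp
      rw [e5, le_div_iff₀ (by positivity)]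
      nlinarith
    nlinarith

end Pool.H19.Fc
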