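import Pool.Agent.H19.Fc.Iter
import Pool.Agent.H19.Fc.Hit
import Pool.Agent.H19.Fc.Num

/-!
# Module FINAL: the theorems

`general`: `hit` for every `L = 1, 2, 3, ...` (with `β` between `1 + c` and `2^t d`, `iter` at `s = 1`); `ae_restrict_iff'`
(`measurableSet_Bx`), `ae_all_iff`; a `lam` with positive coordinates lies in `Bx (m+t) L` for some natural `L ≥ 1`. `m ≥ 1` because for `m = 0`
the hypothesis fails (`θ_0 > 0`, `c ≥ 0`).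
`main3`: `m = 1`, `t = 2`, `u = ![k, k-1]`, `c = 0`, `num`.
-/

set_option autoImplicit false

namespace Pool.H19.Fc

open MeasureTheory Set Pool.H19.Wa Pool.H48.Wt

theorem mem_Bx_of_pos {n : ℕ} (lam : Fin n → ℝ) (h : ∀ i, 0 < lam i) :
    ∃ L : ℕ, lam ∈ Bx n ((L : ℝ) + 1) := by
  obtain ⟨L, hL⟩ := exists_nat_ge (∑ i, (lam i + (lam i)⁻¹))
  have hi : ∀ i, lam i ≤ L ∧ (lam i)⁻¹ ≤ L := by
    intro i
    have h1 : lam i + (lam i)⁻¹ ≤ ∑ i, (lam i + (lam i)⁻¹) :=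
      Finset.single_le_sum (f := fun i => lam i + (lam i)⁻¹)
        (fun i _ => (add_pos (h i) (inv_pos.mpr (h i))).le) (Finset.mem_univ i)
    have h2 := h i
    have h3 := inv_pos.mpr (h i)
    constructor <;> linarith
  refine ⟨L, fun i _ => ⟨?_, ?_⟩⟩
  · have h3 := inv_pos.mpr (h i)
    have h4 : (lam i)⁻¹ ≤ (L : ℝ) + 1 := by linarith [(hi i).2]
    calc ((L : ℝ) + 1)⁻¹ ≤ ((lam i)⁻¹)⁻¹ := inv_anti₀ h3 h4
      _ = lam i := inv_inv _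
  · linarith [(hi i).1]

theorem general (k m t : ℕ) (u : Fin (m + 1) → ℕ) (c : ℝ) (hk : 2 ≤ k) (hu : ∀ i, 1 ≤ u i)
    (hu0 : ∀ i, u i ≤ u 0) (hc : 0 ≤ c)
    (h : 1 + c < 2 ^ t * ((m : ℝ) - c - ∑ i, (1 - 1 / (k : ℝ)) ^ (u i))) :
    ∀ᵐ lam : Fin (m + t) → ℝ, (∀ i, 0 < lam i) → ∀ η : ℝ, 0 < η → ∃ T : ℝ, ∀ τ : ℝ, T ≤ τ →
      ∃ (x : (i : Fin (m + 1)) → Fin (u i) → ℕ) (w : Fin t → ℕ),
        |∑ j, (x 0 j : ℝ) ^ k + ∑ i : Fin m, lam (Fin.castAdd t i) * ∑ j, (x i.succ j : ℝ) ^ k +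
          ∑ j : Fin t, lam (Fin.natAdd m j) * (w j : ℝ) ^ k - τ| < η * τ ^ (-c) := by
  have hθ : 0 ≤ 1 - 1 / (k : ℝ) := by
    have hk0 : (0 : ℝ) < k := by exact_mod_cast (by omega : 0 < k)
    have : 1 / (k : ℝ) ≤ 1 := by
      rw [div_le_one hk0]
      exact_mod_cast (by omega : 1 ≤ k)
    linarith
  have hm : 1 ≤ m := by
    by_contra hcon
    have hm0 : m = 0 := by omega
    subst hm0
    have h1 : 0 ≤ ∑ i : Fin (0 + 1), (1 - 1 / (k : ℝ)) ^ (u i) :=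
      Finset.sum_nonneg fun i _ => pow_nonneg hθ _
    have h2 : ((0 : ℕ) : ℝ) - c - ∑ i : Fin (0 + 1), (1 - 1 / (k : ℝ)) ^ (u i) ≤ 0 := by
      push_cast
      linarith
    have h3 : (0 : ℝ) < 2 ^ t := by positivity
    nlinarith
  obtain ⟨β, hβ1, hβ2⟩ := exists_between h
  have hall : ∀ L : ℕ, ∀ᵐ lam : Fin (m + t) → ℝ, lam ∈ Bx (m + t) ((L : ℝ) + 1) →
      ∀ η : ℝ, 0 < η → ∃ T : ℝ, ∀ τ : ℝ, T ≤ τ → ∃ x, |fam k u t x lam - τ| < η * τ ^ (-c) := by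
    intro L
    have hL : (1 : ℝ) ≤ (L : ℝ) + 1 := by
      have : (0 : ℝ) ≤ L := Nat.cast_nonneg L
      linarith
    rw [← ae_restrict_iff' (measurableSet_Bx _ _)]
    exact hit (m + t) (fam k u t) _ c β hc hβ1 fun η hη =>
      iter k m hk hm u hu hu0 _ η c hL hη hc t 1 β hβ2
  filter_upwards [ae_all_iff.mpr hall] with lam hlam hpos η hη
  obtain ⟨L, hL⟩ := mem_Bx_of_pos lam hpos
  obtain ⟨T, hT⟩ := hlam L hL η hη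
  refine ⟨T, fun τ hτ => ?_⟩
  obtain ⟨p, hp⟩ := hT τ hτ
  exact ⟨p.1, p.2, hp⟩

theorem main3 (k : ℕ) (hk : 3 ≤ k) :
    ∀ᵐ lam : Fin 3 → ℝ, (∀ i, 0 < lam i) → ∀ η : ℝ, 0 < η → ∃ T : ℝ, ∀ τ : ℝ, T ≤ τ →
      ∃ (x : Fin k → ℕ) (y : Fin (k - 1) → ℕ) (z w : ℕ),
        |∑ i, (x i : ℝ) ^ k + lam 0 * ∑ i, (y i : ℝ) ^ k + lam 1 * (z : ℝ) ^ k + lam 2 * (w : ℝ) ^ k - τ| < η := by
  have hnum := num k hk
  have h := general k 1 2 ![k, k - 1] 0 (by omega) (by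
      intro i
      fin_cases i
      · show 1 ≤ k
        omega
      · show 1 ≤ k - 1
        omega) (by
      intro i
      fin_cases i
      · exact le_rfl
      · show k - 1 ≤ k
        omega) le_rfl (by
      rw [Fin.sum_univ_two]
      show (1 : ℝ) + 0 < 2 ^ 2 * (((1 : ℕ) : ℝ) - 0 - ((1 - 1 / (k : ℝ)) ^ k + (1 - 1 / (k : ℝ)) ^ (k - 1)))
      push_cast
      linarith)
  have h' : ∀ᵐ lam : Fin 3 → ℝ, (∀ i, 0 < lam i) → ∀ η : ℝ, 0 < η → ∃ T : ℝ, ∀ τ : ℝ, T ≤ τ →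
      ∃ (x : (i : Fin (1 + 1)) → Fin ((![k, k - 1] : Fin (1 + 1) → ℕ) i) → ℕ) (w : Fin 2 → ℕ),
        |∑ j, (x 0 j : ℝ) ^ k + ∑ i : Fin 1, lam (Fin.castAdd 2 i) * ∑ j, (x i.succ j : ℝ) ^ k +
          ∑ j : Fin 2, lam (Fin.natAdd 1 j) * (w j : ℝ) ^ k - τ| < η * τ ^ (-(0 : ℝ)) := h
  filter_upwards [h'] with lam hlam hpos η hη
  obtain ⟨T, hT⟩ := hlam hpos η hη
  refine ⟨T, fun τ hτ => ?_⟩
  obtain ⟨x, w, hx⟩ := hT τ hτ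
  refine ⟨x 0, x 1, w 0, w 1, ?_⟩
  rw [neg_zero, Real.rpow_zero, mul_one] at hx
  have e1 : ∑ j : Fin 2, lam (Fin.natAdd 1 j) * (w j : ℝ) ^ k =
      lam 1 * (w 0 : ℝ) ^ k + lam 2 * (w 1 : ℝ) ^ k := by
    rw [Fin.sum_univ_two]
    rfl
  have e2 : ∑ i : Fin 1, lam (Fin.castAdd 2 i) * ∑ j, (x i.succ j : ℝ) ^ k =
      lam 0 * ∑ j : Fin (k - 1), (x 1 j : ℝ) ^ k := by
    rw [Fin.sum_univ_one]
    rfl
  rw [e1, e2] at hx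
  have e3 : ∑ i : Fin k, (x 0 i : ℝ) ^ k + lam 0 * ∑ i : Fin (k - 1), (x 1 i : ℝ) ^ k + lam 1 * (w 0 : ℝ) ^ k +
      lam 2 * (w 1 : ℝ) ^ k - τ = ∑ j, (x 0 j : ℝ) ^ k + lam 0 * ∑ j : Fin (k - 1), (x 1 j : ℝ) ^ k +
      (lam 1 * (w 0 : ℝ) ^ k + lam 2 * (w 1 : ℝ) ^ k) - τ := by
    show _ = ∑ j : Fin k, (x 0 j : ℝ) ^ k + _ + _ - τ
    ring
  rw [e3]
  exact hx

end Pool.H19.Fc
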