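import Pool.Agent.H19.Fc.Sq
import Pool.Agent.H19.Wb.Abs

/-!
# Module STEP: one more generic coefficient doubles the exponent

`ae_snoc`: `(μ, lam) ↦ Fin.snoc lam μ` preserves Lebesgue measure (`volume_preserving_piFinSuccAbove (fun _ => ℝ) (Fin.last n)` or
`MeasurableEquiv.piFinSuccAbove`), and maps `Icc L⁻¹ L ×ˢ Bx n L` to `Bx (n+1) L`. For a measurable property it is enough that for
almost every `lam` almost every `μ` has it (`Measure.measure_prod_null`, `Measure.ae_ae_comm`; the same is proved for `Fin.cons` in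
`Pool/Agent/H19/Wb/Step.lean`, `ae_cons`).
`step_Dp`: `∃ C : ℝ` may be replaced by `∃ C : ℕ` (monotonicity), so the event is measurable (`meas_vol`, countable union of
countable intersections). For almost every `lam ∈ Bx n L` take `C` from `h`, then `step_int` with `g = fun x => f x lam`, then
`Pool.H19.Wb.ae_bound` for the measure `volume.restrict (Icc L⁻¹ L)` with `θ = 1 - 2β < θ' = 1 - β'` (measurability in `μ`: `meas_vol_one`).
-/

set_option autoImplicit false

namespace Pool.H19.Fc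

open MeasureTheory Set Pool.H19.Wa Pool.H48.Wt

theorem ae_snoc (n : ℕ) (L : ℝ) (p : (Fin (n + 1) → ℝ) → Prop) (hp : MeasurableSet {lam | p lam})
    (h : ∀ᵐ lam ∂((volume : Measure (Fin n → ℝ)).restrict (Bx n L)),
      ∀ᵐ μ ∂((volume : Measure ℝ).restrict (Icc L⁻¹ L)), p (Fin.snoc lam μ)) :
    ∀ᵐ lam ∂((volume : Measure (Fin (n + 1) → ℝ)).restrict (Bx (n + 1) L)), p lam := by
  set ν : Measure ℝ := (volume : Measure ℝ).restrict (Icc L⁻¹ L) with hν
  have hBx : ∀ m : ℕ, (volume : Measure (Fin m → ℝ)).restrict (Bx m L) =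
      Measure.pi (fun _ : Fin m => ν) := by
    intro m
    rw [volume_pi]
    exact Measure.restrict_pi_pi (fun _ : Fin m => (volume : Measure ℝ)) (fun _ => Icc L⁻¹ L)
  rw [hBx] at h
  rw [hBx]
  have hmp := measurePreserving_piFinSuccAbove (fun _ : Fin (n + 1) => ν) (Fin.last n)
  have hms : MeasurableSet {x : ℝ × (Fin n → ℝ) | p (Fin.snoc (α := fun _ => ℝ) x.2 x.1)} := by
    have : Measurable (fun x : ℝ × (Fin n → ℝ) => (Fin.snoc (α := fun _ => ℝ) x.2 x.1 :
        Fin (n + 1) → ℝ)) := by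
      rw [measurable_pi_iff]
      intro i
      refine Fin.lastCases ?_ (fun i => ?_) i
      · simp only [Fin.snoc_last]
        exact measurable_fst
      · simp only [Fin.snoc_castSucc]
        exact (measurable_pi_apply i).comp measurable_snd
    exact this hp
  have h1 : ∀ᵐ μ ∂ν, ∀ᵐ lam ∂(Measure.pi (fun _ : Fin n => ν)),
      p (Fin.snoc (α := fun _ => ℝ) lam μ) := by
    rw [Measure.ae_ae_comm hms]
    exact h
  have h2 : ∀ᵐ x ∂(ν.prod (Measure.pi (fun _ : Fin n => ν))),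
      p (Fin.snoc (α := fun _ => ℝ) x.2 x.1) := by
    rw [Measure.ae_prod_iff_ae_ae hms]
    exact h1
  have h3 := hmp.quasiMeasurePreserving.ae
    (p := fun x : ℝ × (Fin n → ℝ) => p (Fin.snoc (α := fun _ => ℝ) x.2 x.1)) h2
  filter_upwards [h3] with a ha
  have e : (Fin.snoc (α := fun _ => ℝ)
      (MeasurableEquiv.piFinSuccAbove (fun _ : Fin (n + 1) => ℝ) (Fin.last n) a).2
      (MeasurableEquiv.piFinSuccAbove (fun _ : Fin (n + 1) => ℝ) (Fin.last n) a).1 :
      Fin (n + 1) → ℝ) = a := by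
    funext i
    refine Fin.lastCases ?_ (fun i => ?_) i
    · simp [MeasurableEquiv.piFinSuccAbove]
    · rw [Fin.snoc_castSucc]
      change a ((Fin.last n).succAbove i) = a i.castSucc
      rw [Fin.succAbove_last]
  rw [e] at ha
  exact ha

theorem step_Dp {ι : Type*} [Countable ι] (k : ℕ) (hk : 1 ≤ k) (n : ℕ) (f : ι → (Fin n → ℝ) → ℝ)
    (hf : ∀ x, Measurable (f x)) (L η c : ℝ) (hL : 1 ≤ L) (s : ℕ) (β β' : ℝ) (hβ : β' < 2 * β)
    (h : Dp n f L η c (s + 1) β) :
    Dp (n + 1) (fun (p : ℕ × ι) (lam : Fin (n + 1) → ℝ) =>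
      lam (Fin.last n) * (p.1 : ℝ) ^ k + f p.2 (fun i => lam i.castSucc)) L η c s β' := by
  set F : (ℕ × ι) → (Fin (n + 1) → ℝ) → ℝ := fun p lam =>
    lam (Fin.last n) * (p.1 : ℝ) ^ k + f p.2 (fun i => lam i.castSucc) with hF
  have hFm : ∀ p, Measurable (F p) := by
    intro p
    simp only [hF]
    refine ((measurable_pi_apply _).mul_const _).add ((hf p.2).comp ?_)
    rw [measurable_pi_iff]
    intro i
    exact measurable_pi_apply _
  have key : ∀ᵐ lam ∂((volume : Measure (Fin (n + 1) → ℝ)).restrict (Bx (n + 1) L)), ∃ C : ℕ,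
      ∀ j : ℕ, volume (Mi (fun x => F x lam) (η * (2 : ℝ) ^ (-(c * j))) ∩
        Icc ((2 : ℝ) ^ j / 2 ^ s) ((2 : ℝ) ^ j)) ≤
      ENNReal.ofReal ((C : ℝ) * (2 : ℝ) ^ ((j : ℝ) * (1 - β'))) := by
    apply ae_snoc
    · have : {lam : Fin (n + 1) → ℝ | ∃ C : ℕ,
          ∀ j : ℕ, volume (Mi (fun x => F x lam) (η * (2 : ℝ) ^ (-(c * j))) ∩
            Icc ((2 : ℝ) ^ j / 2 ^ s) ((2 : ℝ) ^ j)) ≤
          ENNReal.ofReal ((C : ℝ) * (2 : ℝ) ^ ((j : ℝ) * (1 - β')))} =
          ⋃ C : ℕ, ⋂ j : ℕ, {lam | volume (Mi (fun x => F x lam) (η * (2 : ℝ) ^ (-(c * j))) ∩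
            Icc ((2 : ℝ) ^ j / 2 ^ s) ((2 : ℝ) ^ j)) ≤
          ENNReal.ofReal ((C : ℝ) * (2 : ℝ) ^ ((j : ℝ) * (1 - β')))} := by
        ext a; simp
      rw [this]
      exact MeasurableSet.iUnion fun C => MeasurableSet.iInter fun j =>
        measurableSet_le (meas_vol F hFm _ measurableSet_Icc) measurable_const
    · filter_upwards [h] with lam ⟨C, hC⟩
      obtain ⟨C', j0, hC'⟩ := step_int k hk (fun x => f x lam) L η c hL s β C hC
      have hb := Pool.H19.Wb.ae_bound ((volume : Measure ℝ).restrict (Icc L⁻¹ L))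
        (fun j μ => volume (Mi (fun p : ℕ × ι => μ * (p.1 : ℝ) ^ k + f p.2 lam)
          (η * (2 : ℝ) ^ (-(c * j))) ∩ Icc ((2 : ℝ) ^ j / 2 ^ s) ((2 : ℝ) ^ j)))
        (fun j => meas_vol_one k (fun x => f x lam) _ measurableSet_Icc)
        C' (1 - 2 * β) (1 - β') j0 hC' (by linarith) (fun j μ =>
          (measure_mono inter_subset_right).trans_lt (by simp [Real.volume_Icc]))
      filter_upwards [hb] with μ ⟨C1, hC1, hC2⟩
      obtain ⟨N, hN⟩ := exists_nat_ge C1
      refine ⟨N, fun j => ?_⟩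
      have e : (fun x => F x (Fin.snoc (α := fun _ => ℝ) lam μ)) =
          (fun p : ℕ × ι => μ * (p.1 : ℝ) ^ k + f p.2 lam) := by
        funext p
        simp [hF]
      rw [e]
      refine (hC2 j).trans (ENNReal.ofReal_le_ofReal ?_)
      exact mul_le_mul_of_nonneg_right hN (by positivity)
  filter_upwards [key] with lam ⟨C, hC⟩
  exact ⟨C, hC⟩

end Pool.H19.Fc
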