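import Pool.Agent.H19.Fc.BaseDp
import Pool.Agent.H19.Fc.Step

/-!
# Module ITER: all the coefficients

Induction on `t` (statement for all `s`, `β`). `t = 0`: `base_Dp` and `Dp_mono` (`m + 0` is `m` by definition, `Fin.castAdd 0 i = i`; the second
component of the index is the empty tuple). `t + 1`: given `β' < 2^(t+1) d` choose `β < 2^t d` with `β' < 2 β`; `step_Dp` for `n = m + t`,
`f = fam k u t` (measurable, countable index type) at `s + 1`, and `Dp_mono`: the new family
`lam (last) * w^k + fam k u t (x, w') (lam ∘ castSucc)` has the value `fam k u (t+1) (x, Fin.snoc w' w) lam`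
(`Fin.sum_univ_castSucc`, `Fin.natAdd_castSucc`, `Fin.natAdd_last`).
-/

set_option autoImplicit false

namespace Pool.H19.Fc

open MeasureTheory Set Pool.H19.Wa Pool.H48.Wt

noncomputable section

/-- the family with `t` further variables -/
def fam (k : ℕ) {m : ℕ} (u : Fin (m + 1) → ℕ) (t : ℕ)
    (p : ((i : Fin (m + 1)) → Fin (u i) → ℕ) × (Fin t → ℕ)) (lam : Fin (m + t) → ℝ) : ℝ :=
  val k u p.1 (fun i => lam (Fin.castAdd t i)) + ∑ j : Fin t, lam (Fin.natAdd m j) * (p.2 j : ℝ) ^ k

end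

theorem iter (k m : ℕ) (hk : 2 ≤ k) (hm : 1 ≤ m) (u : Fin (m + 1) → ℕ) (hu : ∀ i, 1 ≤ u i)
    (hu0 : ∀ i, u i ≤ u 0) (L η c : ℝ) (hL : 1 ≤ L) (hη : 0 < η) (hc : 0 ≤ c) (t : ℕ) :
    ∀ (s : ℕ) (β : ℝ), β < 2 ^ t * ((m : ℝ) - c - ∑ i, (1 - 1 / (k : ℝ)) ^ (u i)) →
      Dp (m + t) (fam k u t) L η c s β := by
  induction t with
  | zero =>
    intro s β hβ
    rw [pow_zero, one_mul] at hβ
    have h := base_Dp k m s hk hm u hu hu0 L η c β hL hη hc hβ
    refine Dp_mono (n := m) (fam k u 0) (val k u) ?_ h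
    intro lam x'
    refine ⟨(x', Fin.elim0), ?_⟩
    unfold fam
    rw [Finset.univ_eq_empty, Finset.sum_empty, add_zero]
    rfl
  | succ t ih =>
    intro s β' hβ
    set d : ℝ := (m : ℝ) - c - ∑ i, (1 - 1 / (k : ℝ)) ^ (u i) with hd
    have h1 : β' / 2 < 2 ^ t * d := by
      rw [pow_succ] at hβ
      linarith
    have h2 := ih (s + 1) ((β' / 2 + 2 ^ t * d) / 2) (by linarith)
    have hf : ∀ x, Measurable (fam k u t x) := by
      intro x
      unfold fam
      refine Measurable.add ?_ ?_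
      · exact (measurable_val k u x.1).comp (measurable_pi_lambda _ fun i => measurable_pi_apply _)
      · refine Finset.measurable_sum _ fun j _ => ?_
        exact (measurable_pi_apply _).mul_const _
    have h3 := step_Dp k (by omega) (m + t) (fam k u t) hf L η c hL s
      ((β' / 2 + 2 ^ t * d) / 2) β' (by linarith) h2
    refine Dp_mono (fam k u (t + 1)) _ ?_ h3
    rintro lam ⟨w, x, y⟩
    refine ⟨(x, Fin.snoc y w), ?_⟩
    unfold fam
    simp only
    rw [Fin.sum_univ_castSucc, Fin.snoc_last]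
    simp only [Fin.snoc_castSucc]
    have e1 : (fun i => lam (Fin.castAdd (t + 1) i)) = fun i => lam (Fin.castAdd t i).castSucc := rfl
    have e2 : ∀ j : Fin t, lam (Fin.natAdd m j.castSucc) = lam (Fin.natAdd m j).castSucc := fun _ => rfl
    have e3 : lam (Fin.natAdd m (Fin.last t)) = lam (Fin.last (m + t)) := rfl
    rw [e1, e3]
    simp only [e2]
    ring

end Pool.H19.Fc
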