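import Pool.Agent.H19.Fc.QStep
import Pool.Agent.H19.Fc.Iter

/-!
# Tail bounds for the whole family
-/

set_option autoImplicit false

namespace Pool.H19.Fc

open MeasureTheory Set Pool.H19.Wa Pool.H48.Wt

theorem Qp_mono {ι ι' : Type*} {n : ℕ} (f : ι → (Fin n → ℝ) → ℝ) (f' : ι' → (Fin n → ℝ) → ℝ)
    (h : ∀ lam x', ∃ x, f x lam = f' x' lam) {L η c β v : ℝ} {s : ℕ} (hd : Qp n f' L η c s β v) :
    Qp n f L η c s β v := by
  obtain ⟨C, hC, j0, hj0⟩ := hd
  refine ⟨C, hC, j0, fun j hj => (measure_mono ?_).trans (hj0 j hj)⟩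
  rintro lam ⟨h1, h2⟩
  refine ⟨h1, lt_of_lt_of_le h2 (measure_mono (inter_subset_inter_left _ ?_))⟩
  intro τ hτ x'
  obtain ⟨x, hx⟩ := h lam x'
  have h3 : η * 2 ^ (-(c * (j : ℝ))) ≤ |f x lam - τ| := hτ x
  rw [hx] at h3
  exact h3

theorem measurable_fam (k : ℕ) {m : ℕ} (u : Fin (m + 1) → ℕ) (t : ℕ)
    (x : ((i : Fin (m + 1)) → Fin (u i) → ℕ) × (Fin t → ℕ)) : Measurable (fam k u t x) := by
  unfold fam
  refine Measurable.add ?_ ?_
  · exact (measurable_val k u x.1).comp (measurable_pi_lambda _ fun i => measurable_pi_apply _)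
  · refine Finset.measurable_sum _ fun j _ => ?_
    exact (measurable_pi_apply _).mul_const _

theorem iter_Qp (k m : ℕ) (hk : 2 ≤ k) (hm : 1 ≤ m) (u : Fin (m + 1) → ℕ) (hu : ∀ i, 1 ≤ u i)
    (hu0 : ∀ i, u i ≤ u 0) (L η c v : ℝ) (hL : 1 ≤ L) (hη : 0 < η) (hc : 0 ≤ c) (t : ℕ) :
    ∀ (s : ℕ) (β : ℝ), β + (2 ^ (t + 1) - 1) * v < 2 ^ t * ((m : ℝ) - c - ∑ i, (1 - 1 / (k : ℝ)) ^ (u i)) →
      Qp (m + t) (fam k u t) L η c s β v := by
  induction t with
  | zero =>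
    intro s β hβ
    have hβ' : β + v < (m : ℝ) - c - ∑ i, (1 - 1 / (k : ℝ)) ^ (u i) := by
      norm_num at hβ
      simpa using hβ
    have h := base_Qp k m s hk hm u hu hu0 L η c β v hL hη hc hβ'
    refine Qp_mono (n := m) (fam k u 0) (val k u) ?_ h
    intro lam x'
    refine ⟨(x', Fin.elim0), ?_⟩
    unfold fam
    rw [Finset.univ_eq_empty, Finset.sum_empty, add_zero]
    rfl
  | succ t ih =>
    intro s β' hβ
    set d : ℝ := (m : ℝ) - c - ∑ i, (1 - 1 / (k : ℝ)) ^ (u i) with hd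
    have h2 := ih (s + 1) ((β' + v) / 2) (by
      have e1 : (2 : ℝ) ^ (t + 1 + 1) = 2 * (2 * 2 ^ t) := by ring
      have e2 : (2 : ℝ) ^ (t + 1) = 2 * 2 ^ t := by ring
      rw [e1, e2] at hβ
      rw [e2]
      linarith)
    have h3 := step_Qp k (by omega) (m + t) (fam k u t) (measurable_fam k u t) L η c hL s
      ((β' + v) / 2) β' v (by linarith) h2
    refine Qp_mono (fam k u (t + 1)) _ ?_ h3
    rintro lam ⟨w, x, y⟩
    refine ⟨(x, Fin.snoc y w), ?_⟩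
    unfold fam
    simp only
    rw [Fin.sum_univ_castSucc, Fin.snoc_last]
    simp only [Fin.snoc_castSucc]
    have e1 : (fun i => lam (Fin.castAdd (t + 1) i)) = fun i => lam (Fin.castAdd t i).castSucc := rfl
    have e2 : ∀ j : Fin t, lam (Fin.natAdd m j.castSucc) = lam (Fin.natAdd m j).castSucc := fun _ => rfl
    have e3 : lam (Fin.natAdd m (Fin.last t)) = lam (Fin.last (m + t)) := rfl
    rw [e1, e3]
    simp only [e2]
    ring

end Pool.H19.Fc
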