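import Pool.Agent.H19.Fc.Iter

/-!
# Stability of a missed target under small changes of the coefficients
-/

set_option autoImplicit false

namespace Pool.H19.Fc

open MeasureTheory Set Pool.H19.Wa Pool.H48.Wt

/-- relative Lipschitz bound -/
theorem fam_lip (k : ℕ) {m : ℕ} (u : Fin (m + 1) → ℕ) (t : ℕ)
    (p : ((i : Fin (m + 1)) → Fin (u i) → ℕ) × (Fin t → ℕ)) (lam lam' : Fin (m + t) → ℝ) (L ρ : ℝ)
    (hL : 1 ≤ L) (hρ : 0 ≤ ρ) (hlam' : lam' ∈ Bx (m + t) L) (h : ∀ i, |lam i - lam' i| ≤ ρ) :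
    |fam k u t p lam - fam k u t p lam'| ≤ ρ * L * fam k u t p lam' := by
  have hL0 : 0 < L := by linarith
  have hl' : ∀ i, L⁻¹ ≤ lam' i := fun i => (hlam' i (mem_univ i)).1
  have hkey : ∀ (i : Fin (m + t)) (S : ℝ), 0 ≤ S → |lam i * S - lam' i * S| ≤ ρ * L * (lam' i * S) := by
    intro i S hS
    have h1 : 1 ≤ L * lam' i := by
      have := mul_le_mul_of_nonneg_left (hl' i) hL0.le
      rwa [mul_inv_cancel₀ hL0.ne'] at this
    rw [← sub_mul, abs_mul, abs_of_nonneg hS]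
    calc |lam i - lam' i| * S ≤ ρ * S := mul_le_mul_of_nonneg_right (h i) hS
      _ = ρ * 1 * S := by ring
      _ ≤ ρ * (L * lam' i) * S := by gcongr
      _ = _ := by ring
  have hA : 0 ≤ ∑ j, (p.1 0 j : ℝ) ^ k := Finset.sum_nonneg fun j _ => by positivity
  unfold fam val
  have e1 : (∑ j, (p.1 0 j : ℝ) ^ k + ∑ i : Fin m, lam (Fin.castAdd t i) * ∑ j, (p.1 i.succ j : ℝ) ^ k +
      ∑ j : Fin t, lam (Fin.natAdd m j) * (p.2 j : ℝ) ^ k) -
      (∑ j, (p.1 0 j : ℝ) ^ k + ∑ i : Fin m, lam' (Fin.castAdd t i) * ∑ j, (p.1 i.succ j : ℝ) ^ k +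
      ∑ j : Fin t, lam' (Fin.natAdd m j) * (p.2 j : ℝ) ^ k) =
      ∑ i : Fin m, (lam (Fin.castAdd t i) * ∑ j, (p.1 i.succ j : ℝ) ^ k -
        lam' (Fin.castAdd t i) * ∑ j, (p.1 i.succ j : ℝ) ^ k) +
      ∑ j : Fin t, (lam (Fin.natAdd m j) * (p.2 j : ℝ) ^ k - lam' (Fin.natAdd m j) * (p.2 j : ℝ) ^ k) := by
    rw [Finset.sum_sub_distrib, Finset.sum_sub_distrib]
    ring
  rw [e1]
  have h1 : |∑ i : Fin m, (lam (Fin.castAdd t i) * ∑ j, (p.1 i.succ j : ℝ) ^ k -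
        lam' (Fin.castAdd t i) * ∑ j, (p.1 i.succ j : ℝ) ^ k)| ≤
      ρ * L * ∑ i : Fin m, lam' (Fin.castAdd t i) * ∑ j, (p.1 i.succ j : ℝ) ^ k := by
    rw [Finset.mul_sum]
    exact (Finset.abs_sum_le_sum_abs _ _).trans (Finset.sum_le_sum fun i _ =>
      hkey _ _ (Finset.sum_nonneg fun j _ => by positivity))
  have h2 : |∑ j : Fin t, (lam (Fin.natAdd m j) * (p.2 j : ℝ) ^ k -
        lam' (Fin.natAdd m j) * (p.2 j : ℝ) ^ k)| ≤
      ρ * L * ∑ j : Fin t, lam' (Fin.natAdd m j) * (p.2 j : ℝ) ^ k := by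
    rw [Finset.mul_sum]
    exact (Finset.abs_sum_le_sum_abs _ _).trans (Finset.sum_le_sum fun i _ => hkey _ _ (by positivity))
  have h3 : 0 ≤ ρ * L * ∑ j, (p.1 0 j : ℝ) ^ k := by positivity
  calc _ ≤ |∑ i : Fin m, (lam (Fin.castAdd t i) * ∑ j, (p.1 i.succ j : ℝ) ^ k -
        lam' (Fin.castAdd t i) * ∑ j, (p.1 i.succ j : ℝ) ^ k)| +
      |∑ j : Fin t, (lam (Fin.natAdd m j) * (p.2 j : ℝ) ^ k - lam' (Fin.natAdd m j) * (p.2 j : ℝ) ^ k)| :=
        abs_add_le _ _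
    _ ≤ _ := by
        rw [mul_add, mul_add]
        linarith

/-- a missed target stays missed, with half the radius, on an interval -/
theorem stab (k : ℕ) {m : ℕ} (u : Fin (m + 1) → ℕ) (t : ℕ) (lam lam' : Fin (m + t) → ℝ) (L ρ r τ Z : ℝ)
    (hL : 1 ≤ L) (hρ : 0 ≤ ρ) (hr : 0 < r) (hrZ : r ≤ Z) (hlam' : lam' ∈ Bx (m + t) L)
    (h : ∀ i, |lam i - lam' i| ≤ ρ) (hρr : ρ * L * (2 * Z) ≤ r / 4) (hτ : τ ∈ Icc (Z / 2) Z)
    (hmiss : ∀ p, r ≤ |fam k u t p lam - τ|) :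
    ENNReal.ofReal (r / 4) ≤ volume (Mi (fun p => fam k u t p lam') (r / 2) ∩ Icc (Z / 2) Z) := by
  have hZ : 0 < Z := lt_of_lt_of_le hr hrZ
  have hL0 : 0 < L := by linarith
  have hM : ∀ τ' : ℝ, |τ' - τ| ≤ r / 4 → τ' ∈ Mi (fun p => fam k u t p lam') (r / 2) := by
    intro τ' hτ' p
    show r / 2 ≤ |fam k u t p lam' - τ'|
    have h1 := abs_le.mp hτ'
    by_cases hbig : fam k u t p lam' ≤ 2 * Z
    · have h2 := fam_lip k u t p lam lam' L ρ hL hρ hlam' h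
      have h3 : ρ * L * fam k u t p lam' ≤ r / 4 :=
        (mul_le_mul_of_nonneg_left hbig (by positivity)).trans hρr
      have h4 := hmiss p
      have h5 : |fam k u t p lam - τ| ≤ |fam k u t p lam - fam k u t p lam'| +
          |fam k u t p lam' - τ'| + |τ' - τ| := by
        have e : fam k u t p lam - τ = (fam k u t p lam - fam k u t p lam') +
            (fam k u t p lam' - τ') + (τ' - τ) := by ring
        rw [e]
        exact (abs_add_le _ _).trans (by gcongr; exact abs_add_le _ _)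
      linarith
    · push Not at hbig
      have h2 : r / 2 ≤ fam k u t p lam' - τ' := by linarith [hτ.2]
      exact h2.trans (le_abs_self _)
  rcases le_total τ (3 * Z / 4) with hc1 | hc1
  · have h3 : ENNReal.ofReal (r / 4) = volume (Icc τ (τ + r / 4)) := by
      rw [Real.volume_Icc, add_sub_cancel_left]
    rw [h3]
    refine measure_mono fun τ' hτ' => ⟨hM τ' ?_, ?_, ?_⟩
    · rw [abs_of_nonneg (by linarith [hτ'.1])]
      linarith [hτ'.2]
    · linarith [hτ'.1, hτ.1]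
    · linarith [hτ'.2]
  · have h3 : ENNReal.ofReal (r / 4) = volume (Icc (τ - r / 4) τ) := by
      rw [Real.volume_Icc, sub_sub_cancel]
    rw [h3]
    refine measure_mono fun τ' hτ' => ⟨hM τ' ?_, ?_, ?_⟩
    · rw [abs_of_nonpos (by linarith [hτ'.2])]
      linarith [hτ'.1]
    · linarith [hτ'.1]
    · linarith [hτ'.2, hτ.2]

end Pool.H19.Fc
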