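import Pool.Agent.H19.Fc.DimAbs
import Pool.Agent.H19.Fc.QIter
import Pool.Agent.H19.Fc.Stab
import Pool.Agent.H19.Fc.Final

/-!
# The dimension of the exceptional set of coefficients
-/

set_option autoImplicit false

namespace Pool.H19.Fc

open MeasureTheory Set Filter Pool.H19.Wa Pool.H48.Wt

/-- coefficient vectors in the box with a missed target at scale `2^j` -/
def Mj (k : ℕ) {m : ℕ} (u : Fin (m + 1) → ℕ) (t : ℕ) (L η c : ℝ) (j : ℕ) : Set (Fin (m + t) → ℝ) :=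
  {lam | lam ∈ Bx (m + t) L ∧ ∃ τ ∈ Icc ((2 : ℝ) ^ j / 2) ((2 : ℝ) ^ j),
    ∀ p, η * (2 : ℝ) ^ (-(c * j)) ≤ |fam k u t p lam - τ|}

theorem dim_scale (k m t : ℕ) (u : Fin (m + 1) → ℕ) (c : ℝ) (hk : 2 ≤ k) (hm : 1 ≤ m) (hu : ∀ i, 1 ≤ u i)
    (hu0 : ∀ i, u i ≤ u 0) (hc : 0 ≤ c)
    (h : 1 + c < 2 ^ t * ((m : ℝ) - c - ∑ i, (1 - 1 / (k : ℝ)) ^ (u i)))
    (L η : ℝ) (hL : 1 ≤ L) (hη : 0 < η) (hη1 : η ≤ 1) :
    dimH {lam | ∃ᶠ j : ℕ in atTop, lam ∈ Mj k u t L η c j} ≤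
      ENNReal.ofReal (((m + t : ℕ) : ℝ) -
        (2 ^ t * ((m : ℝ) - c - ∑ i, (1 - 1 / (k : ℝ)) ^ (u i)) - 1 - c) / ((2 ^ (t + 1) - 1) * (1 + c))) := by
  have hL0 : 0 < L := by linarith
  have hw : 0 < 1 + c := by linarith
  obtain ⟨d, hd⟩ : ∃ d : ℝ, d = (m : ℝ) - c - ∑ i, (1 - 1 / (k : ℝ)) ^ (u i) := ⟨_, rfl⟩
  rw [← hd] at h ⊢
  have hθ : 0 ≤ 1 - 1 / (k : ℝ) := by
    have hk0 : (0 : ℝ) < k := by exact_mod_cast (by omega : 0 < k)
    have h1 : 1 / (k : ℝ) ≤ 1 := by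
      rw [div_le_one hk0]
      exact_mod_cast (by omega : 1 ≤ k)
    linarith
  have hdm : d ≤ m := by
    have h1 : 0 ≤ ∑ i : Fin (m + 1), (1 - 1 / (k : ℝ)) ^ (u i) :=
      Finset.sum_nonneg fun i _ => pow_nonneg hθ _
    rw [hd]
    linarith
  have h2t : (1 : ℝ) ≤ 2 ^ t := one_le_pow₀ (by norm_num)
  have h2t1 : (2 : ℝ) ^ (t + 1) = 2 * 2 ^ t := by ring
  have hP : (0 : ℝ) < 2 ^ (t + 1) - 1 := by rw [h2t1]; linarith
  obtain ⟨g, hg⟩ : ∃ g : ℝ, g = (2 ^ t * d - 1 - c) / (2 ^ (t + 1) - 1) := ⟨_, rfl⟩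
  have hg0 : 0 < g := by
    rw [hg]
    exact div_pos (by linarith) hP
  have hgm : g < m := by
    rw [hg, div_lt_iff₀ hP]
    have hm' : (1 : ℝ) ≤ m := by exact_mod_cast hm
    have h3 : 2 ^ t * d ≤ 2 ^ t * m := mul_le_mul_of_nonneg_left hdm (by positivity)
    have h4 : (2 : ℝ) ^ t * m ≤ m * (2 ^ (t + 1) - 1) := by
      rw [h2t1]
      nlinarith
    linarith
  have hgw : (2 ^ t * d - 1 - c) / ((2 ^ (t + 1) - 1) * (1 + c)) = g / (1 + c) := by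
    rw [hg, div_div]
  rw [hgw]
  have hall : ∀ v : ℝ, 0 < v → v < g →
      dimH {lam | ∃ᶠ j : ℕ in atTop, lam ∈ Mj k u t L η c j} ≤
        ENNReal.ofReal (((m + t : ℕ) : ℝ) - v / (1 + c)) := by
    intro v hv0 hvg
    have h3 : 1 + c + (2 ^ (t + 1) - 1) * v < 2 ^ t * d := by
      have h4 : (2 ^ (t + 1) - 1) * g = 2 ^ t * d - 1 - c := by
        rw [hg]
        field_simp
      have h5 : (2 ^ (t + 1) - 1) * v < (2 ^ (t + 1) - 1) * g := mul_lt_mul_of_pos_left hvg hP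
      linarith
    obtain ⟨β, hβ1, hβ2⟩ : ∃ β : ℝ, 1 + c < β ∧ β + (2 ^ (t + 1) - 1) * v < 2 ^ t * d := by
      refine ⟨(1 + c + (2 ^ t * d - (2 ^ (t + 1) - 1) * v)) / 2, by linarith, by linarith⟩
    rw [hd] at hβ2
    obtain ⟨C, hC, j1, hj1⟩ := iter_Qp k m hk hm u hu hu0 (2 * L) (η / 2) c v (by linarith) (by positivity)
      hc t 1 β hβ2
    have htend : Tendsto (fun j : ℕ => (2 : ℝ) ^ ((j : ℝ) * (1 + c - β))) atTop (nhds 0) := by
      have h1 : Tendsto (fun j : ℕ => ((2 : ℝ) ^ (1 + c - β)) ^ j) atTop (nhds 0) := by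
        apply tendsto_pow_atTop_nhds_zero_of_lt_one (by positivity)
        exact Real.rpow_lt_one_of_one_lt_of_neg (by norm_num) (by linarith)
      refine h1.congr fun j => ?_
      rw [← Real.rpow_natCast, ← Real.rpow_mul (by norm_num)]
      congr 1
      ring
    obtain ⟨j2, hj2⟩ := eventually_atTop.1 (htend.eventually (gt_mem_nhds (show (0 : ℝ) < η / 4 by positivity)))
    refine dim_abs (Mj k u t L η c) (fun j => Bad (m + t) (fam k u t) (2 * L) (η / 2) c 1 β j) L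
      (η / (16 * L)) C v (1 + c) (max j1 j2) (by positivity) hC hv0 hw ?_ ?_ ?_ ?_
    · have h5 : ((m + t : ℕ) : ℝ) = m + t := by push_cast; ring
      have h6 : (0 : ℝ) ≤ t := Nat.cast_nonneg _
      have h7 : (0 : ℝ) ≤ m := Nat.cast_nonneg _
      rw [h5]
      nlinarith
    · rintro j a ⟨ha, -⟩ i
      have hi := ha i (mem_univ i)
      exact ⟨(inv_nonneg.mpr hL0.le).trans hi.1, hi.2⟩
    · rintro j hj a ⟨ha, τ, hτ, hmiss⟩ a' ha'
      have hjj1 : j1 ≤ j := (le_max_left _ _).trans hj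
      have hjj2 : j2 ≤ j := (le_max_right _ _).trans hj
      have hj0 : (0 : ℝ) ≤ j := Nat.cast_nonneg _
      have hp1 : (2 : ℝ) ^ (-((j : ℝ) * (1 + c))) ≤ 1 :=
        Real.rpow_le_one_of_one_le_of_nonpos (by norm_num) (by nlinarith)
      have hρ1 : η / (16 * L) * (2 : ℝ) ^ (-((j : ℝ) * (1 + c))) ≤ 1 / (2 * L) := by
        calc η / (16 * L) * (2 : ℝ) ^ (-((j : ℝ) * (1 + c))) ≤ 1 / (16 * L) * 1 := by gcongr
          _ ≤ 1 / (2 * L) := by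
            rw [mul_one]
            exact one_div_le_one_div_of_le (by positivity) (by linarith)
      have hbox : a' ∈ Bx (m + t) (2 * L) := by
        intro i _
        have hi := ha i (mem_univ i)
        have h1 := abs_le.mp ((ha' i).trans hρ1)
        have h2 : (2 * L)⁻¹ = L⁻¹ - 1 / (2 * L) := by field_simp; ring
        have h3 : 1 / (2 * L) ≤ L := by
          rw [div_le_iff₀ (by positivity)]
          nlinarith
        have h1a := h1.1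
        have h1b := h1.2
        have h4a : L⁻¹ ≤ a i := hi.1
        have h4b : a i ≤ L := hi.2
        constructor
        · rw [h2]; linarith
        · linarith
      refine ⟨hbox, ?_⟩
      obtain ⟨r, hr⟩ : ∃ r : ℝ, r = η * (2 : ℝ) ^ (-(c * j)) := ⟨_, rfl⟩
      have hr0 : 0 < r := by rw [hr]; positivity
      have hp2 : (2 : ℝ) ^ (-(c * (j : ℝ))) ≤ 1 :=
        Real.rpow_le_one_of_one_le_of_nonpos (by norm_num) (by nlinarith)
      have hrZ : r ≤ (2 : ℝ) ^ j := by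
        have h1 : (1 : ℝ) ≤ 2 ^ j := one_le_pow₀ (by norm_num)
        have h2 : r ≤ 1 * 1 := by
          rw [hr]
          exact mul_le_mul hη1 hp2 (by positivity) (by norm_num)
        linarith
      have hsplit : (2 : ℝ) ^ (-((j : ℝ) * (1 + c))) * (2 : ℝ) ^ j = (2 : ℝ) ^ (-(c * (j : ℝ))) := by
        rw [← Real.rpow_natCast, ← Real.rpow_add (by norm_num)]
        congr 1
        ring
      have hst := stab k u t a a' (2 * L) (η / (16 * L) * (2 : ℝ) ^ (-((j : ℝ) * (1 + c)))) r τ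
        ((2 : ℝ) ^ j) (by linarith) (by positivity) hr0 hrZ hbox ha' (by
          have e1 : η / (16 * L) * (2 : ℝ) ^ (-((j : ℝ) * (1 + c))) * (2 * L) * (2 * 2 ^ j) =
              η / 4 * ((2 : ℝ) ^ (-((j : ℝ) * (1 + c))) * (2 : ℝ) ^ j) := by
            field_simp
            ring
          rw [e1, hsplit, hr]
          apply le_of_eq
          ring) hτ (by rw [hr]; exact hmiss)
      have e2 : η / 2 * (2 : ℝ) ^ (-(c * (j : ℝ))) = r / 2 := by rw [hr]; ring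
      rw [e2, pow_one]
      refine lt_of_lt_of_le ?_ hst
      rw [ENNReal.ofReal_lt_ofReal_iff (by positivity)]
      have h8 := hj2 j hjj2
      have h9 : (2 : ℝ) ^ ((j : ℝ) * (1 - β)) =
          (2 : ℝ) ^ ((j : ℝ) * (1 + c - β)) * (2 : ℝ) ^ (-(c * (j : ℝ))) := by
        rw [← Real.rpow_add (by norm_num)]
        congr 1
        ring
      rw [h9, hr]
      calc (2 : ℝ) ^ ((j : ℝ) * (1 + c - β)) * (2 : ℝ) ^ (-(c * (j : ℝ)))
          < η / 4 * (2 : ℝ) ^ (-(c * (j : ℝ))) := mul_lt_mul_of_pos_right h8 (by positivity)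
        _ = η * 2 ^ (-(c * (j : ℝ))) / 4 := by ring
    · intro j hj
      exact hj1 j ((le_max_left _ _).trans hj)
  have htend : Tendsto (fun v : ℝ => ENNReal.ofReal (((m + t : ℕ) : ℝ) - v / (1 + c)))
      (nhdsWithin g (Iio g)) (nhds (ENNReal.ofReal (((m + t : ℕ) : ℝ) - g / (1 + c)))) := by
    have hcont : Continuous (fun v : ℝ => ENNReal.ofReal (((m + t : ℕ) : ℝ) - v / (1 + c))) :=
      ENNReal.continuous_ofReal.comp (continuous_const.sub (continuous_id.div_const _))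
    exact (hcont.tendsto g).mono_left nhdsWithin_le_nhds
  refine ge_of_tendsto htend ?_
  have hmem : Ioo 0 g ∈ nhdsWithin g (Iio g) := Ioo_mem_nhdsLT hg0
  filter_upwards [hmem] with v hv
  exact hall v hv.1 hv.2

/-- the exceptional set -/
def Ex (k : ℕ) {m : ℕ} (u : Fin (m + 1) → ℕ) (t : ℕ) (c : ℝ) : Set (Fin (m + t) → ℝ) :=
  {lam | (∀ i, 0 < lam i) ∧ ¬ ∀ η : ℝ, 0 < η → ∃ T : ℝ, ∀ τ : ℝ, T ≤ τ → ∃ p, |fam k u t p lam - τ| < η * τ ^ (-c)}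

theorem Ex_subset (k : ℕ) {m : ℕ} (u : Fin (m + 1) → ℕ) (t : ℕ) (c : ℝ) (hc : 0 ≤ c) :
    Ex k u t c ⊆ ⋃ L : ℕ, ⋃ i : ℕ, {lam | ∃ᶠ j : ℕ in atTop, lam ∈ Mj k u t ((L : ℝ) + 1) (1 / ((i : ℝ) + 1)) c j} := by
  rintro lam ⟨hpos, hno⟩
  push Not at hno
  obtain ⟨η, hη, hbad⟩ := hno
  obtain ⟨L, hL⟩ := mem_Bx_of_pos lam hpos
  obtain ⟨i, hi⟩ := exists_nat_one_div_lt hη
  rw [mem_iUnion]
  refine ⟨L, ?_⟩
  rw [mem_iUnion]
  refine ⟨i, ?_⟩
  show ∃ᶠ j : ℕ in atTop, lam ∈ Mj k u t ((L : ℝ) + 1) (1 / ((i : ℝ) + 1)) c j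
  rw [frequently_atTop]
  intro j0
  obtain ⟨τ, hτ1, hτ2⟩ := hbad (2 ^ j0)
  have h1τ : (1 : ℝ) ≤ τ := (one_le_pow₀ (by norm_num)).trans hτ1
  obtain ⟨j, hj1, hj2⟩ := exists_nat_pow_near h1τ (by norm_num : (1 : ℝ) < 2)
  have hjj : j0 ≤ j := by
    by_contra hlt
    push Not at hlt
    have : (2 : ℝ) ^ (j + 1) ≤ 2 ^ j0 := pow_le_pow_right₀ (by norm_num) hlt
    linarith
  refine ⟨j + 1, by omega, hL, τ, ⟨?_, hj2.le⟩, fun p => ?_⟩
  · rw [pow_succ]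
    linarith
  · refine le_trans ?_ (hτ2 p)
    have h0τ : 0 < τ := by linarith
    have h2 : (2 : ℝ) ^ (-(c * ((j + 1 : ℕ) : ℝ))) ≤ τ ^ (-c) := by
      have e : (2 : ℝ) ^ (-(c * ((j + 1 : ℕ) : ℝ))) = ((2 : ℝ) ^ (j + 1)) ^ (-c) := by
        rw [← Real.rpow_natCast, ← Real.rpow_mul (by norm_num)]
        congr 1
        ring
      rw [e]
      exact Real.rpow_le_rpow_of_nonpos h0τ hj2.le (by linarith)
    exact mul_le_mul hi.le h2 (by positivity) hη.le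

theorem dim_general (k m t : ℕ) (u : Fin (m + 1) → ℕ) (c : ℝ) (hk : 2 ≤ k) (hu : ∀ i, 1 ≤ u i)
    (hu0 : ∀ i, u i ≤ u 0) (hc : 0 ≤ c)
    (h : 1 + c < 2 ^ t * ((m : ℝ) - c - ∑ i, (1 - 1 / (k : ℝ)) ^ (u i))) :
    dimH {lam : Fin (m + t) → ℝ | (∀ i, 0 < lam i) ∧ ¬ ∀ η : ℝ, 0 < η → ∃ T : ℝ, ∀ τ : ℝ, T ≤ τ →
      ∃ (x : (i : Fin (m + 1)) → Fin (u i) → ℕ) (w : Fin t → ℕ),
        |∑ j, (x 0 j : ℝ) ^ k + ∑ i : Fin m, lam (Fin.castAdd t i) * ∑ j, (x i.succ j : ℝ) ^ k +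
          ∑ j : Fin t, lam (Fin.natAdd m j) * (w j : ℝ) ^ k - τ| < η * τ ^ (-c)} ≤
      ENNReal.ofReal ((m : ℝ) + t -
        (2 ^ t * ((m : ℝ) - c - ∑ i, (1 - 1 / (k : ℝ)) ^ (u i)) - 1 - c) / ((2 ^ (t + 1) - 1) * (1 + c))) := by
  have hθ : 0 ≤ 1 - 1 / (k : ℝ) := by
    have hk0 : (0 : ℝ) < k := by exact_mod_cast (by omega : 0 < k)
    have : 1 / (k : ℝ) ≤ 1 := by
      rw [div_le_one hk0]
      exact_mod_cast (by omega : 1 ≤ k)
    linarith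
  have hm : 1 ≤ m := by
    by_contra hcon
    have hm0 : m = 0 := by omega
    subst hm0
    have h1 : 0 ≤ ∑ i : Fin (0 + 1), (1 - 1 / (k : ℝ)) ^ (u i) :=
      Finset.sum_nonneg fun i _ => pow_nonneg hθ _
    have h2 : ((0 : ℕ) : ℝ) - c - ∑ i : Fin (0 + 1), (1 - 1 / (k : ℝ)) ^ (u i) ≤ 0 := by
      push_cast
      linarith
    have h3 : (0 : ℝ) < 2 ^ t := by positivity
    nlinarith
  have hsub : {lam : Fin (m + t) → ℝ | (∀ i, 0 < lam i) ∧ ¬ ∀ η : ℝ, 0 < η → ∃ T : ℝ, ∀ τ : ℝ, T ≤ τ →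
      ∃ (x : (i : Fin (m + 1)) → Fin (u i) → ℕ) (w : Fin t → ℕ),
        |∑ j, (x 0 j : ℝ) ^ k + ∑ i : Fin m, lam (Fin.castAdd t i) * ∑ j, (x i.succ j : ℝ) ^ k +
          ∑ j : Fin t, lam (Fin.natAdd m j) * (w j : ℝ) ^ k - τ| < η * τ ^ (-c)} ⊆ Ex k u t c := by
    rintro lam ⟨hpos, hno⟩
    refine ⟨hpos, fun hall => hno fun η hη => ?_⟩
    obtain ⟨T, hT⟩ := hall η hη
    refine ⟨T, fun τ hτ => ?_⟩
    obtain ⟨p, hp⟩ := hT τ hτ
    exact ⟨p.1, p.2, hp⟩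
  refine (dimH_mono (hsub.trans (Ex_subset k u t c hc))).trans ?_
  rw [dimH_iUnion]
  refine iSup_le fun L => ?_
  rw [dimH_iUnion]
  refine iSup_le fun i => ?_
  have hi : (0 : ℝ) ≤ i := Nat.cast_nonneg _
  have hL : (0 : ℝ) ≤ L := Nat.cast_nonneg _
  have h1 := dim_scale k m t u c hk hm hu hu0 hc h ((L : ℝ) + 1) (1 / ((i : ℝ) + 1)) (by linarith)
    (by positivity) (by rw [div_le_one (by positivity)]; linarith)
  rw [Nat.cast_add] at h1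
  exact h1

end Pool.H19.Fc
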