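import Pool.Agent.H19.Fc.Defs

/-!
# Module KER: the kernel and its symbol

`ker_hat`. Put `E0 = exp(-(π t^2/b))`, `E = exp(-(π t^2/b0))`. `rho = E0 (1-E)^q = ∑_(j ≤ q) (-1)^j C(q,j) E0 E^j` (`add_pow` for
`(-E + 1)^q`), `E0 E^j = exp(-(π t^2 (1/b + j/b0))) = exp(-(π t^2/bj)) = √bj * w bj t` (`w b t = (√b)⁻¹ exp(-(π t^2/b))`), so
`∫ rho(t) e(t u) dt = ∑_j (-1)^j C(q,j) √bj G bj u` by `gauss_hat` (`Pool.H19.Wa.gauss_hat`, integrability `integrable_w_mul`).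
The other statements: `0 ≤ 1 - E ≤ 1` as `0 < E ≤ 1`, and `1 - E ≤ π t^2/b0` (`Real.add_one_le_exp`).
-/

set_option autoImplicit false

namespace Pool.H19.Fc

open MeasureTheory Set Pool.H19.Wa Pool.H48.Wt

theorem bj_pos {b b0 : ℝ} (hb : 0 < b) (hb0 : 0 < b0) (j : ℕ) : 0 < bj b b0 j := by
  unfold bj
  have h1 : 0 < 1 / b := by positivity
  have h2 : 0 ≤ (j : ℝ) / b0 := by positivity
  exact inv_pos.mpr (by linarith)

theorem bj_zero {b b0 : ℝ} (hb : 0 < b) : bj b b0 0 = b := by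
  unfold bj
  simp

/-- the symbol is a combination of Gaussians -/
theorem rho_eq (q : ℕ) {b b0 : ℝ} (hb : 0 < b) (hb0 : 0 < b0) (t : ℝ) :
    rho q b b0 t = ∑ j ∈ Finset.range (q + 1), (-1 : ℝ) ^ j * (q.choose j : ℝ) *
      (Real.sqrt (bj b b0 j) * w (bj b b0 j) t) := by
  have h1 : ∀ j : ℕ, Real.sqrt (bj b b0 j) * w (bj b b0 j) t =
      Real.exp (-(Real.pi * t ^ 2 / b)) * Real.exp (-(Real.pi * t ^ 2 / b0)) ^ j := by
    intro j
    have h2 : Real.sqrt (bj b b0 j) ≠ 0 := (Real.sqrt_pos.mpr (bj_pos hb hb0 j)).ne'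
    unfold w
    rw [← mul_assoc, mul_inv_cancel₀ h2, one_mul, ← Real.exp_nat_mul, ← Real.exp_add]
    congr 1
    unfold bj
    rw [div_inv_eq_mul]
    field_simp
    ring
  simp_rw [h1]
  unfold rho
  have h3 : (1 - Real.exp (-(Real.pi * t ^ 2 / b0))) ^ q =
      ∑ j ∈ Finset.range (q + 1), (-1 : ℝ) ^ j * (q.choose j : ℝ) * Real.exp (-(Real.pi * t ^ 2 / b0)) ^ j := by
    have h4 : (1 - Real.exp (-(Real.pi * t ^ 2 / b0))) = (-Real.exp (-(Real.pi * t ^ 2 / b0)) + 1) := by ring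
    rw [h4, add_pow]
    refine Finset.sum_congr rfl fun j _ => ?_
    rw [one_pow, mul_one, neg_pow]
    ring
  rw [h3, Finset.mul_sum]
  refine Finset.sum_congr rfl fun j _ => ?_
  ring

theorem ker_hat (q : ℕ) {b b0 : ℝ} (hb : 0 < b) (hb0 : 0 < b0) (u : ℝ) :
    ((Ker q b b0 u : ℝ) : ℂ) = ∫ t : ℝ, ((rho q b b0 t : ℝ) : ℂ) * e (t * u) := by
  have hint : ∀ j : ℕ, Integrable (fun t : ℝ => ((w (bj b b0 j) t : ℝ) : ℂ) * e (t * u)) := fun j =>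
    integrable_w_mul (bj_pos hb hb0 j) (continuous_e.comp (by fun_prop)) (C := 1) fun t => (norm_e _).le
  have h1 : ∀ t : ℝ, ((rho q b b0 t : ℝ) : ℂ) * e (t * u) = ∑ j ∈ Finset.range (q + 1),
      (((-1 : ℝ) ^ j * (q.choose j : ℝ) * Real.sqrt (bj b b0 j) : ℝ) : ℂ) *
        (((w (bj b b0 j) t : ℝ) : ℂ) * e (t * u)) := by
    intro t
    rw [rho_eq q hb hb0 t, Complex.ofReal_sum, Finset.sum_mul]
    refine Finset.sum_congr rfl fun j _ => ?_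
    push_cast
    ring
  simp_rw [h1]
  rw [integral_finsetSum _ (fun j _ => (hint j).const_mul _)]
  unfold Ker
  rw [Complex.ofReal_sum]
  refine Finset.sum_congr rfl fun j _ => ?_
  rw [integral_const_mul, ← gauss_hat (bj_pos hb hb0 j) u]
  push_cast
  ring

theorem ker_E {b0 : ℝ} (hb0 : 0 < b0) (t : ℝ) : 0 ≤ 1 - Real.exp (-(Real.pi * t ^ 2 / b0)) ∧
    1 - Real.exp (-(Real.pi * t ^ 2 / b0)) ≤ 1 ∧
    1 - Real.exp (-(Real.pi * t ^ 2 / b0)) ≤ Real.pi * t ^ 2 / b0 := by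
  have h0 : 0 ≤ Real.pi * t ^ 2 / b0 := by positivity
  have h1 : Real.exp (-(Real.pi * t ^ 2 / b0)) ≤ 1 := Real.exp_le_one_iff.mpr (by linarith)
  have h2 : 0 < Real.exp (-(Real.pi * t ^ 2 / b0)) := Real.exp_pos _
  have h3 := Real.add_one_le_exp (-(Real.pi * t ^ 2 / b0))
  exact ⟨by linarith, by linarith, by linarith⟩

theorem rho_nonneg (q : ℕ) {b b0 : ℝ} (_hb : 0 < b) (hb0 : 0 < b0) (t : ℝ) : 0 ≤ rho q b b0 t := by
  unfold rho
  exact mul_nonneg (Real.exp_pos _).le (pow_nonneg (ker_E hb0 t).1 q)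

theorem rho_le (q : ℕ) {b b0 : ℝ} (_hb : 0 < b) (hb0 : 0 < b0) (t : ℝ) :
    rho q b b0 t ≤ Real.exp (-(Real.pi * t ^ 2 / b)) := by
  unfold rho
  obtain ⟨h1, h2, _⟩ := ker_E hb0 t
  have h3 : (1 - Real.exp (-(Real.pi * t ^ 2 / b0))) ^ q ≤ 1 := pow_le_one₀ h1 h2
  have h4 : 0 < Real.exp (-(Real.pi * t ^ 2 / b)) := Real.exp_pos _
  nlinarith

theorem rho_le' (q : ℕ) {b b0 : ℝ} (_hb : 0 < b) (hb0 : 0 < b0) (t : ℝ) :
    rho q b b0 t ≤ Real.exp (-(Real.pi * t ^ 2 / b)) * (Real.pi * t ^ 2 / b0) ^ q := by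
  unfold rho
  obtain ⟨h1, _, h3⟩ := ker_E hb0 t
  exact mul_le_mul_of_nonneg_left (pow_le_pow_left₀ h1 h3 q) (Real.exp_pos _).le

theorem continuous_rho (q : ℕ) (b b0 : ℝ) : Continuous (rho q b b0) := by
  unfold rho
  fun_prop

theorem integrable_rho (q : ℕ) {b b0 : ℝ} (hb : 0 < b) (hb0 : 0 < b0) : Integrable (rho q b b0) := by
  have h1 : Integrable (fun t : ℝ => Real.exp (-(Real.pi / b) * t ^ 2)) :=
    integrable_exp_neg_mul_sq (by positivity)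
  refine h1.mono' (continuous_rho q b b0).aestronglyMeasurable (Filter.Eventually.of_forall fun t => ?_)
  rw [Real.norm_of_nonneg (rho_nonneg q hb hb0 t)]
  refine (rho_le q hb hb0 t).trans (le_of_eq ?_)
  congr 1
  ring

end Pool.H19.Fc
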