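import Pool.Agent.H19.Fc.Cell

/-!
# Module LOWER: a missed target makes H large

`bx N` is in bijection with pairs `(n_0, n')`, `n' ∈ piFinset (range (N i.succ))` (`Fin.consEquiv` / `Fintype.piFinset` and
`Fin.cons`; e.g. `Finset.sum_bij'` or `Finset.sum_nbij'`). For fixed `n'` put `y = τ - ∑ lam_i β_(i+1)(n'_i)`; then
`vv β lam (cons n_0 n') - τ = β 0 n_0 - y`. By `hlow` (the conclusion of `cell_lower` for group 0 at the points `y` allowed by `hy`)
`∑_(n_0) (√b G b (v - τ) - Ker m b b0 (v - τ)) ≥ 1/(2 D0)`, so `∑_n √b G b (v_n - τ) - Hs ≥ ∏ N i.succ/(2 D0)`.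
Missed: `G b (v_n - τ) ≤ exp(-(π b r^2))`, so `∑_n √b G b (v_n - τ) ≤ √b ∏_i N i exp(-(π b r^2)) ≤ ∏ N i.succ/(4 D0)` by `hsm`.
Hence `-Hs ≥ ∏ N i.succ/(4 D0)`.
-/

set_option autoImplicit false

namespace Pool.H19.Fc

open MeasureTheory Set Pool.H19.Wa Pool.H48.Wt

/-- sums over the box -/
theorem sum_bx {m : ℕ} (N : Fin (m + 1) → ℕ) (g : (Fin (m + 1) → ℕ) → ℝ) :
    ∑ n ∈ bx N, g n = ∑ n' ∈ Fintype.piFinset (fun i : Fin m => Finset.range (N i.succ)),
      ∑ n0 ∈ Finset.range (N 0), g (Fin.cons n0 n') := by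
  rw [← Finset.sum_product']
  refine Finset.sum_bij' (fun n _ => ((fun i : Fin m => n i.succ), n 0))
    (fun p _ => (Fin.cons p.2 p.1 : Fin (m + 1) → ℕ)) ?_ ?_ ?_ ?_ ?_
  · intro n hn
    have h := Fintype.mem_piFinset.mp hn
    rw [Finset.mem_product]
    refine ⟨?_, h 0⟩
    rw [Fintype.mem_piFinset]
    exact fun i => h i.succ
  · intro p hp
    rw [Finset.mem_product, Fintype.mem_piFinset] at hp
    unfold bx
    rw [Fintype.mem_piFinset]
    intro i
    refine Fin.cases ?_ (fun i => ?_) i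
    · exact hp.2
    · exact hp.1 i
  · intro n _
    funext i
    refine Fin.cases ?_ (fun i => ?_) i
    · rfl
    · rfl
  · intro p _
    rfl
  · intro n _
    congr 1
    funext i
    refine Fin.cases ?_ (fun i => ?_) i
    · rfl
    · rfl

theorem card_bx {m : ℕ} (N : Fin (m + 1) → ℕ) : (bx N).card = ∏ i, N i := by
  unfold bx
  rw [Fintype.card_piFinset]
  simp

theorem missed_lower {m : ℕ} (N : Fin (m + 1) → ℕ) (β : Fin (m + 1) → ℕ → ℝ) (lam : Fin m → ℝ)
    (D0 b b0 r τ : ℝ) (hD0 : 0 < D0) (hb : 0 < b) (hr : 0 < r)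
    (hlow : ∀ n ∈ bx N, 1 / (2 * D0) ≤ ∑ n0 ∈ Finset.range (N 0),
      (Real.sqrt b * G b (β 0 n0 - (τ - ∑ i : Fin m, lam i * β i.succ (n i.succ))) -
        Ker m b b0 (β 0 n0 - (τ - ∑ i : Fin m, lam i * β i.succ (n i.succ)))))
    (hN0 : 0 < N 0)
    (hmiss : ∀ n ∈ bx N, r ≤ |vv β lam n - τ|)
    (hsm : Real.sqrt b * (N 0 : ℝ) * Real.exp (-(Real.pi * b * r ^ 2)) ≤ 1 / (4 * D0)) :
    (∏ i : Fin m, (N i.succ : ℝ)) / (4 * D0) ≤ |Hs m b b0 (bx N) (vv β lam) τ| := by
  set P : ℝ := ∏ i : Fin m, (N i.succ : ℝ) with hP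
  have hP0 : 0 ≤ P := Finset.prod_nonneg fun i _ => Nat.cast_nonneg _
  have hcard : ((Fintype.piFinset (fun i : Fin m => Finset.range (N i.succ))).card : ℝ) = P := by
    rw [Fintype.card_piFinset, hP]
    push_cast
    simp
  -- the difference of fine sum and Hs
  have h1 : P / (2 * D0) ≤ ∑ n ∈ bx N, (Real.sqrt b * G b (vv β lam n - τ) - Ker m b b0 (vv β lam n - τ)) := by
    rw [sum_bx]
    calc P / (2 * D0) = ∑ _n' ∈ Fintype.piFinset (fun i : Fin m => Finset.range (N i.succ)), 1 / (2 * D0) := by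
          rw [Finset.sum_const, nsmul_eq_mul, hcard]
          ring
      _ ≤ _ := by
          refine Finset.sum_le_sum fun n' hn' => ?_
          have hmem : (Fin.cons 0 n' : Fin (m + 1) → ℕ) ∈ bx N := by
            unfold bx
            rw [Fintype.mem_piFinset]
            intro i
            refine Fin.cases ?_ (fun i => ?_) i
            · show 0 ∈ Finset.range (N 0)
              exact Finset.mem_range.mpr hN0
            · exact (Fintype.mem_piFinset.mp hn') i
          have h2 := hlow _ hmem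
          simp only [Fin.cons_succ] at h2
          refine h2.trans (le_of_eq ?_)
          refine Finset.sum_congr rfl fun n0 _ => ?_
          have h3 : vv β lam (Fin.cons n0 n' : Fin (m + 1) → ℕ) - τ =
              β 0 n0 - (τ - ∑ i : Fin m, lam i * β i.succ (n' i)) := by
            unfold vv
            simp only [Fin.cons_zero, Fin.cons_succ]
            ring
          rw [h3]
  -- the fine sum is small
  have h2 : ∑ n ∈ bx N, Real.sqrt b * G b (vv β lam n - τ) ≤ P / (4 * D0) := by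
    calc ∑ n ∈ bx N, Real.sqrt b * G b (vv β lam n - τ)
        ≤ ∑ _n ∈ bx N, Real.sqrt b * Real.exp (-(Real.pi * b * r ^ 2)) := by
          refine Finset.sum_le_sum fun n hn => mul_le_mul_of_nonneg_left ?_ (Real.sqrt_nonneg b)
          unfold G
          apply Real.exp_le_exp.mpr
          have h3 : r ^ 2 ≤ (vv β lam n - τ) ^ 2 := by
            rw [← sq_abs (vv β lam n - τ)]
            exact pow_le_pow_left₀ hr.le (hmiss n hn) 2
          have h4 : 0 < Real.pi * b := by positivity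
          nlinarith
      _ = P * (Real.sqrt b * (N 0 : ℝ) * Real.exp (-(Real.pi * b * r ^ 2))) := by
          rw [Finset.sum_const, card_bx, nsmul_eq_mul]
          push_cast
          rw [Fin.prod_univ_succ]
          ring
      _ ≤ P * (1 / (4 * D0)) := mul_le_mul_of_nonneg_left hsm hP0
      _ = _ := by ring
  rw [Finset.sum_sub_distrib] at h1
  have h3 : P / (2 * D0) = P / (4 * D0) + P / (4 * D0) := by
    field_simp
    ring
  have h4 : P / (4 * D0) ≤ -Hs m b b0 (bx N) (vv β lam) τ := by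
    unfold Hs
    linarith
  exact h4.trans (neg_le_abs _)

end Pool.H19.Fc
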