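import Pool.Agent.H19.Fc.Ker

/-!
# Module PLANCH: the mean square of `Hs` is at most that of its symbol

Let `g t = rho(t) Fs(t)` (continuous, `‖g t‖ ≤ |s| exp(-(π t^2/b))`, so `g` and `g^2` are integrable). By `ker_hat`
`(Hs τ : ℂ) = ∫ g(t) e(-(t τ)) dt` (`e (t * (v n - τ)) = e (t * v n) * e (-(t * τ))`, `integral_finsetSum`).
Weight `W τ = exp(-(π τ^2/X^2)) = X * w (X^2) τ` (`w b t = (√b)⁻¹ exp(-(π t^2/b))`, `√(X^2) = X`), so by `gauss_hat`
`∫ W τ e(τ u) dτ = X G (X^2) u`, and `∫ X G (X^2) u du = 1` (`integral_gaussian`; `G b u = exp(-(π b u^2))`).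
`Hs(τ)^2 = ∫∫ g(t) conj g(t') e((t'-t) τ)` (product of two integrals, `integral_prod_mul`). Multiply by `W τ`, integrate over `τ`,
Fubini (the integrand is bounded by `W τ ‖g t‖ ‖g t'‖`, integrable on the product):
`∫ W Hs^2 = ∫∫ g(t) conj g(t') X G (X^2) (t' - t) ≤ ∫∫ (‖g t‖^2 + ‖g t'‖^2)/2 * X G (X^2) (t'-t) = ∫ ‖g‖^2`.
The same pattern is proved in `Pool/Agent/H48/Wt/Sec2.lean` (`second_moment2`, `schur`).
Then pass to `lintegral` (`ofReal_integral_eq_lintegral_ofReal`; both integrands are nonnegative, continuous and integrable: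
`Hs` is bounded and continuous in `τ`, because `Ker` is a finite sum of Gaussians).
-/

set_option autoImplicit false

namespace Pool.H19.Fc

open MeasureTheory Set Pool.H19.Wa Pool.H48.Wt

theorem continuous_Fs {ι : Type*} (s : Finset ι) (v : ι → ℝ) : Continuous (Fs s v) := by
  unfold Fs
  exact continuous_finsetSum _ (fun n _ => continuous_e.comp (by fun_prop))

theorem norm_Fs_le {ι : Type*} (s : Finset ι) (v : ι → ℝ) (t : ℝ) : ‖Fs s v t‖ ≤ s.card := by
  unfold Fs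
  refine (norm_sum_le _ _).trans ?_
  simp [norm_e]

/-- the Schur test for a translation kernel -/
theorem pl_main (g : ℝ → ℂ) (hg : Continuous g) (hgi : Integrable g) (hg2 : Integrable (fun t => ‖g t‖ ^ 2))
    {X : ℝ} (hX : 0 < X) :
    ∫ τ : ℝ, ‖∫ t : ℝ, g t * e (-(t * τ))‖ ^ 2 * Real.exp (-(Real.pi * τ ^ 2 / X ^ 2)) ≤
      ∫ t : ℝ, ‖g t‖ ^ 2 := by
  have hX2 : 0 < X ^ 2 := by positivity
  set W : ℝ → ℝ := fun τ => Real.exp (-(Real.pi * τ ^ 2 / X ^ 2)) with hW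
  have hWw : ∀ τ, W τ = X * w (X ^ 2) τ := by
    intro τ
    simp only [hW, w]
    rw [Real.sqrt_sq hX.le, ← mul_assoc, mul_inv_cancel₀ hX.ne', one_mul]
  have hWi : Integrable W := by
    have := (integrable_w hX2).const_mul X
    exact this.congr (Filter.Eventually.of_forall fun τ => (hWw τ).symm)
  have hWc : Continuous W := by
    simp only [hW]
    fun_prop
  have hW0 : ∀ τ, 0 ≤ W τ := fun τ => (Real.exp_pos _).le
  -- the kernel
  set Kk : ℝ → ℝ := fun u => X * G (X ^ 2) u with hKk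
  have hKhat : ∀ u : ℝ, ((Kk u : ℝ) : ℂ) = ∫ τ : ℝ, ((W τ : ℝ) : ℂ) * e (τ * u) := by
    intro u
    simp only [hKk]
    rw [Complex.ofReal_mul, gauss_hat hX2 u, ← integral_const_mul]
    congr 1
    funext τ
    rw [hWw]
    push_cast
    ring
  have hK0 : ∀ u, 0 ≤ Kk u := fun u => mul_nonneg hX.le (G_nonneg _ _)
  have hKc : Continuous Kk := by
    simp only [hKk]
    unfold G
    fun_prop
  have hKi : Integrable Kk := by
    have h1 : Integrable (fun x : ℝ => Real.exp (-(Real.pi * X ^ 2) * x ^ 2)) :=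
      integrable_exp_neg_mul_sq (by positivity)
    refine (h1.const_mul X).congr (Filter.Eventually.of_forall fun u => ?_)
    simp only [hKk, G]
    congr 2
    ring
  have hK1 : ∫ u, Kk u = 1 := by
    have h1 : ∀ u, Kk u = X * Real.exp (-(Real.pi * X ^ 2) * u ^ 2) := by
      intro u
      simp only [hKk, G]
      congr 2
      ring
    simp_rw [h1]
    rw [integral_const_mul, integral_gaussian]
    have h2 : Real.pi / (Real.pi * X ^ 2) = (X⁻¹) ^ 2 := by
      have := Real.pi_ne_zero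
      field_simp
    rw [h2, Real.sqrt_sq (by positivity), mul_inv_cancel₀ hX.ne']
  have hKeven : ∀ u, Kk (-u) = Kk u := by
    intro u
    simp only [hKk, G]
    congr 2
    ring
  -- the double integral
  set Ψ : ℝ → ℝ × ℝ → ℂ := fun τ q => ((W τ : ℝ) : ℂ) *
    ((g q.1 * e (-(q.1 * τ))) * (starRingEnd ℂ) (g q.2 * e (-(q.2 * τ)))) with hΨ
  have hZZ : ∀ τ, ((‖∫ t : ℝ, g t * e (-(t * τ))‖ ^ 2 * W τ : ℝ) : ℂ) =
      ∫ q, Ψ τ q ∂((volume : Measure ℝ).prod volume) := by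
    intro τ
    have h1 : ((‖∫ t : ℝ, g t * e (-(t * τ))‖ ^ 2 : ℝ) : ℂ) = (∫ t : ℝ, g t * e (-(t * τ))) *
        (starRingEnd ℂ) (∫ t : ℝ, g t * e (-(t * τ))) := by
      rw [Complex.mul_conj, Complex.normSq_eq_norm_sq]
    rw [Complex.ofReal_mul, h1, ← integral_conj, mul_comm]
    simp only [hΨ]
    rw [integral_const_mul]
    congr 1
    exact (integral_prod_mul (fun t => g t * e (-(t * τ)))
      (fun t => (starRingEnd ℂ) (g t * e (-(t * τ))))).symm
  have hΨc : Continuous (fun p : ℝ × (ℝ × ℝ) => Ψ p.1 p.2) := by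
    simp only [hΨ]
    have h1 : Continuous (fun p : ℝ × (ℝ × ℝ) => g p.2.1 * e (-(p.2.1 * p.1))) :=
      (hg.comp (by fun_prop)).mul (continuous_e.comp (by fun_prop))
    have h2 : Continuous (fun p : ℝ × (ℝ × ℝ) => g p.2.2 * e (-(p.2.2 * p.1))) :=
      (hg.comp (by fun_prop)).mul (continuous_e.comp (by fun_prop))
    exact (Complex.continuous_ofReal.comp (hWc.comp continuous_fst)).mul
      (h1.mul (Complex.continuous_conj.comp h2))
  have hΨi : Integrable (Function.uncurry Ψ) ((volume : Measure ℝ).prod ((volume : Measure ℝ).prod volume)) := by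
    have h := hWi.mul_prod (hgi.norm.mul_prod hgi.norm)
    refine h.mono' hΨc.aestronglyMeasurable (Filter.Eventually.of_forall fun p => ?_)
    simp only [Function.uncurry, hΨ, norm_mul, RCLike.norm_conj, norm_e, mul_one, Complex.norm_real,
      Real.norm_of_nonneg (hW0 _)]
    exact le_rfl
  have hmain : ((∫ τ : ℝ, ‖∫ t : ℝ, g t * e (-(t * τ))‖ ^ 2 * W τ : ℝ) : ℂ) =
      ∫ q, (∫ τ, Ψ τ q) ∂((volume : Measure ℝ).prod volume) := by
    rw [← integral_complex_ofReal]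
    have h1 : (∫ τ, ((‖∫ t : ℝ, g t * e (-(t * τ))‖ ^ 2 * W τ : ℝ) : ℂ)) =
        ∫ τ, ∫ q, Ψ τ q ∂((volume : Measure ℝ).prod volume) :=
      integral_congr_ae (Filter.Eventually.of_forall fun τ => hZZ τ)
    rw [h1, integral_integral_swap hΨi]
  have hΦ : ∀ q : ℝ × ℝ, ‖∫ τ, Ψ τ q‖ = ‖g q.1‖ * ‖g q.2‖ * Kk (q.2 - q.1) := by
    intro q
    have h1 : ∫ τ, Ψ τ q = (g q.1 * (starRingEnd ℂ) (g q.2)) * ((Kk (q.2 - q.1) : ℝ) : ℂ) := by
      rw [hKhat, ← integral_const_mul]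
      congr 1
      funext τ
      simp only [hΨ, map_mul]
      rw [← e_neg]
      have h2 : e (τ * (q.2 - q.1)) = e (-(q.1 * τ)) * e (-(-(q.2 * τ))) := by
        rw [← e_add]
        congr 1
        ring
      rw [h2]
      ring
    rw [h1, norm_mul, norm_mul, RCLike.norm_conj, Complex.norm_real, Real.norm_of_nonneg (hK0 _)]
  have hn : ∫ τ : ℝ, ‖∫ t : ℝ, g t * e (-(t * τ))‖ ^ 2 * W τ ≤
      ∫ q : ℝ × ℝ, ‖g q.1‖ * ‖g q.2‖ * Kk (q.2 - q.1) ∂((volume : Measure ℝ).prod volume) := by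
    have h1 : ∫ τ : ℝ, ‖∫ t : ℝ, g t * e (-(t * τ))‖ ^ 2 * W τ ≤
        ‖((∫ τ : ℝ, ‖∫ t : ℝ, g t * e (-(t * τ))‖ ^ 2 * W τ : ℝ) : ℂ)‖ := by
      rw [Complex.norm_real]
      exact le_abs_self _
    refine h1.trans ?_
    rw [hmain]
    refine (norm_integral_le_integral_norm _).trans (le_of_eq ?_)
    simp only [hΦ]
  refine hn.trans ?_
  -- Schur
  have hsq1 : Integrable (fun q : ℝ × ℝ => ‖g q.1‖ ^ 2 * Kk (q.2 - q.1)) ((volume : Measure ℝ).prod volume) := by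
    have h1 := hg2.mul_prod hKi
    exact ((measurePreserving_prod_sub (volume : Measure ℝ) (volume : Measure ℝ)).integrable_comp
      h1.aestronglyMeasurable).mpr h1
  have hsw : (fun q : ℝ × ℝ => ‖g q.2‖ ^ 2 * Kk (q.2 - q.1)) =
      (fun q : ℝ × ℝ => ‖g q.1‖ ^ 2 * Kk (q.2 - q.1)) ∘ Prod.swap := by
    funext q
    simp only [Function.comp_apply, Prod.fst_swap, Prod.snd_swap]
    rw [← hKeven (q.2 - q.1), neg_sub]
  have hsq2 : Integrable (fun q : ℝ × ℝ => ‖g q.2‖ ^ 2 * Kk (q.2 - q.1)) ((volume : Measure ℝ).prod volume) := by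
    rw [hsw]
    exact hsq1.swap
  have hI1 : ∫ q : ℝ × ℝ, ‖g q.1‖ ^ 2 * Kk (q.2 - q.1) ∂((volume : Measure ℝ).prod volume) =
      ∫ t : ℝ, ‖g t‖ ^ 2 := by
    rw [integral_prod _ hsq1]
    congr 1
    funext t
    simp only
    rw [integral_const_mul]
    have h1 : ∫ y : ℝ, Kk (y - t) = 1 := by
      rw [← hK1]
      exact integral_sub_right_eq_self Kk t
    rw [h1, mul_one]
  have hI2 : ∫ q : ℝ × ℝ, ‖g q.2‖ ^ 2 * Kk (q.2 - q.1) ∂((volume : Measure ℝ).prod volume) =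
      ∫ t : ℝ, ‖g t‖ ^ 2 := by
    rw [← hI1, hsw]
    exact integral_prod_swap (fun q : ℝ × ℝ => ‖g q.1‖ ^ 2 * Kk (q.2 - q.1))
  have hle : ∀ q : ℝ × ℝ, ‖g q.1‖ * ‖g q.2‖ * Kk (q.2 - q.1) ≤
      1 / 2 * (‖g q.1‖ ^ 2 * Kk (q.2 - q.1)) + 1 / 2 * (‖g q.2‖ ^ 2 * Kk (q.2 - q.1)) := by
    intro q
    have h1 := hK0 (q.2 - q.1)
    have h2 : ‖g q.1‖ * ‖g q.2‖ ≤ 1 / 2 * ‖g q.1‖ ^ 2 + 1 / 2 * ‖g q.2‖ ^ 2 := by
      nlinarith [sq_nonneg (‖g q.1‖ - ‖g q.2‖)]
    calc _ ≤ (1 / 2 * ‖g q.1‖ ^ 2 + 1 / 2 * ‖g q.2‖ ^ 2) * Kk (q.2 - q.1) :=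
          mul_le_mul_of_nonneg_right h2 h1
      _ = _ := by ring
  have hmono : ∫ q : ℝ × ℝ, ‖g q.1‖ * ‖g q.2‖ * Kk (q.2 - q.1) ∂((volume : Measure ℝ).prod volume) ≤
      ∫ q : ℝ × ℝ, (1 / 2 * (‖g q.1‖ ^ 2 * Kk (q.2 - q.1)) + 1 / 2 * (‖g q.2‖ ^ 2 * Kk (q.2 - q.1)))
        ∂((volume : Measure ℝ).prod volume) := by
    refine integral_mono_of_nonneg (Filter.Eventually.of_forall fun q => ?_)
      ((hsq1.const_mul _).add (hsq2.const_mul _)) (Filter.Eventually.of_forall hle)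
    have := hK0 (q.2 - q.1)
    show 0 ≤ _
    positivity
  refine hmono.trans (le_of_eq ?_)
  rw [integral_add (hsq1.const_mul _) (hsq2.const_mul _), integral_const_mul, integral_const_mul, hI1, hI2]
  ring

/-- the square of the symbol against a bounded function is integrable -/
theorem pl_int {ι : Type*} (s : Finset ι) (v : ι → ℝ) (q : ℕ) {b b0 : ℝ} (hb : 0 < b) (hb0 : 0 < b0) :
    Integrable (fun t => ((rho q b b0 t : ℝ) : ℂ) * Fs s v t) ∧
    Integrable (fun t => ‖((rho q b b0 t : ℝ) : ℂ) * Fs s v t‖ ^ 2) := by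
  have hc : Continuous (fun t => ((rho q b b0 t : ℝ) : ℂ) * Fs s v t) :=
    (Complex.continuous_ofReal.comp (continuous_rho q b b0)).mul (continuous_Fs s v)
  have hn : ∀ t, ‖((rho q b b0 t : ℝ) : ℂ) * Fs s v t‖ ≤ rho q b b0 t * s.card := by
    intro t
    rw [norm_mul, Complex.norm_real, Real.norm_of_nonneg (rho_nonneg q hb hb0 t)]
    exact mul_le_mul_of_nonneg_left (norm_Fs_le s v t) (rho_nonneg q hb hb0 t)
  have hr1 : ∀ t, rho q b b0 t ≤ 1 := by
    intro t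
    refine (rho_le q hb hb0 t).trans (Real.exp_le_one_iff.mpr ?_)
    have : 0 ≤ Real.pi * t ^ 2 / b := by positivity
    linarith
  constructor
  · exact ((integrable_rho q hb hb0).mul_const _).mono' hc.aestronglyMeasurable
      (Filter.Eventually.of_forall hn)
  · refine ((integrable_rho q hb hb0).mul_const ((s.card : ℝ) ^ 2)).mono' (hc.norm.pow 2).aestronglyMeasurable
      (Filter.Eventually.of_forall fun t => ?_)
    rw [Real.norm_of_nonneg (by positivity)]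
    have h1 := hn t
    have h2 := rho_nonneg q hb hb0 t
    have h3 := hr1 t
    calc ‖((rho q b b0 t : ℝ) : ℂ) * Fs s v t‖ ^ 2 ≤ (rho q b b0 t * s.card) ^ 2 :=
          pow_le_pow_left₀ (norm_nonneg _) h1 2
      _ = rho q b b0 t * (rho q b b0 t * (s.card : ℝ) ^ 2) := by ring
      _ ≤ rho q b b0 t * (1 * (s.card : ℝ) ^ 2) := by gcongr
      _ = _ := by ring

theorem pl_hat {ι : Type*} (s : Finset ι) (v : ι → ℝ) (q : ℕ) {b b0 : ℝ} (hb : 0 < b) (hb0 : 0 < b0)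
    (τ : ℝ) : ((Hs q b b0 s v τ : ℝ) : ℂ) = ∫ t : ℝ, (((rho q b b0 t : ℝ) : ℂ) * Fs s v t) * e (-(t * τ)) := by
  have h1 : ∀ t : ℝ, (((rho q b b0 t : ℝ) : ℂ) * Fs s v t) * e (-(t * τ)) =
      ∑ n ∈ s, ((rho q b b0 t : ℝ) : ℂ) * e (t * (v n - τ)) := by
    intro t
    unfold Fs
    rw [Finset.mul_sum, Finset.sum_mul]
    refine Finset.sum_congr rfl fun n _ => ?_
    have h2 : e (t * (v n - τ)) = e (t * v n) * e (-(t * τ)) := by
      rw [← e_add]
      congr 1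
      ring
    rw [h2]
    ring
  simp_rw [h1]
  rw [integral_finsetSum]
  · unfold Hs
    rw [Complex.ofReal_sum]
    exact Finset.sum_congr rfl fun n _ => ker_hat q hb hb0 _
  · intro n _
    have hc : Continuous (fun t => ((rho q b b0 t : ℝ) : ℂ) * e (t * (v n - τ))) :=
      (Complex.continuous_ofReal.comp (continuous_rho q b b0)).mul (continuous_e.comp (by fun_prop))
    refine (integrable_rho q hb hb0).mono' hc.aestronglyMeasurable (Filter.Eventually.of_forall fun t => ?_)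
    rw [norm_mul, norm_e, mul_one, Complex.norm_real, Real.norm_of_nonneg (rho_nonneg q hb hb0 t)]

theorem continuous_Ker (q : ℕ) (b b0 : ℝ) : Continuous (Ker q b b0) := by
  unfold Ker G
  fun_prop

theorem continuous_Hs {ι : Type*} (q : ℕ) (b b0 : ℝ) (s : Finset ι) (v : ι → ℝ) :
    Continuous (Hs q b b0 s v) := by
  unfold Hs
  exact continuous_finsetSum _ (fun n _ => (continuous_Ker q b b0).comp (by fun_prop))

theorem planch {ι : Type*} (s : Finset ι) (v : ι → ℝ) (q : ℕ) {b b0 X : ℝ} (hb : 0 < b) (hb0 : 0 < b0)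
    (hX : 0 < X) :
    ∫⁻ τ : ℝ, ENNReal.ofReal (Hs q b b0 s v τ ^ 2 * Real.exp (-(Real.pi * τ ^ 2 / X ^ 2))) ≤
      ∫⁻ t : ℝ, ENNReal.ofReal (rho q b b0 t ^ 2 * ‖Fs s v t‖ ^ 2) := by
  set g : ℝ → ℂ := fun t => ((rho q b b0 t : ℝ) : ℂ) * Fs s v t with hg
  have hgc : Continuous g :=
    (Complex.continuous_ofReal.comp (continuous_rho q b b0)).mul (continuous_Fs s v)
  obtain ⟨hgi, hg2⟩ := pl_int s v q hb hb0
  have hmain := pl_main g hgc hgi hg2 hX
  have hHn : ∀ τ, Hs q b b0 s v τ ^ 2 = ‖∫ t : ℝ, g t * e (-(t * τ))‖ ^ 2 := by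
    intro τ
    have h1 := pl_hat s v q hb hb0 τ
    have h2 : ‖((Hs q b b0 s v τ : ℝ) : ℂ)‖ = ‖∫ t : ℝ, g t * e (-(t * τ))‖ := by rw [h1]
    rw [← h2, Complex.norm_real, Real.norm_eq_abs, sq_abs]
  have hgn : ∀ t, rho q b b0 t ^ 2 * ‖Fs s v t‖ ^ 2 = ‖g t‖ ^ 2 := by
    intro t
    simp only [hg]
    rw [norm_mul, Complex.norm_real, mul_pow, Real.norm_eq_abs, sq_abs]
  simp_rw [hHn, hgn]
  have hWi : Integrable (fun τ : ℝ => Real.exp (-(Real.pi * τ ^ 2 / X ^ 2))) := by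
    have h1 : Integrable (fun τ : ℝ => Real.exp (-(Real.pi / X ^ 2) * τ ^ 2)) :=
      integrable_exp_neg_mul_sq (by positivity)
    refine h1.congr (Filter.Eventually.of_forall fun τ => ?_)
    simp only
    congr 1
    ring
  have hi1 : Integrable (fun τ : ℝ => ‖∫ t : ℝ, g t * e (-(t * τ))‖ ^ 2 *
      Real.exp (-(Real.pi * τ ^ 2 / X ^ 2))) := by
    have hc : Continuous (fun τ : ℝ => ‖∫ t : ℝ, g t * e (-(t * τ))‖ ^ 2 *
        Real.exp (-(Real.pi * τ ^ 2 / X ^ 2))) := by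
      simp_rw [← hHn]
      exact ((continuous_Hs q b b0 s v).pow 2).mul (by fun_prop)
    refine (hWi.const_mul ((∫ t, ‖g t‖) ^ 2)).mono' hc.aestronglyMeasurable
      (Filter.Eventually.of_forall fun τ => ?_)
    rw [Real.norm_of_nonneg (mul_nonneg (by positivity) (Real.exp_pos _).le)]
    refine mul_le_mul_of_nonneg_right (pow_le_pow_left₀ (norm_nonneg _) ?_ 2) (Real.exp_pos _).le
    refine (norm_integral_le_integral_norm _).trans (le_of_eq ?_)
    congr 1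
    funext t
    rw [norm_mul, norm_e, mul_one]
  rw [← ofReal_integral_eq_lintegral_ofReal hi1
    (Filter.Eventually.of_forall fun τ => mul_nonneg (by positivity) (Real.exp_pos _).le),
    ← ofReal_integral_eq_lintegral_ofReal hg2 (Filter.Eventually.of_forall fun t => by positivity)]
  exact ENNReal.ofReal_le_ofReal hmain

end Pool.H19.Fc
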