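import Pool.Agent.H19.Fc.Meas

/-!
# Module SQ: squaring with a generic coefficient

`sq_mul`: Tonelli: `∫_μ volume {τ ∈ E : τ - μ W ∈ E} = ∫_(τ ∈ E) volume {μ : τ - μ W ∈ E} dτ`, and
`volume {μ : τ - μ W ∈ E} = volume E / W` (`Measure.addHaar_preimage_smul` or `Real.volume_preimage_mul_left`, translation and
reflection invariance). (The set `{(μ,τ) : τ ∈ E ∧ τ - μ W ∈ E}` is measurable.)
`step_int`: let `W = ⌊(2^j/(2^(s+1) L))^(1/k)⌋₊` (real power `1/k`), `W^k ≤ 2^j/(2^(s+1) L)`, and for `j` large `W ≥ (1/2)(..)^(1/k)`, so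
`W^k ≥ 2^j/(2^(s+1) L 2^k) > 0`. Let `E = Mi g (η 2^(-cj)) ∩ Icc (2^j/2^(s+1)) (2^j)`. For `μ ∈ Icc L⁻¹ L` and `τ` in the missed set
of the new family in `Icc (2^j/2^s) (2^j)`: `p = (0, x)` gives `τ ∈ Mi g` (`0^k = 0`), `p = (W, x)` gives `τ - μ W^k ∈ Mi g`
(`|μ W^k + g x - τ| = |g x - (τ - μ W^k)|`), and `τ - μ W^k ≥ 2^j/2^s - L W^k ≥ 2^j/2^(s+1)`, `≤ 2^j`. So the integral is
`≤ ∫_μ volume {τ ∈ E, τ - μ W^k ∈ E} ≤ volume E^2/W^k ≤ (C 2^(j(1-β)))^2 2^(s+1+k) L/2^j` (use `|C|`).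
-/

set_option autoImplicit false

namespace Pool.H19.Fc

open MeasureTheory Set Pool.H19.Wa Pool.H48.Wt

theorem sq_mul (E : Set ℝ) (hE : MeasurableSet E) (W : ℝ) (hW : 0 < W) :
    ∫⁻ μ : ℝ, volume {τ : ℝ | τ ∈ E ∧ τ - μ * W ∈ E} ≤ volume E * volume E / ENNReal.ofReal W := by
  set S : Set (ℝ × ℝ) := {p | p.2 ∈ E ∧ p.2 - p.1 * W ∈ E} with hS
  have hSm : MeasurableSet S := by
    have h1 : MeasurableSet {p : ℝ × ℝ | p.2 ∈ E} := measurable_snd hE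
    have h2 : Measurable (fun p : ℝ × ℝ => p.2 - p.1 * W) := by fun_prop
    exact h1.inter (h2 hE)
  have h1 : ∫⁻ μ : ℝ, volume {τ : ℝ | τ ∈ E ∧ τ - μ * W ∈ E} =
      ((volume : Measure ℝ).prod (volume : Measure ℝ)) S := by
    rw [Measure.prod_apply hSm]
    rfl
  have h2 : ∀ τ : ℝ, volume ((fun μ : ℝ => (μ, τ)) ⁻¹' S) ≤
      E.indicator (fun _ => ENNReal.ofReal W⁻¹ * volume E) τ := by
    intro τ
    by_cases hτ : τ ∈ E
    · rw [indicator_of_mem hτ]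
      have h3 : (fun μ : ℝ => (μ, τ)) ⁻¹' S ⊆ (fun x : ℝ => x * W) ⁻¹' ((fun x => τ - x) ⁻¹' E) := by
        intro μ hμ
        exact hμ.2
      refine (measure_mono h3).trans ?_
      rw [Real.volume_preimage_mul_right hW.ne', abs_of_pos (inv_pos.mpr hW)]
      have h4 : volume ((fun x => τ - x) ⁻¹' E) = volume E :=
        (Measure.measurePreserving_sub_left (volume : Measure ℝ) τ).measure_preimage hE.nullMeasurableSet
      rw [h4]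
    · rw [indicator_of_notMem hτ]
      have h3 : (fun μ : ℝ => (μ, τ)) ⁻¹' S = ∅ := by
        ext μ
        simp only [mem_preimage, mem_empty_iff_false, iff_false]
        intro h
        exact hτ h.1
      rw [h3, measure_empty]
  rw [h1, Measure.prod_apply_symm hSm]
  refine (lintegral_mono h2).trans ?_
  rw [lintegral_indicator hE, lintegral_const, Measure.restrict_apply_univ,
    ENNReal.ofReal_inv_of_pos hW, ENNReal.div_eq_inv_mul, mul_assoc]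

theorem step_int {ι : Type*} [Countable ι] (k : ℕ) (hk : 1 ≤ k) (g : ι → ℝ) (L η c : ℝ) (hL : 1 ≤ L) (s : ℕ)
    (β C : ℝ)
    (h : ∀ j : ℕ, volume (Mi g (η * (2 : ℝ) ^ (-(c * j))) ∩ Icc ((2 : ℝ) ^ j / 2 ^ (s + 1)) ((2 : ℝ) ^ j)) ≤
      ENNReal.ofReal (C * (2 : ℝ) ^ ((j : ℝ) * (1 - β)))) :
    ∃ C' : ℝ, ∃ j0 : ℕ, ∀ j : ℕ, j0 ≤ j →
      ∫⁻ μ in Icc L⁻¹ L, volume (Mi (fun p : ℕ × ι => μ * (p.1 : ℝ) ^ k + g p.2) (η * (2 : ℝ) ^ (-(c * j))) ∩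
          Icc ((2 : ℝ) ^ j / 2 ^ s) ((2 : ℝ) ^ j)) ≤
        ENNReal.ofReal (C' * (2 : ℝ) ^ ((j : ℝ) * (1 - 2 * β))) := by
  have hL0 : 0 < L := by linarith
  obtain ⟨j0, hj0⟩ := pow_unbounded_of_one_lt ((2 : ℝ) ^ (s + 1) * L) (one_lt_two)
  refine ⟨C ^ 2 * ((2 : ℝ) ^ (s + 1) * L * 2 ^ k), j0, fun j hj => ?_⟩
  set r : ℝ := η * (2 : ℝ) ^ (-(c * j)) with hr
  set y : ℝ := (2 : ℝ) ^ j / (2 ^ (s + 1) * L) with hy
  have hden : (0 : ℝ) < 2 ^ (s + 1) * L := by positivity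
  have hy1 : 1 ≤ y := by
    rw [hy, le_div_iff₀ hden, one_mul]
    exact hj0.le.trans (pow_le_pow_right₀ one_le_two hj)
  set x : ℝ := y ^ ((k : ℝ)⁻¹) with hx
  have hx1 : 1 ≤ x := Real.one_le_rpow hy1 (by positivity)
  have hxk : x ^ k = y := by
    rw [hx, ← Real.rpow_natCast, ← Real.rpow_mul (by linarith), inv_mul_cancel₀, Real.rpow_one]
    exact_mod_cast (by omega : k ≠ 0)
  set W : ℕ := ⌊x⌋₊ with hW
  have hWx : (W : ℝ) ≤ x := Nat.floor_le (by linarith)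
  have hW1 : (1 : ℝ) ≤ W := by
    have : 1 ≤ W := Nat.le_floor (by exact_mod_cast hx1)
    exact_mod_cast this
  have hW2 : x / 2 ≤ W := by
    have h1 : x < W + 1 := Nat.lt_floor_add_one x
    linarith
  have hWk : (W : ℝ) ^ k ≤ y := by
    rw [← hxk]
    exact pow_le_pow_left₀ (by linarith) hWx k
  have hWk2 : y / 2 ^ k ≤ (W : ℝ) ^ k := by
    rw [← hxk, ← div_pow]
    exact pow_le_pow_left₀ (by linarith) hW2 k
  have hWk0 : (0 : ℝ) < (W : ℝ) ^ k := by positivity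
  set E : Set ℝ := Mi g r ∩ Icc ((2 : ℝ) ^ j / 2 ^ (s + 1)) ((2 : ℝ) ^ j) with hE
  have hEm : MeasurableSet E := (meas_sec g r).inter measurableSet_Icc
  have hLW : L * (W : ℝ) ^ k ≤ (2 : ℝ) ^ j / 2 ^ (s + 1) := by
    calc L * (W : ℝ) ^ k ≤ L * y := mul_le_mul_of_nonneg_left hWk hL0.le
      _ = (2 : ℝ) ^ j / 2 ^ (s + 1) := by
        rw [hy]
        field_simp
  have hhalf : (2 : ℝ) ^ j / 2 ^ s = (2 : ℝ) ^ j / 2 ^ (s + 1) + (2 : ℝ) ^ j / 2 ^ (s + 1) := by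
    rw [pow_succ]
    field_simp
    ring
  have hpos : (0 : ℝ) < (2 : ℝ) ^ j / 2 ^ (s + 1) := by positivity
  have hsub : ∀ μ ∈ Icc L⁻¹ L,
      Mi (fun p : ℕ × ι => μ * (p.1 : ℝ) ^ k + g p.2) r ∩ Icc ((2 : ℝ) ^ j / 2 ^ s) ((2 : ℝ) ^ j) ⊆
        {τ : ℝ | τ ∈ E ∧ τ - μ * (W : ℝ) ^ k ∈ E} := by
    rintro μ ⟨hμ1, hμ2⟩ τ ⟨hτ1, hτ2, hτ3⟩
    have hμ0 : 0 ≤ μ := (inv_nonneg.mpr hL0.le).trans hμ1
    have hμW : μ * (W : ℝ) ^ k ≤ (2 : ℝ) ^ j / 2 ^ (s + 1) :=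
      (mul_le_mul_of_nonneg_right hμ2 hWk0.le).trans hLW
    have hμW0 : 0 ≤ μ * (W : ℝ) ^ k := mul_nonneg hμ0 hWk0.le
    refine ⟨⟨fun i => ?_, by linarith, hτ3⟩, ⟨fun i => ?_, by linarith, by linarith⟩⟩
    · have h1 := hτ1 (0, i)
      simp only [Nat.cast_zero, zero_pow (by omega : k ≠ 0), mul_zero, zero_add] at h1
      exact h1
    · have h1 := hτ1 (W, i)
      simp only at h1
      have h2 : g i - (τ - μ * (W : ℝ) ^ k) = μ * (W : ℝ) ^ k + g i - τ := by ring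
      rw [h2]
      exact h1
  have hEv : volume E ≤ ENNReal.ofReal (|C| * (2 : ℝ) ^ ((j : ℝ) * (1 - β))) := by
    refine (h j).trans (ENNReal.ofReal_le_ofReal ?_)
    exact mul_le_mul_of_nonneg_right (le_abs_self C) (by positivity)
  calc ∫⁻ μ in Icc L⁻¹ L, volume (Mi (fun p : ℕ × ι => μ * (p.1 : ℝ) ^ k + g p.2) r ∩
          Icc ((2 : ℝ) ^ j / 2 ^ s) ((2 : ℝ) ^ j))
      ≤ ∫⁻ μ in Icc L⁻¹ L, volume {τ : ℝ | τ ∈ E ∧ τ - μ * (W : ℝ) ^ k ∈ E} := by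
        refine setLIntegral_mono' measurableSet_Icc (fun μ hμ => measure_mono (hsub μ hμ))
    _ ≤ ∫⁻ μ : ℝ, volume {τ : ℝ | τ ∈ E ∧ τ - μ * (W : ℝ) ^ k ∈ E} := setLIntegral_le_lintegral _ _
    _ ≤ volume E * volume E / ENNReal.ofReal ((W : ℝ) ^ k) := sq_mul E hEm _ hWk0
    _ ≤ ENNReal.ofReal (|C| * (2 : ℝ) ^ ((j : ℝ) * (1 - β))) *
          ENNReal.ofReal (|C| * (2 : ℝ) ^ ((j : ℝ) * (1 - β))) / ENNReal.ofReal ((W : ℝ) ^ k) := by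
        gcongr
    _ = ENNReal.ofReal ((|C| * (2 : ℝ) ^ ((j : ℝ) * (1 - β))) *
          (|C| * (2 : ℝ) ^ ((j : ℝ) * (1 - β))) / (W : ℝ) ^ k) := by
        rw [← ENNReal.ofReal_mul (by positivity), ← ENNReal.ofReal_div_of_pos hWk0]
    _ ≤ ENNReal.ofReal (C ^ 2 * ((2 : ℝ) ^ (s + 1) * L * 2 ^ k) *
          (2 : ℝ) ^ ((j : ℝ) * (1 - 2 * β))) := by
        apply ENNReal.ofReal_le_ofReal
        rw [div_le_iff₀ hWk0]
        have h1 : (|C| * (2 : ℝ) ^ ((j : ℝ) * (1 - β))) * (|C| * (2 : ℝ) ^ ((j : ℝ) * (1 - β))) =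
            C ^ 2 * ((2 : ℝ) ^ ((j : ℝ) * (1 - 2 * β)) * (2 : ℝ) ^ j) := by
          have h2 : (2 : ℝ) ^ ((j : ℝ) * (1 - β)) * (2 : ℝ) ^ ((j : ℝ) * (1 - β)) =
              (2 : ℝ) ^ ((j : ℝ) * (1 - 2 * β)) * (2 : ℝ) ^ j := by
            rw [← Real.rpow_natCast, ← Real.rpow_add two_pos, ← Real.rpow_add two_pos]
            congr 1
            ring
          rw [← h2, ← sq_abs C]
          ring
        rw [h1]
        have h3 : (2 : ℝ) ^ j ≤ (2 : ℝ) ^ (s + 1) * L * 2 ^ k * (W : ℝ) ^ k := by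
          have h4 : y / 2 ^ k * (2 ^ (s + 1) * L * 2 ^ k) = (2 : ℝ) ^ j := by
            rw [hy]
            field_simp
          calc (2 : ℝ) ^ j = y / 2 ^ k * (2 ^ (s + 1) * L * 2 ^ k) := h4.symm
            _ ≤ (W : ℝ) ^ k * (2 ^ (s + 1) * L * 2 ^ k) :=
              mul_le_mul_of_nonneg_right hWk2 (by positivity)
            _ = _ := by ring
        calc C ^ 2 * ((2 : ℝ) ^ ((j : ℝ) * (1 - 2 * β)) * (2 : ℝ) ^ j)
            ≤ C ^ 2 * ((2 : ℝ) ^ ((j : ℝ) * (1 - 2 * β)) *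
              ((2 : ℝ) ^ (s + 1) * L * 2 ^ k * (W : ℝ) ^ k)) := by
              apply mul_le_mul_of_nonneg_left _ (sq_nonneg C)
              exact mul_le_mul_of_nonneg_left h3 (by positivity)
          _ = _ := by ring

end Pool.H19.Fc
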