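import Pool.Agent.H19.Fc.BaseInt
import Pool.Agent.H19.Fc.Sq

/-!
# Tail bounds for the missed measure (dimension of the exceptional coefficients)

`Bad n f L η c s β j`: coefficient vectors in the box for which the missed set at scale `2^j` has measure larger than `2^(j(1-β))`.
`Qp`: its measure is `O(2^(-jv))`. `base_Qp`: Markov and `base_int`. `step_one`: the squaring step at one scale.
-/

set_option autoImplicit false

namespace Pool.H19.Fc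

open MeasureTheory Set Pool.H19.Wa Pool.H48.Wt

noncomputable section

/-- coefficient vectors with a large missed set at scale `2^j` -/
def Bad {ι : Type*} (n : ℕ) (f : ι → (Fin n → ℝ) → ℝ) (L η c : ℝ) (s : ℕ) (β : ℝ) (j : ℕ) :
    Set (Fin n → ℝ) :=
  {lam | lam ∈ Bx n L ∧ ENNReal.ofReal ((2 : ℝ) ^ ((j : ℝ) * (1 - β))) <
    volume (Mi (fun x => f x lam) (η * (2 : ℝ) ^ (-(c * j))) ∩ Icc ((2 : ℝ) ^ j / 2 ^ s) ((2 : ℝ) ^ j))}

/-- tail bound -/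
def Qp {ι : Type*} (n : ℕ) (f : ι → (Fin n → ℝ) → ℝ) (L η c : ℝ) (s : ℕ) (β v : ℝ) : Prop :=
  ∃ C : ℝ, 0 ≤ C ∧ ∃ j0 : ℕ, ∀ j : ℕ, j0 ≤ j →
    volume (Bad n f L η c s β j) ≤ ENNReal.ofReal (C * (2 : ℝ) ^ (-((j : ℝ) * v)))

end

/-- Markov with powers of two -/
theorem markov_two {Ω : Type*} [MeasurableSpace Ω] (μ : Measure Ω) (M : Ω → ENNReal) (hM : Measurable M)
    (C a b : ℝ) (h : ∫⁻ ω, M ω ∂μ ≤ ENNReal.ofReal (C * (2 : ℝ) ^ a)) :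
    μ {ω | ENNReal.ofReal ((2 : ℝ) ^ b) < M ω} ≤ ENNReal.ofReal (C * (2 : ℝ) ^ (a - b)) := by
  have h1 := mul_meas_ge_le_lintegral (μ := μ) hM (ENNReal.ofReal ((2 : ℝ) ^ b))
  have h2 : μ {ω | ENNReal.ofReal ((2 : ℝ) ^ b) < M ω} ≤ μ {ω | ENNReal.ofReal ((2 : ℝ) ^ b) ≤ M ω} :=
    measure_mono fun ω hω => by
      have h5 : ENNReal.ofReal ((2 : ℝ) ^ b) < M ω := hω
      exact h5.le
  have hb : (0 : ℝ) < (2 : ℝ) ^ b := by positivity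
  have h3 : ENNReal.ofReal ((2 : ℝ) ^ b) ≠ 0 := by
    rw [Ne, ENNReal.ofReal_eq_zero]
    linarith
  refine h2.trans ?_
  have h4 : μ {ω | ENNReal.ofReal ((2 : ℝ) ^ b) ≤ M ω} ≤
      ENNReal.ofReal (C * (2 : ℝ) ^ a) / ENNReal.ofReal ((2 : ℝ) ^ b) := by
    rw [ENNReal.le_div_iff_mul_le (Or.inl h3) (Or.inl ENNReal.ofReal_ne_top), mul_comm]
    exact h1.trans h
  refine h4.trans (le_of_eq ?_)
  rw [← ENNReal.ofReal_div_of_pos hb]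
  congr 1
  rw [Real.rpow_sub (by norm_num)]
  ring

theorem base_Qp (k m s : ℕ) (hk : 2 ≤ k) (hm : 1 ≤ m) (u : Fin (m + 1) → ℕ) (hu : ∀ i, 1 ≤ u i)
    (hu0 : ∀ i, u i ≤ u 0) (L η c β v : ℝ) (hL : 1 ≤ L) (hη : 0 < η) (hc : 0 ≤ c)
    (hβ : β + v < (m : ℝ) - c - ∑ i, (1 - 1 / (k : ℝ)) ^ (u i)) :
    Qp m (val k u) L η c s β v := by
  set d : ℝ := (m : ℝ) - c - ∑ i, (1 - 1 / (k : ℝ)) ^ (u i) with hd
  obtain ⟨C, j0, h⟩ := base_int k m s hk hm u hu hu0 L η c (d - β - v) hL hη hc (by linarith)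
  refine ⟨|C|, abs_nonneg C, j0, fun j hj => ?_⟩
  have h1 := h j hj
  have hmeas := meas_vol (val k u) (measurable_val k u) (η * (2 : ℝ) ^ (-(c * j)))
    (measurableSet_Icc (a := (2 : ℝ) ^ j / 2 ^ s) (b := (2 : ℝ) ^ j))
  have h2 := markov_two ((volume : Measure (Fin m → ℝ)).restrict (Bx m L)) _ hmeas C
    ((j : ℝ) * (1 - d + (d - β - v))) ((j : ℝ) * (1 - β)) h1
  have h3 : volume (Bad m (val k u) L η c s β j) =
      (volume : Measure (Fin m → ℝ)).restrict (Bx m L)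
        {lam | ENNReal.ofReal ((2 : ℝ) ^ ((j : ℝ) * (1 - β))) <
          volume (Mi (fun x => val k u x lam) (η * (2 : ℝ) ^ (-(c * j))) ∩
            Icc ((2 : ℝ) ^ j / 2 ^ s) ((2 : ℝ) ^ j))} := by
    rw [Measure.restrict_apply (measurableSet_lt measurable_const hmeas)]
    congr 1
    ext lam
    unfold Bad
    simp only [mem_ofPred_eq, mem_inter_iff]
    exact and_comm
  rw [h3]
  refine h2.trans (ENNReal.ofReal_le_ofReal ?_)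
  have h4 : (j : ℝ) * (1 - d + (d - β - v)) - (j : ℝ) * (1 - β) = -((j : ℝ) * v) := by ring
  rw [h4]
  exact mul_le_mul_of_nonneg_right (le_abs_self C) (by positivity)

theorem step_one (k : ℕ) (hk : 1 ≤ k) (L : ℝ) (hL : 1 ≤ L) (s : ℕ) :
    ∃ j0 : ℕ, ∀ j : ℕ, j0 ≤ j → ∀ {ι : Type} [Countable ι] (g : ι → ℝ) (r : ℝ),
      ∫⁻ μ in Icc L⁻¹ L, volume (Mi (fun p : ℕ × ι => μ * (p.1 : ℝ) ^ k + g p.2) r ∩
          Icc ((2 : ℝ) ^ j / 2 ^ s) ((2 : ℝ) ^ j)) ≤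
        volume (Mi g r ∩ Icc ((2 : ℝ) ^ j / 2 ^ (s + 1)) ((2 : ℝ) ^ j)) *
          volume (Mi g r ∩ Icc ((2 : ℝ) ^ j / 2 ^ (s + 1)) ((2 : ℝ) ^ j)) *
          ENNReal.ofReal (((2 : ℝ) ^ (s + 1) * L * 2 ^ k) / 2 ^ j) := by
  have hL0 : 0 < L := by linarith
  obtain ⟨j0, hj0⟩ := pow_unbounded_of_one_lt ((2 : ℝ) ^ (s + 1) * L) (one_lt_two)
  refine ⟨j0, fun j hj ι _ g r => ?_⟩
  set y : ℝ := (2 : ℝ) ^ j / (2 ^ (s + 1) * L) with hy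
  have hden : (0 : ℝ) < 2 ^ (s + 1) * L := by positivity
  have hy1 : 1 ≤ y := by
    rw [hy, le_div_iff₀ hden, one_mul]
    exact hj0.le.trans (pow_le_pow_right₀ one_le_two hj)
  set x : ℝ := y ^ ((k : ℝ)⁻¹) with hx
  have hx1 : 1 ≤ x := Real.one_le_rpow hy1 (by positivity)
  have hxk : x ^ k = y := by
    rw [hx, ← Real.rpow_natCast, ← Real.rpow_mul (by linarith), inv_mul_cancel₀, Real.rpow_one]
    exact_mod_cast (by omega : k ≠ 0)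
  set W : ℕ := ⌊x⌋₊ with hW
  have hWx : (W : ℝ) ≤ x := Nat.floor_le (by linarith)
  have hW1 : (1 : ℝ) ≤ W := by
    have : 1 ≤ W := Nat.le_floor (by exact_mod_cast hx1)
    exact_mod_cast this
  have hW2 : x / 2 ≤ W := by
    have h1 : x < W + 1 := Nat.lt_floor_add_one x
    linarith
  have hWk : (W : ℝ) ^ k ≤ y := by
    rw [← hxk]
    exact pow_le_pow_left₀ (by linarith) hWx k
  have hWk2 : y / 2 ^ k ≤ (W : ℝ) ^ k := by
    rw [← hxk, ← div_pow]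
    exact pow_le_pow_left₀ (by linarith) hW2 k
  have hWk0 : (0 : ℝ) < (W : ℝ) ^ k := by positivity
  set E : Set ℝ := Mi g r ∩ Icc ((2 : ℝ) ^ j / 2 ^ (s + 1)) ((2 : ℝ) ^ j) with hE
  have hEm : MeasurableSet E := (meas_sec g r).inter measurableSet_Icc
  have hLW : L * (W : ℝ) ^ k ≤ (2 : ℝ) ^ j / 2 ^ (s + 1) := by
    calc L * (W : ℝ) ^ k ≤ L * y := mul_le_mul_of_nonneg_left hWk hL0.le
      _ = (2 : ℝ) ^ j / 2 ^ (s + 1) := by
        rw [hy]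
        field_simp
  have hhalf : (2 : ℝ) ^ j / 2 ^ s = (2 : ℝ) ^ j / 2 ^ (s + 1) + (2 : ℝ) ^ j / 2 ^ (s + 1) := by
    rw [pow_succ]
    field_simp
    ring
  have hpos : (0 : ℝ) < (2 : ℝ) ^ j / 2 ^ (s + 1) := by positivity
  have hsub : ∀ μ ∈ Icc L⁻¹ L,
      Mi (fun p : ℕ × ι => μ * (p.1 : ℝ) ^ k + g p.2) r ∩ Icc ((2 : ℝ) ^ j / 2 ^ s) ((2 : ℝ) ^ j) ⊆
        {τ : ℝ | τ ∈ E ∧ τ - μ * (W : ℝ) ^ k ∈ E} := by
    rintro μ ⟨hμ1, hμ2⟩ τ ⟨hτ1, hτ2, hτ3⟩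
    have hμ0 : 0 ≤ μ := (inv_nonneg.mpr hL0.le).trans hμ1
    have hμW : μ * (W : ℝ) ^ k ≤ (2 : ℝ) ^ j / 2 ^ (s + 1) :=
      (mul_le_mul_of_nonneg_right hμ2 hWk0.le).trans hLW
    have hμW0 : 0 ≤ μ * (W : ℝ) ^ k := mul_nonneg hμ0 hWk0.le
    refine ⟨⟨fun i => ?_, by linarith, hτ3⟩, ⟨fun i => ?_, by linarith, by linarith⟩⟩
    · have h1 := hτ1 (0, i)
      simp only [Nat.cast_zero, zero_pow (by omega : k ≠ 0), mul_zero, zero_add] at h1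
      exact h1
    · have h1 := hτ1 (W, i)
      simp only at h1
      have h2 : g i - (τ - μ * (W : ℝ) ^ k) = μ * (W : ℝ) ^ k + g i - τ := by ring
      rw [h2]
      exact h1
  calc ∫⁻ μ in Icc L⁻¹ L, volume (Mi (fun p : ℕ × ι => μ * (p.1 : ℝ) ^ k + g p.2) r ∩
          Icc ((2 : ℝ) ^ j / 2 ^ s) ((2 : ℝ) ^ j))
      ≤ ∫⁻ μ in Icc L⁻¹ L, volume {τ : ℝ | τ ∈ E ∧ τ - μ * (W : ℝ) ^ k ∈ E} := by
        refine setLIntegral_mono' measurableSet_Icc (fun μ hμ => measure_mono (hsub μ hμ))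
    _ ≤ ∫⁻ μ : ℝ, volume {τ : ℝ | τ ∈ E ∧ τ - μ * (W : ℝ) ^ k ∈ E} := setLIntegral_le_lintegral _ _
    _ ≤ volume E * volume E / ENNReal.ofReal ((W : ℝ) ^ k) := sq_mul E hEm _ hWk0
    _ ≤ _ := by
        rw [div_eq_mul_inv, ← ENNReal.ofReal_inv_of_pos hWk0]
        gcongr
        rw [inv_eq_one_div, div_le_div_iff₀ hWk0 (by positivity), one_mul]
        have h4 : y / 2 ^ k * (2 ^ (s + 1) * L * 2 ^ k) = (2 : ℝ) ^ j := by
          rw [hy]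
          field_simp
        calc (2 : ℝ) ^ j = y / 2 ^ k * (2 ^ (s + 1) * L * 2 ^ k) := h4.symm
          _ ≤ (W : ℝ) ^ k * (2 ^ (s + 1) * L * 2 ^ k) :=
            mul_le_mul_of_nonneg_right hWk2 (by positivity)
          _ = _ := by ring

end Pool.H19.Fc
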