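import Pool.Agent.H19.Fc.QBase
import Pool.Agent.H19.Fc.BoxMeas

/-!
# Tail bounds: one more generic coefficient
-/

set_option autoImplicit false

namespace Pool.H19.Fc

open MeasureTheory Set Pool.H19.Wa Pool.H48.Wt

theorem measurable_snoc (n : ℕ) : Measurable (fun x : ℝ × (Fin n → ℝ) =>
    (Fin.snoc (α := fun _ => ℝ) x.2 x.1 : Fin (n + 1) → ℝ)) := by
  rw [measurable_pi_iff]
  intro i
  refine Fin.lastCases ?_ (fun i => ?_) i
  · simp only [Fin.snoc_last]
    exact measurable_fst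
  · simp only [Fin.snoc_castSucc]
    exact (measurable_pi_apply i).comp measurable_snd

/-- Fubini for the last coordinate -/
theorem vol_snoc (n : ℕ) (S : Set (Fin (n + 1) → ℝ)) (hS : MeasurableSet S) :
    volume S = ∫⁻ lam : Fin n → ℝ, volume {μ : ℝ | (Fin.snoc (α := fun _ => ℝ) lam μ : Fin (n + 1) → ℝ) ∈ S} := by
  have hmp := volume_preserving_piFinSuccAbove (fun _ : Fin (n + 1) => ℝ) (Fin.last n)
  set S' : Set (ℝ × (Fin n → ℝ)) := {x | (Fin.snoc (α := fun _ => ℝ) x.2 x.1 : Fin (n + 1) → ℝ) ∈ S} with hS'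
  have hS'm : MeasurableSet S' := measurable_snoc n hS
  have h1 : (MeasurableEquiv.piFinSuccAbove (fun _ : Fin (n + 1) => ℝ) (Fin.last n)) ⁻¹' S' = S := by
    ext a
    have e : (Fin.snoc (α := fun _ => ℝ)
        (MeasurableEquiv.piFinSuccAbove (fun _ : Fin (n + 1) => ℝ) (Fin.last n) a).2
        (MeasurableEquiv.piFinSuccAbove (fun _ : Fin (n + 1) => ℝ) (Fin.last n) a).1 :
        Fin (n + 1) → ℝ) = a := by
      funext i
      refine Fin.lastCases ?_ (fun i => ?_) i
      · simp [MeasurableEquiv.piFinSuccAbove]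
      · rw [Fin.snoc_castSucc]
        change a ((Fin.last n).succAbove i) = a i.castSucc
        rw [Fin.succAbove_last]
    show (Fin.snoc (α := fun _ => ℝ)
        (MeasurableEquiv.piFinSuccAbove (fun _ : Fin (n + 1) => ℝ) (Fin.last n) a).2
        (MeasurableEquiv.piFinSuccAbove (fun _ : Fin (n + 1) => ℝ) (Fin.last n) a).1 :
        Fin (n + 1) → ℝ) ∈ S ↔ a ∈ S
    rw [e]
  have h2 : volume S = (volume : Measure (ℝ × (Fin n → ℝ))) S' := by
    rw [← h1]
    exact hmp.measure_preimage hS'm.nullMeasurableSet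
  rw [h2, Measure.volume_eq_prod, Measure.prod_apply_symm hS'm]
  rfl

/-- the family with one more variable -/
theorem step_Qp {ι : Type} [Countable ι] (k : ℕ) (hk : 1 ≤ k) (n : ℕ) (f : ι → (Fin n → ℝ) → ℝ)
    (hf : ∀ x, Measurable (f x)) (L η c : ℝ) (hL : 1 ≤ L) (s : ℕ) (β β' v : ℝ) (hβ : β' + v ≤ 2 * β)
    (h : Qp n f L η c (s + 1) β v) :
    Qp (n + 1) (fun (p : ℕ × ι) (lam : Fin (n + 1) → ℝ) =>
      lam (Fin.last n) * (p.1 : ℝ) ^ k + f p.2 (fun i => lam i.castSucc)) L η c s β' v := by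
  set F : (ℕ × ι) → (Fin (n + 1) → ℝ) → ℝ := fun p lam =>
    lam (Fin.last n) * (p.1 : ℝ) ^ k + f p.2 (fun i => lam i.castSucc) with hF
  have hFm : ∀ p, Measurable (F p) := by
    intro p
    simp only [hF]
    refine ((measurable_pi_apply _).mul_const _).add ((hf p.2).comp ?_)
    rw [measurable_pi_iff]
    intro i
    exact measurable_pi_apply _
  have hL0 : 0 < L := by linarith
  obtain ⟨C, hC, j1, h1⟩ := h
  obtain ⟨j2, h2⟩ := step_one k hk L hL s
  set C2 : ℝ := (2 : ℝ) ^ (s + 1) * L * 2 ^ k with hC2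
  have hC20 : 0 < C2 := by positivity
  refine ⟨C * L + L ^ n * C2, by positivity, max j1 j2, fun j hj => ?_⟩
  have hj1 : j1 ≤ j := (le_max_left _ _).trans hj
  have hj2 : j2 ≤ j := (le_max_right _ _).trans hj
  set r : ℝ := η * (2 : ℝ) ^ (-(c * j)) with hr
  have hmF : Measurable (fun lam : Fin (n + 1) → ℝ => volume (Mi (fun x => F x lam) r ∩
      Icc ((2 : ℝ) ^ j / 2 ^ s) ((2 : ℝ) ^ j))) := meas_vol F hFm r measurableSet_Icc
  have hmf : Measurable (fun lam : Fin n → ℝ => volume (Mi (fun x => f x lam) r ∩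
      Icc ((2 : ℝ) ^ j / 2 ^ (s + 1)) ((2 : ℝ) ^ j))) := meas_vol f hf r measurableSet_Icc
  have hBm : MeasurableSet (Bad (n + 1) F L η c s β' j) :=
    (measurableSet_Bx (n + 1) L).inter (measurableSet_lt measurable_const hmF)
  have hbm : MeasurableSet (Bad n f L η c (s + 1) β j) :=
    (measurableSet_Bx n L).inter (measurableSet_lt measurable_const hmf)
  rw [vol_snoc n _ hBm]
  -- the section
  have hsec : ∀ lam : Fin n → ℝ,
      {μ : ℝ | (Fin.snoc (α := fun _ => ℝ) lam μ : Fin (n + 1) → ℝ) ∈ Bad (n + 1) F L η c s β' j} ⊆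
        {μ : ℝ | μ ∈ Icc L⁻¹ L ∧ lam ∈ Bx n L ∧ ENNReal.ofReal ((2 : ℝ) ^ ((j : ℝ) * (1 - β'))) <
          volume (Mi (fun p : ℕ × ι => μ * (p.1 : ℝ) ^ k + f p.2 lam) r ∩
            Icc ((2 : ℝ) ^ j / 2 ^ s) ((2 : ℝ) ^ j))} := by
    intro lam μ hμ
    obtain ⟨hμ1, hμ2⟩ := hμ
    refine ⟨?_, ?_, ?_⟩
    · have := hμ1 (Fin.last n) (mem_univ _)
      simpa using this
    · intro i _
      have := hμ1 i.castSucc (mem_univ _)
      simpa using this
    · have e : (fun x => F x (Fin.snoc (α := fun _ => ℝ) lam μ)) =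
          (fun p : ℕ × ι => μ * (p.1 : ℝ) ^ k + f p.2 lam) := by
        funext p
        simp [hF]
      rw [e] at hμ2
      exact hμ2
  have hone : ∀ lam : Fin n → ℝ,
      volume {μ : ℝ | (Fin.snoc (α := fun _ => ℝ) lam μ : Fin (n + 1) → ℝ) ∈ Bad (n + 1) F L η c s β' j} ≤
        (Bad n f L η c (s + 1) β j).indicator (fun _ => ENNReal.ofReal L) lam +
        (Bx n L).indicator (fun _ => ENNReal.ofReal (C2 * (2 : ℝ) ^ (-((j : ℝ) * v)))) lam := by
    intro lam
    by_cases hlam : lam ∈ Bx n L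
    · by_cases hbad : lam ∈ Bad n f L η c (s + 1) β j
      · rw [indicator_of_mem hbad]
        refine le_trans ?_ le_self_add
        calc volume {μ : ℝ | (Fin.snoc (α := fun _ => ℝ) lam μ : Fin (n + 1) → ℝ) ∈
              Bad (n + 1) F L η c s β' j} ≤ volume (Icc L⁻¹ L) :=
              measure_mono fun μ hμ => (hsec lam hμ).1
          _ ≤ ENNReal.ofReal L := by
              rw [Real.volume_Icc]
              apply ENNReal.ofReal_le_ofReal
              have : 0 < L⁻¹ := by positivity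
              linarith
      · rw [indicator_of_mem hlam]
        refine le_trans ?_ le_add_self
        have hgood : volume (Mi (fun x => f x lam) r ∩
            Icc ((2 : ℝ) ^ j / 2 ^ (s + 1)) ((2 : ℝ) ^ j)) ≤ ENNReal.ofReal ((2 : ℝ) ^ ((j : ℝ) * (1 - β))) := by
          by_contra hcon
          exact hbad ⟨hlam, not_le.mp hcon⟩
        have hint : ∫⁻ μ in Icc L⁻¹ L, volume (Mi (fun p : ℕ × ι => μ * (p.1 : ℝ) ^ k + f p.2 lam) r ∩
            Icc ((2 : ℝ) ^ j / 2 ^ s) ((2 : ℝ) ^ j)) ≤ ENNReal.ofReal (C2 * (2 : ℝ) ^ ((j : ℝ) * (1 - 2 * β))) := by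
          refine (h2 j hj2 (fun x => f x lam) r).trans ?_
          calc _ ≤ ENNReal.ofReal ((2 : ℝ) ^ ((j : ℝ) * (1 - β))) * ENNReal.ofReal ((2 : ℝ) ^ ((j : ℝ) * (1 - β))) *
                ENNReal.ofReal (((2 : ℝ) ^ (s + 1) * L * 2 ^ k) / 2 ^ j) := by gcongr
            _ = _ := by
                rw [← ENNReal.ofReal_mul (by positivity), ← ENNReal.ofReal_mul (by positivity)]
                congr 1
                rw [← hC2, ← Real.rpow_add (by norm_num), div_eq_mul_inv, ← Real.rpow_natCast 2 j,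
                  ← Real.rpow_neg (by norm_num), mul_comm C2, ← mul_assoc, ← Real.rpow_add (by norm_num), mul_comm]
                congr 2
                ring
        have hmk := markov_two ((volume : Measure ℝ).restrict (Icc L⁻¹ L)) _
          (meas_vol_one k (fun x => f x lam) r (measurableSet_Icc (a := (2 : ℝ) ^ j / 2 ^ s)
            (b := (2 : ℝ) ^ j))) C2 ((j : ℝ) * (1 - 2 * β)) ((j : ℝ) * (1 - β')) hint
        rw [Measure.restrict_apply (measurableSet_lt measurable_const
          (meas_vol_one k (fun x => f x lam) r measurableSet_Icc))] at hmk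
        calc _ ≤ volume ({μ : ℝ | ENNReal.ofReal ((2 : ℝ) ^ ((j : ℝ) * (1 - β'))) <
              volume (Mi (fun p : ℕ × ι => μ * (p.1 : ℝ) ^ k + f p.2 lam) r ∩
                Icc ((2 : ℝ) ^ j / 2 ^ s) ((2 : ℝ) ^ j))} ∩ Icc L⁻¹ L) :=
              measure_mono fun μ hμ => ⟨(hsec lam hμ).2.2, (hsec lam hμ).1⟩
          _ ≤ _ := hmk
          _ ≤ _ := by
              apply ENNReal.ofReal_le_ofReal
              apply mul_le_mul_of_nonneg_left _ hC20.le
              apply Real.rpow_le_rpow_of_exponent_le (by norm_num)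
              have hj0 : (0 : ℝ) ≤ j := Nat.cast_nonneg j
              nlinarith
    · have hempty : {μ : ℝ | (Fin.snoc (α := fun _ => ℝ) lam μ : Fin (n + 1) → ℝ) ∈
          Bad (n + 1) F L η c s β' j} = ∅ := by
        ext μ
        simp only [mem_ofPred_eq, mem_empty_iff_false, iff_false]
        intro hμ
        exact hlam (hsec lam hμ).2.1
      rw [hempty, measure_empty]
      exact zero_le
  have hBxv : volume (Bx n L) ≤ ENNReal.ofReal (L ^ n) := by
    unfold Bx
    rw [volume_pi_pi]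
    calc ∏ _i : Fin n, volume (Icc L⁻¹ L) ≤ ∏ _i : Fin n, ENNReal.ofReal L := by
          refine Finset.prod_le_prod' fun i _ => ?_
          rw [Real.volume_Icc]
          apply ENNReal.ofReal_le_ofReal
          have : 0 < L⁻¹ := by positivity
          linarith
      _ = _ := by
          rw [Finset.prod_const, Finset.card_univ, Fintype.card_fin, ENNReal.ofReal_pow hL0.le]
  calc ∫⁻ lam : Fin n → ℝ, volume {μ : ℝ | (Fin.snoc (α := fun _ => ℝ) lam μ : Fin (n + 1) → ℝ) ∈
        Bad (n + 1) F L η c s β' j}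
      ≤ ∫⁻ lam : Fin n → ℝ, ((Bad n f L η c (s + 1) β j).indicator (fun _ => ENNReal.ofReal L) lam +
        (Bx n L).indicator (fun _ => ENNReal.ofReal (C2 * (2 : ℝ) ^ (-((j : ℝ) * v)))) lam) :=
        lintegral_mono hone
    _ = ENNReal.ofReal L * volume (Bad n f L η c (s + 1) β j) +
        ENNReal.ofReal (C2 * (2 : ℝ) ^ (-((j : ℝ) * v))) * volume (Bx n L) := by
        rw [lintegral_add_left (measurable_const.indicator hbm), lintegral_indicator_const hbm,
          lintegral_indicator_const (measurableSet_Bx n L)]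
    _ ≤ ENNReal.ofReal L * ENNReal.ofReal (C * (2 : ℝ) ^ (-((j : ℝ) * v))) +
        ENNReal.ofReal (C2 * (2 : ℝ) ^ (-((j : ℝ) * v))) * ENNReal.ofReal (L ^ n) := by
        gcongr
        exact h1 j hj1
    _ = _ := by
        rw [← ENNReal.ofReal_mul hL0.le, ← ENNReal.ofReal_mul (by positivity),
          ← ENNReal.ofReal_add (by positivity) (by positivity)]
        congr 1
        ring

end Pool.H19.Fc
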