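import Pool.Agent.H19.Fc.AvgH
import Pool.Agent.H19.Fc.Lower
import Pool.Agent.H19.Fc.BoxMeas

/-!
# Module SCALE: the one scale bound

Take `A, R` from `cell_lower m hm` and `C1` from `avg_H m A c0`. Let `b0 = 1/(A D_0)^2` (`≤ 1 ≤ b`), `M = ∏ N i.succ/(4 D_0) > 0`.
(a) For `lam ∈ Bx m L` and `τ ∈ Icc Y X` missed, `missed_lower` (with `hlow` from `cell_lower` and `hwin`) gives `M ≤ |Hs|`, and
`exp(-(π τ^2/X^2)) ≥ exp(-π)` (`0 ≤ Y ≤ τ ≤ X`), so by Markov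
`volume (..) ≤ ofReal (exp π/M^2) * ∫⁻ τ, ofReal (Hs^2 exp(-(π τ^2/X^2)))` (the missed set need not be treated exactly: it is
contained in `{τ | M^2 exp(-π) ≤ Hs^2 exp(..)}`, `meas_ge_le_lintegral_div` / `mul_meas_ge_le_lintegral`).
(b) `setLIntegral_mono'` on `Bx m L`, then `box_le` for `f lam = ∫⁻ τ, ofReal (Hs.. ^2 * exp ..)` (measurable: the integrand is
continuous in `(lam, τ)`: `Measurable.lintegral_prod_right'`), then `avg_H` (`1 ≤ √b D_0`).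
(c) `∏_(i : Fin (m+1)) N i = N 0 * ∏ N i.succ`, so the total is
`exp(π m L^2) exp(π) 16 D_0^2/(∏ N i.succ)^2 * C1 √b N_0 ∏ N i.succ = C √b N_0 D_0^2/∏ N i.succ`.
-/

set_option autoImplicit false

namespace Pool.H19.Fc

open MeasureTheory Set Pool.H19.Wa Pool.H48.Wt

/-- joint continuity of the kernel sum -/
theorem sc_cont {m : ℕ} (q : ℕ) (b b0 : ℝ) (N : Fin (m + 1) → ℕ) (β : Fin (m + 1) → ℕ → ℝ) :
    Continuous (fun p : (Fin m → ℝ) × ℝ => Hs q b b0 (bx N) (vv β p.1) p.2) := by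
  unfold Hs
  refine continuous_finsetSum _ (fun n _ => (continuous_Ker q b b0).comp ?_)
  unfold vv
  fun_prop

theorem sc_meas {m : ℕ} (q : ℕ) (b b0 X : ℝ) (N : Fin (m + 1) → ℕ) (β : Fin (m + 1) → ℕ → ℝ) :
    Measurable (fun lam : Fin m → ℝ => ∫⁻ τ : ℝ, ENNReal.ofReal (Hs q b b0 (bx N) (vv β lam) τ ^ 2 *
      Real.exp (-(Real.pi * τ ^ 2 / X ^ 2)))) := by
  have h1 : Measurable (fun p : (Fin m → ℝ) × ℝ => ENNReal.ofReal (Hs q b b0 (bx N) (vv β p.1) p.2 ^ 2 *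
      Real.exp (-(Real.pi * p.2 ^ 2 / X ^ 2)))) := by
    apply Measurable.ennreal_ofReal
    apply Continuous.measurable
    exact ((sc_cont q b b0 N β).pow 2).mul (by fun_prop)
  exact h1.lintegral_prod_right'

/-- Markov -/
theorem sc_markov (H : ℝ → ℝ) (hH : Continuous H) (M X Y : ℝ) (hM : 0 < M) (hX : 0 < X) (hY : 0 ≤ Y)
    (S : Set ℝ) (hS : ∀ τ ∈ S ∩ Icc Y X, M ≤ |H τ|) :
    volume (S ∩ Icc Y X) ≤ ENNReal.ofReal (Real.exp Real.pi / M ^ 2) *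
      ∫⁻ τ : ℝ, ENNReal.ofReal (H τ ^ 2 * Real.exp (-(Real.pi * τ ^ 2 / X ^ 2))) := by
  set F : ℝ → ENNReal := fun τ => ENNReal.ofReal (H τ ^ 2 * Real.exp (-(Real.pi * τ ^ 2 / X ^ 2))) with hF
  have hFm : Measurable F := by
    simp only [hF]
    apply Measurable.ennreal_ofReal
    apply Continuous.measurable
    fun_prop
  set v : ℝ := M ^ 2 * Real.exp (-Real.pi) with hv
  have hv0 : 0 < v := by positivity
  have hsub : S ∩ Icc Y X ⊆ {τ | ENNReal.ofReal v ≤ F τ} := by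
    intro τ hτ
    have h1 := hS τ hτ
    show ENNReal.ofReal v ≤ F τ
    simp only [hF]
    apply ENNReal.ofReal_le_ofReal
    rw [hv]
    have h2 : M ^ 2 ≤ H τ ^ 2 := by
      rw [← sq_abs (H τ)]
      exact pow_le_pow_left₀ hM.le h1 2
    have h3 : Real.exp (-Real.pi) ≤ Real.exp (-(Real.pi * τ ^ 2 / X ^ 2)) := by
      apply Real.exp_le_exp.mpr
      have h4 : τ ^ 2 ≤ X ^ 2 := pow_le_pow_left₀ (hY.trans hτ.2.1) hτ.2.2 2
      have h5 : Real.pi * τ ^ 2 / X ^ 2 ≤ Real.pi := by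
        rw [div_le_iff₀ (by positivity)]
        exact mul_le_mul_of_nonneg_left h4 Real.pi_pos.le
      linarith
    exact mul_le_mul h2 h3 (Real.exp_pos _).le (by positivity)
  have hmk := mul_meas_ge_le_lintegral (μ := (volume : Measure ℝ)) hFm (ENNReal.ofReal v)
  have h6 : volume (S ∩ Icc Y X) ≤ volume {τ | ENNReal.ofReal v ≤ F τ} := measure_mono hsub
  have h7 : ENNReal.ofReal (Real.exp Real.pi / M ^ 2) * ENNReal.ofReal v = 1 := by
    rw [← ENNReal.ofReal_mul (by positivity)]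
    have : Real.exp Real.pi / M ^ 2 * v = 1 := by
      rw [hv, Real.exp_neg]
      have := (Real.exp_pos Real.pi).ne'
      field_simp
    rw [this, ENNReal.ofReal_one]
  calc volume (S ∩ Icc Y X) ≤ volume {τ | ENNReal.ofReal v ≤ F τ} := h6
    _ = (ENNReal.ofReal (Real.exp Real.pi / M ^ 2) * ENNReal.ofReal v) *
          volume {τ | ENNReal.ofReal v ≤ F τ} := by rw [h7, one_mul]
    _ = ENNReal.ofReal (Real.exp Real.pi / M ^ 2) * (ENNReal.ofReal v *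
          volume {τ | ENNReal.ofReal v ≤ F τ}) := by rw [mul_assoc]
    _ ≤ _ := by gcongr

theorem scale (m : ℕ) (hm : 1 ≤ m) (L c0 : ℝ) (hL : 1 ≤ L) (hc0 : 0 < c0) :
    ∃ C R : ℝ, 0 < C ∧ 1 ≤ R ∧ ∀ (N : Fin (m + 1) → ℕ) (β : Fin (m + 1) → ℕ → ℝ) (D : Fin (m + 1) → ℝ)
      (b X Y r : ℝ), (∀ i, 0 < D i) → (∀ i, 0 < N i) → (∀ i, Cells (N i) (β i) (D i)) →
      (∀ i : Fin m, c0 * D 0 ≤ D i.succ) → 1 ≤ b → 1 ≤ D 0 → 0 < X → 0 ≤ Y → 0 < r →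
      (∀ lam ∈ Bx m L, ∀ n ∈ bx N, ∀ τ ∈ Icc Y X,
        R * D 0 ≤ τ - ∑ i : Fin m, lam i * β i.succ (n i.succ) ∧
        τ - ∑ i : Fin m, lam i * β i.succ (n i.succ) ≤ N 0 * D 0 - R * D 0) →
      Real.sqrt b * (N 0 : ℝ) * Real.exp (-(Real.pi * b * r ^ 2)) ≤ 1 / (4 * D 0) →
      ∫⁻ lam in Bx m L, volume ({τ : ℝ | ∀ n ∈ bx N, r ≤ |vv β lam n - τ|} ∩ Icc Y X) ≤
        ENNReal.ofReal (C * Real.sqrt b * (N 0 : ℝ) * D 0 ^ 2 / ∏ i : Fin m, (N i.succ : ℝ)) := by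
  obtain ⟨A, R, hA, hR, hcl⟩ := cell_lower m hm
  obtain ⟨C1, hC1, hav⟩ := avg_H m A c0 hA hc0
  have hA0 : 0 < A := by linarith
  refine ⟨Real.exp (Real.pi * m * L ^ 2) * Real.exp Real.pi * 16 * C1, R, by positivity, hR, ?_⟩
  intro N β D b X Y r hD hN hβ hDc hb hD1 hX hY hr hwin hsm
  have hb0 : 0 < b := by linarith
  have hD0 : 0 < D 0 := hD 0
  set b0 : ℝ := 1 / (A * D 0) ^ 2 with hb0def
  have hb00 : 0 < b0 := by positivity
  have hb0b : b0 ≤ b := by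
    have h1 : 1 ≤ A * D 0 := by nlinarith
    have h2 : 1 ≤ (A * D 0) ^ 2 := one_le_pow₀ h1
    have h3 : b0 ≤ 1 := by
      rw [hb0def, div_le_one (by positivity)]
      exact h2
    linarith
  have hNr : ∀ i, (0 : ℝ) < N i := fun i => by exact_mod_cast hN i
  set P' : ℝ := ∏ i : Fin m, (N i.succ : ℝ) with hP
  have hP0 : 0 < P' := Finset.prod_pos fun i _ => hNr _
  set M : ℝ := P' / (4 * D 0) with hM
  have hM0 : 0 < M := by positivity
  -- one lam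
  have hone : ∀ lam ∈ Bx m L, volume ({τ : ℝ | ∀ n ∈ bx N, r ≤ |vv β lam n - τ|} ∩ Icc Y X) ≤
      ENNReal.ofReal (Real.exp Real.pi / M ^ 2) *
        ∫⁻ τ : ℝ, ENNReal.ofReal (Hs m b b0 (bx N) (vv β lam) τ ^ 2 *
          Real.exp (-(Real.pi * τ ^ 2 / X ^ 2))) := by
    intro lam hlam
    refine sc_markov (Hs m b b0 (bx N) (vv β lam)) (continuous_Hs m b b0 (bx N) (vv β lam)) M X Y hM0 hX hY _
      fun τ hτ => ?_
    refine missed_lower N β lam (D 0) b b0 r τ hD0 hb0 hr (fun n hn => ?_) (hN 0) hτ.1 hsm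
    obtain ⟨h1, h2⟩ := hwin lam hlam n hn τ hτ.2
    exact hcl (N 0) (β 0) (D 0) b hD0 (hβ 0) hb0b _ h1 h2
  have hsb : 1 ≤ Real.sqrt b := Real.one_le_sqrt.mpr hb
  have hav' := hav N β D b X hD hβ hDc hb0 hX (by nlinarith)
  have hprod : ∏ i : Fin (m + 1), (N i : ℝ) = (N 0 : ℝ) * P' := Fin.prod_univ_succ _
  calc ∫⁻ lam in Bx m L, volume ({τ : ℝ | ∀ n ∈ bx N, r ≤ |vv β lam n - τ|} ∩ Icc Y X)
      ≤ ∫⁻ lam in Bx m L, ENNReal.ofReal (Real.exp Real.pi / M ^ 2) *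
        ∫⁻ τ : ℝ, ENNReal.ofReal (Hs m b b0 (bx N) (vv β lam) τ ^ 2 *
          Real.exp (-(Real.pi * τ ^ 2 / X ^ 2))) := setLIntegral_mono' (measurableSet_Bx m L) hone
    _ = ENNReal.ofReal (Real.exp Real.pi / M ^ 2) * ∫⁻ lam in Bx m L,
        ∫⁻ τ : ℝ, ENNReal.ofReal (Hs m b b0 (bx N) (vv β lam) τ ^ 2 *
          Real.exp (-(Real.pi * τ ^ 2 / X ^ 2))) := lintegral_const_mul _ (sc_meas m b b0 X N β)
    _ ≤ ENNReal.ofReal (Real.exp Real.pi / M ^ 2) * (ENNReal.ofReal (Real.exp (Real.pi * m * L ^ 2)) *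
        ENNReal.ofReal (C1 * Real.sqrt b * ∏ i : Fin (m + 1), (N i : ℝ))) := by
        gcongr
        exact (box_le m L hL _ (sc_meas m b b0 X N β)).trans (by gcongr)
    _ = _ := by
        rw [← ENNReal.ofReal_mul (by positivity), ← ENNReal.ofReal_mul (by positivity)]
        congr 1
        rw [hprod, hM]
        field_simp
        ring

end Pool.H19.Fc
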